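import Pool.Agent.H68.Gal.Span

/-!
# The monomial basis of the quotient by the ideal
-/

namespace Pool.Agent.H68.Gal

open MvPolynomial

variable {k : Type*} [Field k]

lemma mem_of_dual {V : Type*} [AddCommGroup V] [Module k V] {W : Submodule k V} {x : V}
    (h : ∀ φ : Module.Dual k V, (∀ y ∈ W, φ y = 0) → φ x = 0) : x ∈ W := by
  by_contra hx
  obtain ⟨f, hf, hf'⟩ := Submodule.exists_dual_map_eq_bot_of_notMem hx inferInstance
  apply hf
  apply h f
  intro y hy
  have : f y ∈ W.map f := Submodule.mem_map_of_mem hy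
  rw [hf'] at this
  simpa using this

lemma exists_list (e : Fin 12 →₀ ℕ) : ∃ m : List ℕ, ok m ∧ expo m = e := by
  induction e using Finsupp.induction_linear with
  | zero => exact ⟨[], fun a ha => by simp at ha, rfl⟩
  | add a b ha hb =>
    obtain ⟨m, h1, h2⟩ := ha
    obtain ⟨m', h1', h2'⟩ := hb
    refine ⟨m ++ m', ?_, ?_⟩
    · intro c hc
      rcases List.mem_append.mp hc with h | h
      · exact h1 c h
      · exact h1' c h
    · rw [← h2, ← h2']; simp [expo]
  | single i n =>
    refine ⟨List.replicate n (i : ℕ), ?_, ?_⟩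
    · intro c hc
      rw [List.eq_of_mem_replicate hc]; exact i.2
    · have hi : Fin.ofNat 12 (i : ℕ) = i := by simp
      simp [expo, hi]

lemma exists_sorted (e : Fin 12 →₀ ℕ) :
    ∃ m : List ℕ, ok m ∧ m.Pairwise (· ≤ ·) ∧ expo m = e := by
  obtain ⟨m, h1, h2⟩ := exists_list e
  have hp := List.perm_insertionSort (· ≤ ·) m
  refine ⟨m.insertionSort (· ≤ ·), ?_, List.pairwise_insertionSort _ _, ?_⟩
  · intro a ha
    exact h1 a (hp.mem_iff.mp ha)
  · rw [expo_perm hp, h2]

section

variable [CharZero k] {w : k}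

lemma mon4_mem (hw : w ^ 2 + w + 1 = 0) {m : List ℕ} (hm : inc 4 m = true) :
    mon k m ∈ I w := by
  have : mon k m ∈ (I w).restrictScalars k := by
    apply mem_of_dual
    intro φ hφ
    exact zero4 hw (Λ := φ) (fun f hf => hφ f hf) hm
  simpa using this

lemma mon_mem_of_length (hw : w ^ 2 + w + 1 = 0) {m : List ℕ} (hm : ok m)
    (hs : m.Pairwise (· ≤ ·)) (hl : 4 ≤ m.length) : mon k m ∈ I w := by
  by_cases hn : m.Nodup
  · have hlt := lt_of_sorted_nodup hs hn
    rw [← List.take_append_drop 4 m, mon_append]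
    apply Ideal.mul_mem_right
    apply mon4_mem hw
    apply inc_of
    · simp [hl]
    · exact fun a ha => hm a (List.mem_of_mem_take ha)
    · exact hlt.sublist (List.take_sublist 4 m)
  · exact mon_mem_of_dup w hm hn

lemma nil_mem_bas : ([] : List ℕ) ∈ basL := by
  have : memL [] basL = true := by decide +kernel
  exact memL_iff.mp this

lemma single_mem_bas {a : ℕ} (ha : a < 12) : [a] ∈ basL := by
  have : allN (fun a => memL [a] basL) 12 = true := by decide +kernel
  exact memL_iff.mp (allN_spec this a ha)

lemma all_mon (hw : w ^ 2 + w + 1 = 0) {Λ : MvPolynomial (Fin 12) k →ₗ[k] k}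
    (hΛ : ∀ f ∈ I w, Λ f = 0) (hb : ∀ m ∈ basL, Λ (mon k m) = 0) {m : List ℕ} (hm : ok m)
    (hs : m.Pairwise (· ≤ ·)) : Λ (mon k m) = 0 := by
  by_cases hn : m.Nodup
  · have hlt := lt_of_sorted_nodup hs hn
    rcases Nat.lt_or_ge m.length 4 with hl | hl
    · match m, hm, hlt, hl with
      | [], _, _, _ => exact hb _ nil_mem_bas
      | [a], hm, _, _ => exact hb _ (single_mem_bas (hm a (by simp)))
      | [a, b], hm, hlt, _ => exact zero2 hw hΛ (fun m hm _ => hb m hm) (inc_of rfl hm hlt)
      | [a, b, c], hm, hlt, _ => exact zero3 hw hΛ hb (inc_of rfl hm hlt)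
      | _ :: _ :: _ :: _ :: _, _, _, hl => simp at hl; omega
    · exact hΛ _ (mon_mem_of_length hw hm hs hl)
  · exact hΛ _ (mon_mem_of_dup w hm hn)

lemma functional_zero (hw : w ^ 2 + w + 1 = 0) {Λ : MvPolynomial (Fin 12) k →ₗ[k] k}
    (hΛ : ∀ f ∈ I w, Λ f = 0) (hb : ∀ m ∈ basL, Λ (mon k m) = 0) : Λ = 0 := by
  apply MvPolynomial.linearMap_ext
  intro e
  apply LinearMap.ext_ring
  obtain ⟨m, h1, h2, h3⟩ := exists_sorted e
  have := all_mon hw hΛ hb h1 h2
  rw [mon, h3] at this
  simpa using this

/-- the exponents of the monomial basis -/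
noncomputable def bas (j : Fin 107) : Fin 12 →₀ ℕ := expo (basL.getD j [])

lemma bas_mem (j : Fin 107) : basL.getD j [] ∈ basL := by
  have hj : (j : ℕ) < basL.length := by rw [basL_length]; exact j.2
  rw [List.getD_eq_getElem _ _ hj]
  exact List.getElem_mem hj

/-- **Spanning.** -/
theorem span_bas (hw : w ^ 2 + w + 1 = 0) :
    Submodule.span k (Set.range fun j : Fin 107 =>
      Ideal.Quotient.mk (I w) (monomial (bas j) (1 : k))) = ⊤ := by
  rw [eq_top_iff]
  intro x _
  apply mem_of_dual
  intro φ hφ
  have h0 : φ ∘ₗ (Ideal.Quotient.mkₐ k (I w)).toLinearMap = 0 := by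
    apply functional_zero hw
    · intro f hf
      have : Ideal.Quotient.mk (I w) f = 0 := Ideal.Quotient.eq_zero_iff_mem.mpr hf
      simp [this]
    · intro m hm
      obtain ⟨n, hn⟩ := List.get_of_mem hm
      have hlt : (n : ℕ) < 107 := by rw [← basL_length]; exact n.2
      have h1 : bas ⟨n, hlt⟩ = expo m := by
        unfold bas
        rw [List.getD_eq_getElem _ _ n.2]
        rw [← hn]; rfl
      have : φ (Ideal.Quotient.mk (I w) (monomial (bas ⟨n, hlt⟩) (1 : k))) = 0 :=
        hφ _ (Submodule.subset_span ⟨_, rfl⟩)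
      rw [h1] at this
      exact this
  obtain ⟨f, rfl⟩ := Ideal.Quotient.mk_surjective x
  exact LinearMap.congr_fun h0 f

omit [CharZero k] in
/-- **Independence.** -/
theorem indep_bas (hw : w ^ 2 + w + 1 = 0) :
    LinearIndependent k (fun j : Fin 107 =>
      Ideal.Quotient.mk (I w) (monomial (bas j) (1 : k))) := by
  rw [Fintype.linearIndependent_iff]
  intro g hg i
  have hmem : (∑ j, C (g j) * monomial (bas j) (1 : k)) ∈ I w := by
    rw [← Ideal.Quotient.eq_zero_iff_mem, map_sum, ← hg]
    apply Finset.sum_congr rfl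
    intro j _
    rw [← smul_eq_C_mul]
    rfl
  have hlen : dualL.length = 107 := by
    have := congrArg List.length basL_eq
    rw [List.length_map, basL_length] at this
    exact this.symm
  have hi : (i : ℕ) < dualL.length := by rw [hlen]; exact i.2
  have hF := List.getElem_mem hi
  have h1 := kill_dual hw hF hmem
  rw [map_sum, Finset.sum_eq_single i] at h1
  · rw [← smul_eq_C_mul, map_smul] at h1
    have h2 := dual_apply (-w) hF (bas_mem i)
    rw [if_pos] at h2
    · have h3 : evF (-w) dualL[(i : ℕ)] (monomial (bas i) 1) = 1 := h2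
      rw [h3, smul_eq_mul, mul_one] at h1
      exact h1
    · have hi' : (i : ℕ) < basL.length := by rw [basL_length]; exact i.2
      rw [List.getD_eq_getElem _ _ hi']
      simp only [basL_eq, List.getElem_map]
  · intro j _ hj
    rw [← smul_eq_C_mul, map_smul]
    have h2 := dual_apply (-w) hF (bas_mem j)
    rw [if_neg] at h2
    · have h3 : evF (-w) dualL[(i : ℕ)] (monomial (bas j) 1) = 0 := h2
      rw [h3, smul_zero]
    · have hj' : (j : ℕ) < basL.length := by rw [basL_length]; exact j.2
      have hi' : (i : ℕ) < basL.length := by rw [basL_length]; exact i.2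
      rw [List.getD_eq_getElem _ _ hj']
      have h4 := (List.getElem_of_eq basL_eq hi').trans (List.getElem_map _)
      intro he
      replace he := he.trans h4.symm
      apply hj
      have hnd : basL.Nodup := by
        have : ∀ L : List (List ℕ), nodupL L = true → L.Nodup := by
          intro L
          induction L with
          | nil => intro _; exact List.nodup_nil
          | cons b t ih =>
            intro h
            simp only [nodupL, Bool.and_eq_true, Bool.not_eq_true', ← Bool.not_eq_true,
              memL_iff] at h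
            exact List.nodup_cons.mpr ⟨h.1, ih h.2⟩
        exact this _ basL_nodup
      have := (hnd.getElem_inj_iff).mp he
      exact Fin.ext this
  · simp

end

lemma mon_homogeneous (m : List ℕ) : (mon k m).IsHomogeneous m.length := by
  induction m with
  | nil => rw [mon_nil]; exact isHomogeneous_one _ _
  | cons a t ih =>
    rw [mon_cons, List.length_cons, add_comm]
    exact (isHomogeneous_X k _).mul ih

lemma poly_homogeneous (u : k) {p : List (List ℕ × ℕ)} {d : ℕ} (hp : ∀ q ∈ p, q.1.length = d) :
    (poly u p).IsHomogeneous d := by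
  induction p with
  | nil => rw [poly_nil]; exact isHomogeneous_zero _ _ _
  | cons q t ih =>
    rw [poly_cons]
    refine IsHomogeneous.add ?_ (ih (fun r hr => hp r (List.mem_cons_of_mem _ hr)))
    have := (isHomogeneous_C (Fin 12) (u ^ q.2)).mul (mon_homogeneous (k := k) q.1)
    rw [zero_add, hp q List.mem_cons_self] at this
    exact this

/-- **Homogeneity.** -/
theorem gen_homogeneous {w : k} (hw : w ^ 2 + w + 1 = 0) (j : Fin 33) :
    (gen w j).IsHomogeneous 2 := by
  rw [gen_eq hw]
  apply poly_homogeneous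
  intro q hq
  exact (genL_sorted j q hq).2.2

end Pool.Agent.H68.Gal
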