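import Pool.Agent.H68.Gal.Check

/-!
# Splitting of kernel checks into smaller pieces
-/

namespace Pool.Agent.H68.Gal

lemma chkFrom_add {orig : ℕ → List (ℕ × ℕ)} {Z N : ℕ} {T : Tr} {a m n b s : ℕ}
    (h1 : chkFrom orig Z N T a m = true) (h2 : chkFrom orig Z N T b n = true)
    (hb : b = a + m) (hs : s = m + n) : chkFrom orig Z N T a s = true := by
  subst hb hs
  induction n with
  | zero => exact h1
  | succ n ih =>
    simp only [chkFrom, Bool.and_eq_true] at h2
    have := ih h2.2
    rw [← Nat.add_assoc]
    simp only [chkFrom, Bool.and_eq_true]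
    exact ⟨by rw [← Nat.add_assoc]; exact h2.1, this⟩

end Pool.Agent.H68.Gal
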