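import Pool.Agent.H68.Gal.Sys2
import Pool.Agent.H68.Gal.Split

/-!
# Certificate BT
-/

namespace Pool.Agent.H68.Gal

/-- mask of the unknowns that vanish -/
def zBT : ℕ := nat_lit 0xffffff7ffffffffffffffffffffffffffffffffffffffffffffe7fffffffffffffffffffffffffffffffffffffffffffffffffffffffffffffffffffffffffffffffeffffffffffffffffffffffffffffffffffffeffffffffffffffffffffffffffffffffffffffffffffffffffffffffffffffffffffffffffffffffffffffffffffffffffffffffffffff7fffffffffffffffffffffffffffffffffffffffffffffffffffffffffffffffffffffff77fffffffffffffffffffffffffffffffffffffffffffffffffffffffffffffffffffffffffffffffffffffffffffffffffffffffffffffdffffffffffffffffffffffffffffffffffffffffffffffffffffffffffffffffffffffff7fffffffffffffffffffffffffffffffffffffdffffffffffffffffffffffffffffffffffffffffffffffffffffffffffffffffffffffffffffffffffffffffffffffffffffffffffffffff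fffffffffffffffffffffffffffffffffffffffffffffffffffffffffffffffffffffffffff3ff7fffff7ff7ffffffff7ff7f776fffffff3ffbfffffbfffffbfffffb77bffbdfffffff3ffdfffffdffffffffdffdefd5fdfffffffffff1fffffe7fffffffecfeffeffefffffffffffffffffe7ffffffffffb77d5f76ffffffffffffffff07fffffffffff9ffaffb7ffffffffffffffffff7fffffecff9fd5fbdffffffffffffffffffffffbffecfdeffaf76fffffffffffffffffffffffffccfb777f7fb7fffffffffffffffffffffffffff007fffff9ffffffffffffffffffffffffffffff007ff9fffffffffffffffffffffffffffffffff001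

/-- the certificate -/
def tBT : Tr :=
  (Tr.nd (Tr.nd (Tr.nd (Tr.nd (Tr.nd (Tr.nd (Tr.nd (Tr.nd Tr.lf (nat_lit 94) (nat_lit 241435515) (nat_lit 8338) Tr.lf) (nat_lit 73) (nat_lit 0) (nat_lit 7058) Tr.lf) (nat_lit 48) (nat_lit 0) (nat_lit 4642) (Tr.nd Tr.lf (nat_lit 112) (nat_lit 747) (nat_lit 10596) Tr.lf)) (nat_lit 18) (nat_lit 0) (nat_lit 1298) (Tr.nd (Tr.nd Tr.lf (nat_lit 101) (nat_lit 621) (nat_lit 9546) Tr.lf) (nat_lit 39) (nat_lit 96731409) (nat_lit 26747) (Tr.nd Tr.lf (nat_lit 26) (nat_lit 230949241) (nat_lit 26716) Tr.lf))) (nat_lit 7) (nat_lit 0) (nat_lit 58) (Tr.nd (Tr.nd (Tr.nd (Tr.nd Tr.lf (nat_lit 135) (nat_lit 279708598) (nat_lit 12793) Tr.lf) (nat_lit 84) (nat_lit 0) (nat_lit 8122) Tr.lf) (nat_lit 56) (nat_lit 73924883) (nat_lit 4961) (Tr.nd Tr.lf (nat_lit 120) (nat_lit 1) (nat_lit 11602) Tr.lf)) (nat_lit 32) (nat_lit 0) (nat_lit 2562) (Tr.nd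 (Tr.nd Tr.lf (nat_lit 103) (nat_lit 181666433) (nat_lit 9852) Tr.lf) (nat_lit 64) (nat_lit 113508721) (nat_lit 6085) (Tr.nd Tr.lf (nat_lit 15) (nat_lit 947) (nat_lit 1274) Tr.lf)))) (nat_lit 3) (nat_lit 0) (nat_lit 26) (Tr.nd (Tr.nd (Tr.nd (Tr.nd (Tr.nd Tr.lf (nat_lit 131) (nat_lit 229114659) (nat_lit 12478) Tr.lf) (nat_lit 77) (nat_lit 513) (nat_lit 7147) Tr.lf) (nat_lit 51) (nat_lit 277) (nat_lit 4930) (Tr.nd Tr.lf (nat_lit 116) (nat_lit 0) (nat_lit 11210) Tr.lf)) (nat_lit 25) (nat_lit 145) (nat_lit 2317) (Tr.nd (Tr.nd Tr.lf (nat_lit 80) (nat_lit 171180674) (nat_lit 7554) Tr.lf) (nat_lit 43) (nat_lit 101712249) (nat_lit 3710) (Tr.nd Tr.lf (nat_lit 86) (nat_lit 893) (nat_lit 8314) Tr.lf))) (nat_lit 11) (nat_lit 0) (nat_lit 90) (Tr.nd (Tr.nd (Tr.nd (Tr.nd Tr.lf (nat_lit 139) (nat_lit 1059) (nat_lit 12734) Tr.lf) (nat_lit 97) (nat_lit 0) (nat_lit 9378) Tr.lf)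 (nat_lit 60) (nat_lit 0) (nat_lit 5802) (Tr.nd Tr.lf (nat_lit 126) (nat_lit 0) (nat_lit 12178) Tr.lf)) (nat_lit 37) (nat_lit 0) (nat_lit 3578) (Tr.nd (Tr.nd Tr.lf (nat_lit 108) (nat_lit 0) (nat_lit 10442) Tr.lf) (nat_lit 69) (nat_lit 355) (nat_lit 5932) (Tr.nd Tr.lf (nat_lit 23) (nat_lit 947) (nat_lit 1338) Tr.lf))))) (nat_lit 1) (nat_lit 0) (nat_lit 10) (Tr.nd (Tr.nd (Tr.nd (Tr.nd (Tr.nd (Tr.nd Tr.lf (nat_lit 123) (nat_lit 269747059) (nat_lit 11740) Tr.lf) (nat_lit 75) (nat_lit 497) (nat_lit 6941) Tr.lf) (nat_lit 50) (nat_lit 0) (nat_lit 4834) (Tr.nd Tr.lf (nat_lit 114) (nat_lit 0) (nat_lit 11018) Tr.lf)) (nat_lit 22) (nat_lit 0) (nat_lit 1330) (Tr.nd (Tr.nd Tr.lf (nat_lit 78) (nat_lit 641) (nat_lit 36357) Tr.lf) (nat_lit 40) (nat_lit 98042132) (nat_lit 3778) (Tr.nd Tr.lf (nat_lit 31) (nat_lit 61298004197755) (nat_lit 2554) Tr.lf))) (nat_lit 9) (nat_lit 0) (nat_lit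 74) (Tr.nd (Tr.nd (Tr.nd (Tr.nd Tr.lf (nat_lit 137) (nat_lit 0) (nat_lit 13242) Tr.lf) (nat_lit 95) (nat_lit 572) (nat_lit 8153) Tr.lf) (nat_lit 58) (nat_lit 0) (nat_lit 5074) (Tr.nd Tr.lf (nat_lit 124) (nat_lit 0) (nat_lit 11986) Tr.lf)) (nat_lit 35) (nat_lit 0) (nat_lit 2586) (Tr.nd (Tr.nd Tr.lf (nat_lit 106) (nat_lit 0) (nat_lit 10066) Tr.lf) (nat_lit 67) (nat_lit 353) (nat_lit 5918) (Tr.nd Tr.lf (nat_lit 19) (nat_lit 942) (nat_lit 1306) Tr.lf)))) (nat_lit 5) (nat_lit 3) (nat_lit 42) (Tr.nd (Tr.nd (Tr.nd (Tr.nd (Tr.nd Tr.lf (nat_lit 133) (nat_lit 946) (nat_lit 12858) Tr.lf) (nat_lit 82) (nat_lit 0) (nat_lit 7570) Tr.lf) (nat_lit 54) (nat_lit 260) (nat_lit 4757) (Tr.nd Tr.lf (nat_lit 118) (nat_lit 804) (nat_lit 11314) Tr.lf)) (nat_lit 29) (nat_lit 0) (nat_lit 2538) (Tr.nd (Tr.nd Tr.lf (nat_lit 92) (nat_lit 177472142) (nat_lit 8708) Tr.lf) (nat_lit 46) (nat_lit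 101974397) (nat_lit 3732) (Tr.nd Tr.lf (nat_lit 91) (nat_lit 233046665) (nat_lit 23182) Tr.lf))) (nat_lit 14) (nat_lit 97) (nat_lit 1173) (Tr.nd (Tr.nd (Tr.nd (Tr.nd Tr.lf (nat_lit 141) (nat_lit 0) (nat_lit 13626) Tr.lf) (nat_lit 99) (nat_lit 0) (nat_lit 9570) Tr.lf) (nat_lit 62) (nat_lit 0) (nat_lit 5994) (Tr.nd Tr.lf (nat_lit 129) (nat_lit 805) (nat_lit 12466) Tr.lf)) (nat_lit 45) (nat_lit 0) (nat_lit 3818) (Tr.nd (Tr.nd Tr.lf (nat_lit 110) (nat_lit 0) (nat_lit 10634) Tr.lf) (nat_lit 71) (nat_lit 0) (nat_lit 6330) (Tr.nd Tr.lf (nat_lit 89) (nat_lit 261096364) (nat_lit 8205) Tr.lf)))))) (nat_lit 0) (nat_lit 0) (nat_lit 19630) (Tr.nd (Tr.nd (Tr.nd (Tr.nd (Tr.nd (Tr.nd (Tr.nd Tr.lf (nat_lit 122) (nat_lit 881) (nat_lit 11794) Tr.lf) (nat_lit 74) (nat_lit 0) (nat_lit 7154) Tr.lf) (nat_lit 49) (nat_lit 0) (nat_lit 4738) (Tr.nd Tr.lf (nat_lit 113) (nat_lit 741) (nat_lit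 10505) Tr.lf)) (nat_lit 20) (nat_lit 0) (nat_lit 1314) (Tr.nd (Tr.nd Tr.lf (nat_lit 104) (nat_lit 0) (nat_lit 36346) Tr.lf) (nat_lit 38) (nat_lit 378) (nat_lit 3674) (Tr.nd Tr.lf (nat_lit 27) (nat_lit 61298004722043) (nat_lit 2522) Tr.lf))) (nat_lit 8) (nat_lit 0) (nat_lit 66) (Tr.nd (Tr.nd (Tr.nd (Tr.nd Tr.lf (nat_lit 136) (nat_lit 1061) (nat_lit 12706) Tr.lf) (nat_lit 88) (nat_lit 572) (nat_lit 8099) Tr.lf) (nat_lit 57) (nat_lit 269) (nat_lit 4873) (Tr.nd Tr.lf (nat_lit 121) (nat_lit 0) (nat_lit 11698) Tr.lf)) (nat_lit 33) (nat_lit 0) (nat_lit 2570) (Tr.nd (Tr.nd Tr.lf (nat_lit 105) (nat_lit 0) (nat_lit 10058) Tr.lf) (nat_lit 66) (nat_lit 362) (nat_lit 6005) (Tr.nd Tr.lf (nat_lit 17) (nat_lit 939) (nat_lit 1290) Tr.lf)))) (nat_lit 4) (nat_lit 0) (nat_lit 34) (Tr.nd (Tr.nd (Tr.nd (Tr.nd (Tr.nd Tr.lf (nat_lit 132) (nat_lit 0) (nat_lit 12762) Tr.lf) (nat_lit 81)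 (nat_lit 0) (nat_lit 7562) Tr.lf) (nat_lit 53) (nat_lit 73662739) (nat_lit 4941) (Tr.nd Tr.lf (nat_lit 117) (nat_lit 0) (nat_lit 37820) Tr.lf)) (nat_lit 28) (nat_lit 0) (nat_lit 2530) (Tr.nd (Tr.nd Tr.lf (nat_lit 90) (nat_lit 652) (nat_lit 8698) Tr.lf) (nat_lit 44) (nat_lit 97779989) (nat_lit 3810) (Tr.nd Tr.lf (nat_lit 87) (nat_lit 242221950) (nat_lit 8286) Tr.lf))) (nat_lit 12) (nat_lit 0) (nat_lit 1162) (Tr.nd (Tr.nd (Tr.nd (Tr.nd Tr.lf (nat_lit 140) (nat_lit 0) (nat_lit 13530) Tr.lf) (nat_lit 98) (nat_lit 0) (nat_lit 9474) Tr.lf) (nat_lit 61) (nat_lit 0) (nat_lit 5898) (Tr.nd Tr.lf (nat_lit 128) (nat_lit 0) (nat_lit 12370) Tr.lf)) (nat_lit 42) (nat_lit 209) (nat_lit 3509) (Tr.nd (Tr.nd Tr.lf (nat_lit 109) (nat_lit 0) (nat_lit 10538) Tr.lf) (nat_lit 70) (nat_lit 350) (nat_lit 5841) (Tr.nd Tr.lf (nat_lit 85) (nat_lit 937) (nat_lit 8218) Tr.lf))))) (nat_lit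 2) (nat_lit 0) (nat_lit 18) (Tr.nd (Tr.nd (Tr.nd (Tr.nd (Tr.nd (Tr.nd Tr.lf (nat_lit 127) (nat_lit 270009206) (nat_lit 11773) Tr.lf) (nat_lit 76) (nat_lit 505) (nat_lit 7046) Tr.lf) (nat_lit 52) (nat_lit 0) (nat_lit 33764) (Tr.nd Tr.lf (nat_lit 115) (nat_lit 741) (nat_lit 10523) Tr.lf)) (nat_lit 24) (nat_lit 0) (nat_lit 2322) (Tr.nd (Tr.nd Tr.lf (nat_lit 79) (nat_lit 171180674) (nat_lit 7546) Tr.lf) (nat_lit 41) (nat_lit 98042130) (nat_lit 3786) (Tr.nd Tr.lf (nat_lit 34) (nat_lit 61366724985214) (nat_lit 2578) Tr.lf))) (nat_lit 10) (nat_lit 6) (nat_lit 82) (Tr.nd (Tr.nd (Tr.nd (Tr.nd Tr.lf (nat_lit 138) (nat_lit 0) (nat_lit 13338) Tr.lf) (nat_lit 96) (nat_lit 0) (nat_lit 9282) Tr.lf) (nat_lit 59) (nat_lit 254) (nat_lit 4700) (Tr.nd Tr.lf (nat_lit 125) (nat_lit 216793091) (nat_lit 11562) Tr.lf)) (nat_lit 36) (nat_lit 0) (nat_lit 3482) (Tr.nd (Tr.nd Tr.lf (nat_lit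 107) (nat_lit 0) (nat_lit 10074) Tr.lf) (nat_lit 68) (nat_lit 114819445) (nat_lit 6116) (Tr.nd Tr.lf (nat_lit 21) (nat_lit 940) (nat_lit 1322) Tr.lf)))) (nat_lit 6) (nat_lit 0) (nat_lit 50) (Tr.nd (Tr.nd (Tr.nd (Tr.nd (Tr.nd Tr.lf (nat_lit 134) (nat_lit 0) (nat_lit 12954) Tr.lf) (nat_lit 83) (nat_lit 0) (nat_lit 7578) Tr.lf) (nat_lit 55) (nat_lit 250) (nat_lit 4670) (Tr.nd Tr.lf (nat_lit 119) (nat_lit 802) (nat_lit 11322) Tr.lf)) (nat_lit 30) (nat_lit 0) (nat_lit 2546) (Tr.nd (Tr.nd Tr.lf (nat_lit 102) (nat_lit 643) (nat_lit 9858) Tr.lf) (nat_lit 63) (nat_lit 369) (nat_lit 6090) (Tr.nd Tr.lf (nat_lit 13) (nat_lit 937) (nat_lit 20859) Tr.lf))) (nat_lit 16) (nat_lit 0) (nat_lit 1282) (Tr.nd (Tr.nd (Tr.nd (Tr.nd Tr.lf (nat_lit 142) (nat_lit 1132) (nat_lit 13619) Tr.lf) (nat_lit 100) (nat_lit 619) (nat_lit 9539) Tr.lf) (nat_lit 65) (nat_lit 0) (nat_lit 32582) (Tr.nd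 Tr.lf (nat_lit 130) (nat_lit 209977345) (nat_lit 29054) Tr.lf)) (nat_lit 47) (nat_lit 219) (nat_lit 3641) (Tr.nd (Tr.nd Tr.lf (nat_lit 111) (nat_lit 0) (nat_lit 10730) Tr.lf) (nat_lit 72) (nat_lit 0) (nat_lit 6962) (Tr.nd Tr.lf (nat_lit 93) (nat_lit 260572076) (nat_lit 8236) Tr.lf)))))))

/-- the normalised coordinates -/
def normL : List ℕ :=
  [0, 1, 2, 3, 4, 5, 6, 7, 8, 9, 10, 45, 46, 56, 57, 58, 59, 60, 61, 62, 63, 64, 90, 91, 110, 111, 112, 113, 114, 115, 116, 117, 118, 137, 140, 146, 154, 155, 159, 162, 164, 165, 166, 167, 183, 186, 190, 192, 194, 201, 206, 209, 210, 211, 213, 229, 234, 238, 240, 242, 247, 248, 254, 255, 256, 259, 272, 275, 282, 284, 292, 293, 305, 306, 307, 308, 309, 318, 321, 325, 328, 330, 332, 335, 339, 342, 350, 351, 367, 376, 385, 389, 390, 391, 395, 396, 400, 401, 402, 413, 418, 420, 422, 426, 431, 437, 442, 445, 448, 449, 454, 459,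 468, 470, 474, 477, 483, 488, 491, 493, 494, 498, 501, 505, 506, 514, 523, 529, 534, 537, 538, 539, 769, 821, 913, 1055, 1059, 1149, 1289, 1336, 1430, 1431, 1484]

/-- the rows of the system for linear vector fields -/
def origBT (a : ℕ) : List (ℕ × ℕ) := btRow (a / 12) (a % 12) normL

theorem chkBT_p0 : chkFrom origBT zBT 4752 tBT 0 12 = true := by decide +kernel

theorem chkBT_p1 : chkFrom origBT zBT 4752 tBT 12 12 = true := by decide +kernel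

theorem chkBT_p2 : chkFrom origBT zBT 4752 tBT 24 12 = true := by decide +kernel

theorem chkBT_p3 : chkFrom origBT zBT 4752 tBT 36 12 = true := by decide +kernel

theorem chkBT_p4 : chkFrom origBT zBT 4752 tBT 48 12 = true := by decide +kernel

theorem chkBT_p5 : chkFrom origBT zBT 4752 tBT 60 12 = true := by decide +kernel

theorem chkBT_p6 : chkFrom origBT zBT 4752 tBT 72 12 = true := by decide +kernel

theorem chkBT_p7 : chkFrom origBT zBT 4752 tBT 84 12 = true := by decide +kernel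

theorem chkBT_p8 : chkFrom origBT zBT 4752 tBT 96 12 = true := by decide +kernel

theorem chkBT_p9 : chkFrom origBT zBT 4752 tBT 108 12 = true := by decide +kernel

theorem chkBT_p10 : chkFrom origBT zBT 4752 tBT 120 12 = true := by decide +kernel

theorem chkBT_p11 : chkFrom origBT zBT 4752 tBT 132 11 = true := by decide +kernel

theorem chkBT : chkFrom origBT zBT 4752 tBT 0 143 = true := by
  have h0 : chkFrom origBT zBT 4752 tBT 0 24 = true := chkFrom_add chkBT_p0 chkBT_p1 rfl rfl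
  have h1 : chkFrom origBT zBT 4752 tBT 0 36 = true := chkFrom_add h0 chkBT_p2 rfl rfl
  have h2 : chkFrom origBT zBT 4752 tBT 0 48 = true := chkFrom_add h1 chkBT_p3 rfl rfl
  have h3 : chkFrom origBT zBT 4752 tBT 0 60 = true := chkFrom_add h2 chkBT_p4 rfl rfl
  have h4 : chkFrom origBT zBT 4752 tBT 0 72 = true := chkFrom_add h3 chkBT_p5 rfl rfl
  have h5 : chkFrom origBT zBT 4752 tBT 0 84 = true := chkFrom_add h4 chkBT_p6 rfl rfl
  have h6 : chkFrom origBT zBT 4752 tBT 0 96 = true := chkFrom_add h5 chkBT_p7 rfl rfl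
  have h7 : chkFrom origBT zBT 4752 tBT 0 108 = true := chkFrom_add h6 chkBT_p8 rfl rfl
  have h8 : chkFrom origBT zBT 4752 tBT 0 120 = true := chkFrom_add h7 chkBT_p9 rfl rfl
  have h9 : chkFrom origBT zBT 4752 tBT 0 132 = true := chkFrom_add h8 chkBT_p10 rfl rfl
  have h10 : chkFrom origBT zBT 4752 tBT 0 143 = true := chkFrom_add h9 chkBT_p11 rfl rfl
  exact h10

theorem finBT : fin tBT 4752 143 zBT = true := by decide +kernel

end Pool.Agent.H68.Gal
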