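import Pool.Agent.H68.Gal.Sys2

/-!
# Certificate D0
-/

namespace Pool.Agent.H68.Gal

/-- mask of the unknowns that vanish -/
def zD0 : ℕ := nat_lit 0x0

/-- the certificate -/
def tD0 : Tr :=
  (Tr.nd (Tr.nd (Tr.nd (Tr.nd (Tr.nd (Tr.nd Tr.lf (nat_lit 2241) (nat_lit 20) (nat_lit 153) Tr.lf) (nat_lit 582) (nat_lit 60) (nat_lit 69) Tr.lf) (nat_lit 128) (nat_lit 33) (nat_lit 59) (Tr.nd Tr.lf (nat_lit 1089) (nat_lit 59) (nat_lit 74) Tr.lf)) (nat_lit 68) (nat_lit 13) (nat_lit 225) (Tr.nd (Tr.nd Tr.lf (nat_lit 706) (nat_lit 61) (nat_lit 201) Tr.lf) (nat_lit 324) (nat_lit 36) (nat_lit 121) (Tr.nd Tr.lf (nat_lit 1345) (nat_lit 11) (nat_lit 161) Tr.lf))) (nat_lit 899) (nat_lit 5) (nat_lit 44) (Tr.nd (Tr.nd (Tr.nd Tr.lf (nat_lit 263) (nat_lit 125) (nat_lit 50) Tr.lf) (nat_lit 201) (nat_lit 34) (nat_lit 85) (Tr.nd Tr.lf (nat_lit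 1153) (nat_lit 189) (nat_lit 169) Tr.lf)) (nat_lit 1) (nat_lit 34) (nat_lit 145) (Tr.nd (Tr.nd Tr.lf (nat_lit 965) (nat_lit 74) (nat_lit 137) Tr.lf) (nat_lit 389) (nat_lit 97) (nat_lit 21) (Tr.nd Tr.lf (nat_lit 1472) (nat_lit 53) (nat_lit 97) Tr.lf)))) (nat_lit 2692) (nat_lit 0) (nat_lit 244) (Tr.nd (Tr.nd (Tr.nd (Tr.nd (Tr.nd Tr.lf (nat_lit 2368) (nat_lit 20) (nat_lit 113) Tr.lf) (nat_lit 262) (nat_lit 124) (nat_lit 249) Tr.lf) (nat_lit 135) (nat_lit 37) (nat_lit 129) (Tr.nd Tr.lf (nat_lit 1095) (nat_lit 188) (nat_lit 177) Tr.lf)) (nat_lit 320) (nat_lit 17) (nat_lit 91) (Tr.nd (Tr.nd Tr.lf (nat_lit 834) (nat_lit 58) (nat_lit 185) Tr.lf) (nat_lit 386) (nat_lit 11) (nat_lit 217) (Tr.nd Tr.lf (nat_lit 1411) (nat_lit 19) (nat_lit 233) Tr.lf))) (nat_lit 67) (nat_lit 13) (nat_lit 38) (Tr.nd (Tr.nd (Tr.nd Tr.lf (nat_lit 647)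 (nat_lit 69) (nat_lit 3) Tr.lf) (nat_lit 202) (nat_lit 36) (nat_lit 257) (Tr.nd Tr.lf (nat_lit 1218) (nat_lit 76) (nat_lit 193) Tr.lf)) (nat_lit 3) (nat_lit 35) (nat_lit 12) (Tr.nd (Tr.nd Tr.lf (nat_lit 1026) (nat_lit 20) (nat_lit 209) Tr.lf) (nat_lit 449) (nat_lit 38) (nat_lit 28) (Tr.nd Tr.lf (nat_lit 1792) (nat_lit 117) (nat_lit 105) Tr.lf)))))

theorem chkD0 : chkFrom origD0 zD0 33 tD0 0 33 = true := by decide +kernel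

theorem finD0 : fin tD0 33 33 zD0 = true := by decide +kernel

end Pool.Agent.H68.Gal
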