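import Pool.Agent.H68.Gal.Sys2
import Pool.Agent.H68.Gal.Split

/-!
# Certificate D1
-/

namespace Pool.Agent.H68.Gal

/-- mask of the unknowns that vanish -/
def zD1 : ℕ := nat_lit 0x800400200100080040020010008004002001

/-- the certificate -/
def tD1 : Tr :=
  (Tr.nd (Tr.nd (Tr.nd (Tr.nd (Tr.nd (Tr.nd (Tr.nd (Tr.nd (Tr.nd Tr.lf (nat_lit 845) (nat_lit 2037) (nat_lit 236) Tr.lf) (nat_lit 1410) (nat_lit 56281388548331) (nat_lit 2838) (Tr.nd Tr.lf (nat_lit 235) (nat_lit 55160191659189207290) (nat_lit 3156) Tr.lf)) (nat_lit 263) (nat_lit 500) (nat_lit 578) (Tr.nd (Tr.nd Tr.lf (nat_lit 2831) (nat_lit 40892839923118508178) (nat_lit 2173) Tr.lf) (nat_lit 916) (nat_lit 7201615767893138423414789) (nat_lit 500) Tr.lf)) (nat_lit 329) (nat_lit 217) (nat_lit 1139) (Tr.nd (Tr.nd (Tr.nd Tr.lf (nat_lit 2518) (nat_lit 38659039595664245683) (nat_lit 2634) Tr.lf) (nat_lit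 1984) (nat_lit 1230) (nat_lit 877) Tr.lf) (nat_lit 1491) (nat_lit 753) (nat_lit 94) (Tr.nd (Tr.nd Tr.lf (nat_lit 1439) (nat_lit 3270648889180209091245893486346) (nat_lit 2850) Tr.lf) (nat_lit 12) (nat_lit 1779) (nat_lit 1761) Tr.lf))) (nat_lit 1240) (nat_lit 25952297) (nat_lit 2364) (Tr.nd (Tr.nd (Tr.nd (Tr.nd Tr.lf (nat_lit 717) (nat_lit 2045) (nat_lit 2446) Tr.lf) (nat_lit 524) (nat_lit 75385508725564) (nat_lit 302) Tr.lf) (nat_lit 732) (nat_lit 629) (nat_lit 766) (Tr.nd (Tr.nd Tr.lf (nat_lit 276) (nat_lit 2670) (nat_lit 606) Tr.lf) (nat_lit 1088) (nat_lit 108576902218177) (nat_lit 885) Tr.lf)) (nat_lit 905) (nat_lit 318) (nat_lit 2962) (Tr.nd (Tr.nd (Tr.nd Tr.lf (nat_lit 415) (nat_lit 2418) (nat_lit 259) Tr.lf) (nat_lit 273) (nat_lit 1395) (nat_lit 652) Tr.lf) (nat_lit 229) (nat_lit 834) (nat_lit 1013) (Tr.nd (Tr.nd Tr.lf (nat_lit 19) (nat_lit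 52800393553201857235) (nat_lit 1738) Tr.lf) (nat_lit 989) (nat_lit 1764) (nat_lit 1670) Tr.lf)))) (nat_lit 518) (nat_lit 9) (nat_lit 2748) (Tr.nd (Tr.nd (Tr.nd (Tr.nd (Tr.nd Tr.lf (nat_lit 205) (nat_lit 2070) (nat_lit 1006) Tr.lf) (nat_lit 907) (nat_lit 74011029013054) (nat_lit 492) Tr.lf) (nat_lit 2691) (nat_lit 102236163) (nat_lit 2972) (Tr.nd (Tr.nd Tr.lf (nat_lit 139) (nat_lit 2605) (nat_lit 1564) Tr.lf) (nat_lit 341) (nat_lit 106927865201945) (nat_lit 1457) Tr.lf)) (nat_lit 466) (nat_lit 254) (nat_lit 372) (Tr.nd (Tr.nd (Tr.nd Tr.lf (nat_lit 232) (nat_lit 2333) (nat_lit 1029) Tr.lf) (nat_lit 145) (nat_lit 1307) (nat_lit 1610) Tr.lf) (nat_lit 78) (nat_lit 813) (nat_lit 2742) (Tr.nd (Tr.nd Tr.lf (nat_lit 2370) (nat_lit 2643) (nat_lit 1369) Tr.lf) (nat_lit 131) (nat_lit 482871028) (nat_lit 1574) Tr.lf))) (nat_lit 2182) (nat_lit 182) (nat_lit 633)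 (Tr.nd (Tr.nd (Tr.nd (Tr.nd Tr.lf (nat_lit 1796) (nat_lit 2133) (nat_lit 1289) Tr.lf) (nat_lit 832) (nat_lit 1117) (nat_lit 2222) Tr.lf) (nat_lit 1107) (nat_lit 637) (nat_lit 954) (Tr.nd (Tr.nd Tr.lf (nat_lit 927) (nat_lit 3361018587606175793274138920713) (nat_lit 2946) Tr.lf) (nat_lit 1472) (nat_lit 30894809648823796973) (nat_lit 1158) Tr.lf)) (nat_lit 1288) (nat_lit 374) (nat_lit 98) (Tr.nd (Tr.nd (Tr.nd Tr.lf (nat_lit 1241) (nat_lit 2364) (nat_lit 2369) Tr.lf) (nat_lit 1242) (nat_lit 1436) (nat_lit 2377) Tr.lf) (nat_lit 855) (nat_lit 866) (nat_lit 2257) (Tr.nd (Tr.nd Tr.lf (nat_lit 926) (nat_lit 3705167519409785231096703878926) (nat_lit 2908) Tr.lf) (nat_lit 2005) (nat_lit 34839971718501762412) (nat_lit 2530) Tr.lf))))) (nat_lit 6) (nat_lit 18) (nat_lit 157) (Tr.nd (Tr.nd (Tr.nd (Tr.nd (Tr.nd (Tr.nd Tr.lf (nat_lit 13) (nat_lit 2069) (nat_lit 1769)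 Tr.lf) (nat_lit 1922) (nat_lit 65764787487113) (nat_lit 2213) Tr.lf) (nat_lit 1860) (nat_lit 26731975803209) (nat_lit 770) (Tr.nd (Tr.nd Tr.lf (nat_lit 2836) (nat_lit 0) (nat_lit 2046) Tr.lf) (nat_lit 0) (nat_lit 106996465926996) (nat_lit 1750) Tr.lf)) (nat_lit 155) (nat_lit 253) (nat_lit 1617) (Tr.nd (Tr.nd (Tr.nd Tr.lf (nat_lit 135) (nat_lit 2323) (nat_lit 1124) Tr.lf) (nat_lit 465) (nat_lit 1300) (nat_lit 1131) Tr.lf) (nat_lit 2378) (nat_lit 199492179) (nat_lit 1436) (Tr.nd (Tr.nd Tr.lf (nat_lit 856) (nat_lit 3509572945984596646540447055973) (nat_lit 2229) Tr.lf) (nat_lit 707) (nat_lit 1814) (nat_lit 226) Tr.lf))) (nat_lit 1478) (nat_lit 28) (nat_lit 1209) (Tr.nd (Tr.nd (Tr.nd (Tr.nd Tr.lf (nat_lit 1359) (nat_lit 2578635528996099450650286358554) (nat_lit 1978) Tr.lf) (nat_lit 704) (nat_lit 1114) (nat_lit 2414) Tr.lf) (nat_lit 778) (nat_lit 630)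 (nat_lit 1051) (Tr.nd (Tr.nd Tr.lf (nat_lit 386) (nat_lit 2705) (nat_lit 510) Tr.lf) (nat_lit 1473) (nat_lit 29345563268013621691) (nat_lit 1170) Tr.lf)) (nat_lit 1051) (nat_lit 220) (nat_lit 2577) (Tr.nd (Tr.nd (Tr.nd Tr.lf (nat_lit 1049) (nat_lit 2379) (nat_lit 2561) Tr.lf) (nat_lit 785) (nat_lit 1430) (nat_lit 1037) Tr.lf) (nat_lit 462) (nat_lit 838) (nat_lit 340) (Tr.nd (Tr.nd Tr.lf (nat_lit 323) (nat_lit 3668025757555744738361023135780) (nat_lit 1441) Tr.lf) (nat_lit 1164) (nat_lit 1933) (nat_lit 2049) Tr.lf)))) (nat_lit 408) (nat_lit 68) (nat_lit 2649) (Tr.nd (Tr.nd (Tr.nd (Tr.nd (Tr.nd Tr.lf (nat_lit 598) (nat_lit 2059) (nat_lit 812) Tr.lf) (nat_lit 128) (nat_lit 1105) (nat_lit 683) Tr.lf) (nat_lit 412) (nat_lit 582) (nat_lit 2681) (Tr.nd (Tr.nd Tr.lf (nat_lit 331) (nat_lit 2644) (nat_lit 1470) Tr.lf) (nat_lit 668) (nat_lit 1579) (nat_lit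 20) Tr.lf)) (nat_lit 294) (nat_lit 332) (nat_lit 3057) (Tr.nd (Tr.nd (Tr.nd Tr.lf (nat_lit 464) (nat_lit 2329) (nat_lit 356) Tr.lf) (nat_lit 346) (nat_lit 1306) (nat_lit 1516) Tr.lf) (nat_lit 14) (nat_lit 834) (nat_lit 1777) (Tr.nd (Tr.nd Tr.lf (nat_lit 728) (nat_lit 3590039015481617173853247897697) (nat_lit 2417) Tr.lf) (nat_lit 643) (nat_lit 485492532) (nat_lit 37) Tr.lf))) (nat_lit 1435) (nat_lit 213) (nat_lit 470) (Tr.nd (Tr.nd (Tr.nd (Tr.nd Tr.lf (nat_lit 1169) (nat_lit 2798992794456252826762284630042) (nat_lit 2026) Tr.lf) (nat_lit 1419) (nat_lit 74973145465427) (nat_lit 2793) Tr.lf) (nat_lit 1244) (nat_lit 666) (nat_lit 2393) (Tr.nd (Tr.nd Tr.lf (nat_lit 1182) (nat_lit 12259307795183416125163265) (nat_lit 124) Tr.lf) (nat_lit 2755) (nat_lit 0) (nat_lit 2339) Tr.lf)) (nat_lit 1348) (nat_lit 32229550981385) (nat_lit 1925) (Tr.nd (Tr.nd (Tr.nd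 Tr.lf (nat_lit 2183) (nat_lit 2518) (nat_lit 641) Tr.lf) (nat_lit 2257) (nat_lit 1347) (nat_lit 1897) Tr.lf) (nat_lit 1125) (nat_lit 869) (nat_lit 2161) (Tr.nd (Tr.nd Tr.lf (nat_lit 1437) (nat_lit 3747257768809861635525197956878) (nat_lit 2817) Tr.lf) (nat_lit 2374) (nat_lit 2328568812349814855745466007630) (nat_lit 1402) Tr.lf)))))) (nat_lit 911) (nat_lit 6) (nat_lit 347) (Tr.nd (Tr.nd (Tr.nd (Tr.nd (Tr.nd (Tr.nd (Tr.nd Tr.lf (nat_lit 708) (nat_lit 2045) (nat_lit 718) Tr.lf) (nat_lit 1602) (nat_lit 56418831696109) (nat_lit 822) Tr.lf) (nat_lit 1607) (nat_lit 238) (nat_lit 2786) (Tr.nd (Tr.nd Tr.lf (nat_lit 2829) (nat_lit 46171079096105699537) (nat_lit 1964) Tr.lf) (nat_lit 85) (nat_lit 105347315139916) (nat_lit 2705) Tr.lf)) (nat_lit 27) (nat_lit 254) (nat_lit 177) (Tr.nd (Tr.nd (Tr.nd Tr.lf (nat_lit 2783) (nat_lit 0) (nat_lit 2468) Tr.lf) (nat_lit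 2701) (nat_lit 326369429) (nat_lit 2857) Tr.lf) (nat_lit 2250) (nat_lit 722) (nat_lit 1917) (Tr.nd (Tr.nd Tr.lf (nat_lit 1797) (nat_lit 48476810504530297153) (nat_lit 1298) Tr.lf) (nat_lit 451) (nat_lit 1785) (nat_lit 326) Tr.lf))) (nat_lit 1167) (nat_lit 34603036) (nat_lit 925) (Tr.nd (Tr.nd (Tr.nd (Tr.nd Tr.lf (nat_lit 1220) (nat_lit 2043) (nat_lit 2348) Tr.lf) (nat_lit 272) (nat_lit 1156) (nat_lit 586) Tr.lf) (nat_lit 266) (nat_lit 646) (nat_lit 665) (Tr.nd (Tr.nd Tr.lf (nat_lit 788) (nat_lit 690752042) (nat_lit 2429) Tr.lf) (nat_lit 1344) (nat_lit 105278363140468) (nat_lit 1942) Tr.lf)) (nat_lit 1032) (nat_lit 237) (nat_lit 196) (Tr.nd (Tr.nd (Tr.nd Tr.lf (nat_lit 857) (nat_lit 2321) (nat_lit 2273) Tr.lf) (nat_lit 657) (nat_lit 1341) (nat_lit 78) Tr.lf) (nat_lit 334) (nat_lit 835) (nat_lit 1494) (Tr.nd (Tr.nd Tr.lf (nat_lit 134) (nat_lit 3649456161119298448062734401571)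 (nat_lit 1595) Tr.lf) (nat_lit 1100) (nat_lit 1845) (nat_lit 898) Tr.lf)))) (nat_lit 79) (nat_lit 62) (nat_lit 444) (Tr.nd (Tr.nd (Tr.nd (Tr.nd (Tr.nd Tr.lf (nat_lit 350) (nat_lit 2068) (nat_lit 1486) Tr.lf) (nat_lit 76) (nat_lit 74560849052462) (nat_lit 2697) Tr.lf) (nat_lit 67) (nat_lit 2734256858923129316835388) (nat_lit 2777) (Tr.nd (Tr.nd Tr.lf (nat_lit 203) (nat_lit 2628) (nat_lit 987) Tr.lf) (nat_lit 601) (nat_lit 1581) (nat_lit 2998) Tr.lf)) (nat_lit 614) (nat_lit 276) (nat_lit 853) (Tr.nd (Tr.nd (Tr.nd Tr.lf (nat_lit 327) (nat_lit 2329) (nat_lit 449) Tr.lf) (nat_lit 77) (nat_lit 6365769780778625777532989) (nat_lit 2763) Tr.lf) (nat_lit 5) (nat_lit 836) (nat_lit 147) (Tr.nd (Tr.nd Tr.lf (nat_lit 1243) (nat_lit 3568994332322853965521856495717) (nat_lit 2324) Tr.lf) (nat_lit 259) (nat_lit 1862) (nat_lit 611) Tr.lf))) (nat_lit 2695) (nat_lit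 0) (nat_lit 2689) (Tr.nd (Tr.nd (Tr.nd (Tr.nd Tr.lf (nat_lit 1101) (nat_lit 587728905) (nat_lit 2155) Tr.lf) (nat_lit 1024) (nat_lit 1091) (nat_lit 2510) Tr.lf) (nat_lit 1171) (nat_lit 701) (nat_lit 2105) (Tr.nd (Tr.nd Tr.lf (nat_lit 1044) (nat_lit 2643) (nat_lit 2521) Tr.lf) (nat_lit 2369) (nat_lit 1540) (nat_lit 1361) Tr.lf)) (nat_lit 1160) (nat_lit 446) (nat_lit 2018) (Tr.nd (Tr.nd (Tr.nd Tr.lf (nat_lit 1479) (nat_lit 2349) (nat_lit 1217) Tr.lf) (nat_lit 1480) (nat_lit 1325) (nat_lit 1225) Tr.lf) (nat_lit 1038) (nat_lit 946) (nat_lit 2549) (Tr.nd (Tr.nd Tr.lf (nat_lit 292) (nat_lit 54277556638726226107) (nat_lit 3041) Tr.lf) (nat_lit 2122) (nat_lit 2329806752389028178495046680652) (nat_lit 1530) Tr.lf))))) (nat_lit 207) (nat_lit 34) (nat_lit 1020) (Tr.nd (Tr.nd (Tr.nd (Tr.nd (Tr.nd (Tr.nd Tr.lf (nat_lit 141) (nat_lit 2069) (nat_lit 1582) Tr.lf)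 (nat_lit 2373) (nat_lit 819) (nat_lit 1393) Tr.lf) (nat_lit 2258) (nat_lit 220) (nat_lit 1905) (Tr.nd (Tr.nd Tr.lf (nat_lit 1099) (nat_lit 2595) (nat_lit 701) Tr.lf) (nat_lit 129) (nat_lit 1553) (nat_lit 691) Tr.lf)) (nat_lit 411) (nat_lit 246) (nat_lit 2673) (Tr.nd (Tr.nd (Tr.nd Tr.lf (nat_lit 31) (nat_lit 2332) (nat_lit 164) Tr.lf) (nat_lit 32) (nat_lit 1307) (nat_lit 172) Tr.lf) (nat_lit 898) (nat_lit 55319280746865) (nat_lit 531) (Tr.nd (Tr.nd Tr.lf (nat_lit 1794) (nat_lit 51359244421199299493) (nat_lit 1254) Tr.lf) (nat_lit 405) (nat_lit 1828) (nat_lit 2625) Tr.lf))) (nat_lit 1606) (nat_lit 147) (nat_lit 825) (Tr.nd (Tr.nd (Tr.nd (Tr.nd Tr.lf (nat_lit 1476) (nat_lit 2085) (nat_lit 1193) Tr.lf) (nat_lit 722) (nat_lit 1117) (nat_lit 201) Tr.lf) (nat_lit 994) (nat_lit 665) (nat_lit 1721) (Tr.nd (Tr.nd Tr.lf (nat_lit 731) (nat_lit 3349878052821774167519058460774)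 (nat_lit 2482) Tr.lf) (nat_lit 1793) (nat_lit 1602) (nat_lit 1265) Tr.lf)) (nat_lit 1115) (nat_lit 420) (nat_lit 2193) (Tr.nd (Tr.nd (Tr.nd Tr.lf (nat_lit 1123) (nat_lit 169393769677780) (nat_lit 2178) Tr.lf) (nat_lit 909) (nat_lit 6139097054290911734005765) (nat_lit 2954) Tr.lf) (nat_lit 727) (nat_lit 869) (nat_lit 2449) (Tr.nd (Tr.nd Tr.lf (nat_lit 964) (nat_lit 53683060597083865970) (nat_lit 1675) Tr.lf) (nat_lit 1475) (nat_lit 1797) (nat_lit 1185) Tr.lf)))) (nat_lit 975) (nat_lit 44) (nat_lit 1691) (Tr.nd (Tr.nd (Tr.nd (Tr.nd (Tr.nd Tr.lf (nat_lit 278) (nat_lit 2140) (nat_lit 3021) Tr.lf) (nat_lit 332) (nat_lit 76141417988933) (nat_lit 1449) Tr.lf) (nat_lit 515) (nat_lit 2762590265186469171429388) (nat_lit 382) (Tr.nd (Tr.nd Tr.lf (nat_lit 578) (nat_lit 2606) (nat_lit 794) Tr.lf) (nat_lit 220) (nat_lit 1635) (nat_lit 3093) Tr.lf)) (nat_lit 859)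 (nat_lit 80216339) (nat_lit 2294) (Tr.nd (Tr.nd (Tr.nd Tr.lf (nat_lit 95) (nat_lit 629934411) (nat_lit 549) Tr.lf) (nat_lit 397) (nat_lit 6516887255630408385298526) (nat_lit 270) Tr.lf) (nat_lit 167) (nat_lit 869) (nat_lit 1585) (Tr.nd (Tr.nd Tr.lf (nat_lit 2252) (nat_lit 52476080641143210828) (nat_lit 1857) Tr.lf) (nat_lit 835) (nat_lit 1819) (nat_lit 2244) Tr.lf))) (nat_lit 68) (nat_lit 15736818368713) (nat_lit 390) (Tr.nd (Tr.nd (Tr.nd (Tr.nd Tr.lf (nat_lit 2372) (nat_lit 2115) (nat_lit 1385) Tr.lf) (nat_lit 1746) (nat_lit 1084) (nat_lit 12) Tr.lf) (nat_lit 1411) (nat_lit 2932599061457999533703177) (nat_lit 2874) (Tr.nd (Tr.nd Tr.lf (nat_lit 1236) (nat_lit 3352354065127615254597967544363) (nat_lit 2330) Tr.lf) (nat_lit 195) (nat_lit 1761) (nat_lit 3109) Tr.lf)) (nat_lit 1540) (nat_lit 32710592823569) (nat_lit 676) (Tr.nd (Tr.nd (Tr.nd Tr.lf (nat_lit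 2256) (nat_lit 2379) (nat_lit 1889) Tr.lf) (nat_lit 2376) (nat_lit 1347) (nat_lit 1417) Tr.lf) (nat_lit 1239) (nat_lit 892) (nat_lit 2353) (Tr.nd (Tr.nd Tr.lf (nat_lit 93) (nat_lit 3768302291412884048065068009250) (nat_lit 2713) Tr.lf) (nat_lit 2371) (nat_lit 2499410445474851973109915058340) (nat_lit 1349) Tr.lf))))))) (nat_lit 2694) (nat_lit 0) (nat_lit 2941) (Tr.nd (Tr.nd (Tr.nd (Tr.nd (Tr.nd (Tr.nd (Tr.nd (Tr.nd Tr.lf (nat_lit 407) (nat_lit 36839550299097269036) (nat_lit 2642) Tr.lf) (nat_lit 1477) (nat_lit 842) (nat_lit 1201) Tr.lf) (nat_lit 1096) (nat_lit 490) (nat_lit 2113) (Tr.nd (Tr.nd Tr.lf (nat_lit 1103) (nat_lit 3166661430029486640325785813129) (nat_lit 2121) Tr.lf) (nat_lit 84) (nat_lit 7239392249796386469969990) (nat_lit 406) Tr.lf)) (nat_lit 18) (nat_lit 250) (nat_lit 1809) (Tr.nd (Tr.nd (Tr.nd Tr.lf (nat_lit 406) (nat_lit 41415243323639858099)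 (nat_lit 2614) Tr.lf) (nat_lit 2368) (nat_lit 1092) (nat_lit 1353) Tr.lf) (nat_lit 1802) (nat_lit 617) (nat_lit 1337) (Tr.nd (Tr.nd Tr.lf (nat_lit 1474) (nat_lit 2781) (nat_lit 1177) Tr.lf) (nat_lit 3) (nat_lit 1789) (nat_lit 132) Tr.lf))) (nat_lit 1295) (nat_lit 18350108) (nat_lit 2078) (Tr.nd (Tr.nd (Tr.nd (Tr.nd Tr.lf (nat_lit 1046) (nat_lit 2115) (nat_lit 2537) Tr.lf) (nat_lit 592) (nat_lit 1117) (nat_lit 2990) Tr.lf) (nat_lit 615) (nat_lit 634) (nat_lit 861) (Tr.nd (Tr.nd Tr.lf (nat_lit 651) (nat_lit 2603) (nat_lit 26) Tr.lf) (nat_lit 1152) (nat_lit 114143171183042) (nat_lit 2038) Tr.lf)) (nat_lit 900) (nat_lit 26182204784957) (nat_lit 2884) (Tr.nd (Tr.nd (Tr.nd Tr.lf (nat_lit 675) (nat_lit 161972050199405) (nat_lit 70) Tr.lf) (nat_lit 293) (nat_lit 1396) (nat_lit 3049) Tr.lf) (nat_lit 230) (nat_lit 836) (nat_lit 3121) (Tr.nd (Tr.nd Tr.lf (nat_lit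 3264) (nat_lit 13893253371617857213039646) (nat_lit 1541) Tr.lf) (nat_lit 1050) (nat_lit 32822339981352895811) (nat_lit 2570) Tr.lf)))) (nat_lit 70) (nat_lit 57) (nat_lit 539) (Tr.nd (Tr.nd (Tr.nd (Tr.nd (Tr.nd Tr.lf (nat_lit 324) (nat_lit 2065) (nat_lit 425) Tr.lf) (nat_lit 75) (nat_lit 74560789021253) (nat_lit 398) Tr.lf) (nat_lit 915) (nat_lit 574) (nat_lit 570) (Tr.nd (Tr.nd Tr.lf (nat_lit 212) (nat_lit 2614) (nat_lit 3098) Tr.lf) (nat_lit 448) (nat_lit 106721570980164) (nat_lit 307) Tr.lf)) (nat_lit 516) (nat_lit 21577976774873) (nat_lit 294) (Tr.nd (Tr.nd (Tr.nd Tr.lf (nat_lit 233) (nat_lit 2331) (nat_lit 3137) Tr.lf) (nat_lit 328) (nat_lit 1310) (nat_lit 457) Tr.lf) (nat_lit 325) (nat_lit 822) (nat_lit 1107) (Tr.nd (Tr.nd Tr.lf (nat_lit 2779) (nat_lit 51233144181402110635) (nat_lit 2386) Tr.lf) (nat_lit 588) (nat_lit 1846) (nat_lit 801) Tr.lf)))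 (nat_lit 2246) (nat_lit 25) (nat_lit 1884) (Tr.nd (Tr.nd (Tr.nd (Tr.nd Tr.lf (nat_lit 2006) (nat_lit 2182) (nat_lit 906) Tr.lf) (nat_lit 978) (nat_lit 1082) (nat_lit 1643) Tr.lf) (nat_lit 1098) (nat_lit 698) (nat_lit 2204) (Tr.nd (Tr.nd Tr.lf (nat_lit 980) (nat_lit 2717) (nat_lit 1662) Tr.lf) (nat_lit 2240) (nat_lit 105759480479980) (nat_lit 1846) Tr.lf)) (nat_lit 1156) (nat_lit 30580276461835) (nat_lit 869) (Tr.nd (Tr.nd (Tr.nd Tr.lf (nat_lit 1360) (nat_lit 2409) (nat_lit 1985) Tr.lf) (nat_lit 1361) (nat_lit 357041454) (nat_lit 1996) Tr.lf) (nat_lit 983) (nat_lit 893) (nat_lit 1686) (Tr.nd (Tr.nd Tr.lf (nat_lit 3734) (nat_lit 14148261215774908922463162) (nat_lit 3026) Tr.lf) (nat_lit 1045) (nat_lit 35650626935734404460) (nat_lit 2514) Tr.lf))))) (nat_lit 15) (nat_lit 21) (nat_lit 1113) (Tr.nd (Tr.nd (Tr.nd (Tr.nd (Tr.nd (Tr.nd Tr.lf (nat_lit 30)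 (nat_lit 2068) (nat_lit 140) Tr.lf) (nat_lit 2312) (nat_lit 882) (nat_lit 3073) Tr.lf) (nat_lit 1992) (nat_lit 398) (nat_lit 2500) (Tr.nd (Tr.nd Tr.lf (nat_lit 1163) (nat_lit 2585) (nat_lit 892) Tr.lf) (nat_lit 20) (nat_lit 7343284744767350624485406) (nat_lit 116) Tr.lf)) (nat_lit 353) (nat_lit 252) (nat_lit 1521) (Tr.nd (Tr.nd (Tr.nd Tr.lf (nat_lit 16) (nat_lit 2333) (nat_lit 1793) Tr.lf) (nat_lit 17) (nat_lit 1306) (nat_lit 1801) Tr.lf) (nat_lit 2702) (nat_lit 0) (nat_lit 2931) (Tr.nd (Tr.nd Tr.lf (nat_lit 2178) (nat_lit 48476930626177729019) (nat_lit 1274) Tr.lf) (nat_lit 396) (nat_lit 1821) (nat_lit 515) Tr.lf))) (nat_lit 1487) (nat_lit 153) (nat_lit 62) (Tr.nd (Tr.nd (Tr.nd (Tr.nd Tr.lf (nat_lit 1438) (nat_lit 558368838) (nat_lit 2830) Tr.lf) (nat_lit 705) (nat_lit 81226713530858) (nat_lit 2401) Tr.lf) (nat_lit 842) (nat_lit 614) (nat_lit 2302)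 (Tr.nd (Tr.nd Tr.lf (nat_lit 404) (nat_lit 2714) (nat_lit 2617) Tr.lf) (nat_lit 1620) (nat_lit 7277172676854282504372301) (nat_lit 785) Tr.lf)) (nat_lit 1106) (nat_lit 275) (nat_lit 946) (Tr.nd (Tr.nd (Tr.nd Tr.lf (nat_lit 1104) (nat_lit 2325) (nat_lit 930) Tr.lf) (nat_lit 849) (nat_lit 1390) (nat_lit 2283) Tr.lf) (nat_lit 679) (nat_lit 867) (nat_lit 52) (Tr.nd (Tr.nd Tr.lf (nat_lit 3393) (nat_lit 13666580068720037161338052) (nat_lit 1637) Tr.lf) (nat_lit 1356) (nat_lit 1828) (nat_lit 1953) Tr.lf)))) (nat_lit 399) (nat_lit 91) (nat_lit 249) (Tr.nd (Tr.nd (Tr.nd (Tr.nd (Tr.nd Tr.lf (nat_lit 269) (nat_lit 2142) (nat_lit 621) Tr.lf) (nat_lit 210) (nat_lit 1108) (nat_lit 3081) Tr.lf) (nat_lit 418) (nat_lit 601) (nat_lit 285) (Tr.nd (Tr.nd Tr.lf (nat_lit 542) (nat_lit 3275600649337386641142509471497) (nat_lit 2730) Tr.lf) (nat_lit 961) (nat_lit 1533)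 (nat_lit 981) Tr.lf)) (nat_lit 667) (nat_lit 285) (nat_lit 83) (Tr.nd (Tr.nd (Tr.nd Tr.lf (nat_lit 543) (nat_lit 628361548) (nat_lit 2756) Tr.lf) (nat_lit 410) (nat_lit 1363) (nat_lit 2665) Tr.lf) (nat_lit 133) (nat_lit 833) (nat_lit 723) (Tr.nd (Tr.nd Tr.lf (nat_lit 3213) (nat_lit 746395492212927339795888141452705905) (nat_lit 1833) Tr.lf) (nat_lit 650) (nat_lit 2332287737348865425368987730082) (nat_lit 1626) Tr.lf))) (nat_lit 73) (nat_lit 219) (nat_lit 2771) (Tr.nd (Tr.nd (Tr.nd (Tr.nd Tr.lf (nat_lit 2253) (nat_lit 2115) (nat_lit 1865) Tr.lf) (nat_lit 1611) (nat_lit 75110556369493) (nat_lit 777) Tr.lf) (nat_lit 1363) (nat_lit 582) (nat_lit 2009) (Tr.nd (Tr.nd Tr.lf (nat_lit 11) (nat_lit 50062193022133338835) (nat_lit 1754) Tr.lf) (nat_lit 1237) (nat_lit 1754) (nat_lit 993) Tr.lf)) (nat_lit 1481) (nat_lit 270) (nat_lit 1233) (Tr.nd (Tr.nd (Tr.nd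 Tr.lf (nat_lit 291) (nat_lit 45450398564130488494) (nat_lit 3034) Tr.lf) (nat_lit 2348) (nat_lit 25814681099176247718) (nat_lit 3162) Tr.lf) (nat_lit 1166) (nat_lit 981) (nat_lit 2065) (Tr.nd (Tr.nd Tr.lf (nat_lit 2717) (nat_lit 54655891649300531900) (nat_lit 2725) Tr.lf) (nat_lit 2563) (nat_lit 2332287732626498942361904087204) (nat_lit 1378) Tr.lf)))))) (nat_lit 454) (nat_lit 9) (nat_lit 1788) (Tr.nd (Tr.nd (Tr.nd (Tr.nd (Tr.nd (Tr.nd (Tr.nd Tr.lf (nat_lit 132) (nat_lit 2059) (nat_lit 1100) Tr.lf) (nat_lit 1666) (nat_lit 68788429783924) (nat_lit 2305) Tr.lf) (nat_lit 1801) (nat_lit 317) (nat_lit 1329) (Tr.nd (Tr.nd Tr.lf (nat_lit 1357) (nat_lit 3185230138659322794336422461468) (nat_lit 1933) Tr.lf) (nat_lit 321) (nat_lit 1537) (nat_lit 1075) Tr.lf)) (nat_lit 137) (nat_lit 249) (nat_lit 755) (Tr.nd (Tr.nd (Tr.nd Tr.lf (nat_lit 729) (nat_lit 2317)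 (nat_lit 742) Tr.lf) (nat_lit 1434) (nat_lit 1294) (nat_lit 366) Tr.lf) (nat_lit 2243) (nat_lit 3678736478567153017815068) (nat_lit 1830) (Tr.nd (Tr.nd Tr.lf (nat_lit 1944) (nat_lit 3349873320987770117882574536714) (nat_lit 2266) Tr.lf) (nat_lit 771) (nat_lit 1765) (nat_lit 2437) Tr.lf))) (nat_lit 1414) (nat_lit 10) (nat_lit 2846) (Tr.nd (Tr.nd (Tr.nd (Tr.nd Tr.lf (nat_lit 1297) (nat_lit 2582349358558688557076835467290) (nat_lit 2090) Tr.lf) (nat_lit 640) (nat_lit 1117) (nat_lit 1545) Tr.lf) (nat_lit 295) (nat_lit 644) (nat_lit 3065) (Tr.nd (Tr.nd Tr.lf (nat_lit 724) (nat_lit 707267114) (nat_lit 222) Tr.lf) (nat_lit 1428) (nat_lit 7267726016347490375958603) (nat_lit 2801) Tr.lf)) (nat_lit 388) (nat_lit 27212993790249) (nat_lit 2598) (Tr.nd (Tr.nd (Tr.nd Tr.lf (nat_lit 991) (nat_lit 2364) (nat_lit 1698) Tr.lf) (nat_lit 721) (nat_lit 1389) (nat_lit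 2474) Tr.lf) (nat_lit 450) (nat_lit 58892814910277) (nat_lit 1729) (Tr.nd (Tr.nd Tr.lf (nat_lit 2883) (nat_lit 53268778840645961573) (nat_lit 1475) Tr.lf) (nat_lit 1091) (nat_lit 1934) (nat_lit 2149) Tr.lf)))) (nat_lit 326) (nat_lit 19922981) (nat_lit 1500) (Tr.nd (Tr.nd (Tr.nd (Tr.nd (Tr.nd Tr.lf (nat_lit 461) (nat_lit 2065) (nat_lit 332) Tr.lf) (nat_lit 320) (nat_lit 1089) (nat_lit 1067) Tr.lf) (nat_lit 83) (nat_lit 581) (nat_lit 475) (Tr.nd (Tr.nd Tr.lf (nat_lit 322) (nat_lit 2609) (nat_lit 409) Tr.lf) (nat_lit 281) (nat_lit 1612) (nat_lit 594) Tr.lf)) (nat_lit 283) (nat_lit 333) (nat_lit 658) (Tr.nd (Tr.nd (Tr.nd Tr.lf (nat_lit 351) (nat_lit 2333) (nat_lit 1508) Tr.lf) (nat_lit 90) (nat_lit 1353) (nat_lit 556) Tr.lf) (nat_lit 2) (nat_lit 58136896471485) (nat_lit 1061) (Tr.nd (Tr.nd Tr.lf (nat_lit 2776) (nat_lit 52079824072468335340) (nat_lit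 2461) Tr.lf) (nat_lit 268) (nat_lit 1860) (nat_lit 3011) Tr.lf))) (nat_lit 2697) (nat_lit 0) (nat_lit 2865) (Tr.nd (Tr.nd (Tr.nd (Tr.nd Tr.lf (nat_lit 1165) (nat_lit 2779185234353628637410376286237) (nat_lit 2058) Tr.lf) (nat_lit 1216) (nat_lit 1206) (nat_lit 2318) Tr.lf) (nat_lit 1186) (nat_lit 697) (nat_lit 188) (Tr.nd (Tr.nd Tr.lf (nat_lit 1108) (nat_lit 2598) (nat_lit 2139) Tr.lf) (nat_lit 2432) (nat_lit 108439470080490) (nat_lit 2134) Tr.lf)) (nat_lit 1353) (nat_lit 268) (nat_lit 2006) (Tr.nd (Tr.nd (Tr.nd Tr.lf (nat_lit 1799) (nat_lit 2397) (nat_lit 1313) Tr.lf) (nat_lit 1800) (nat_lit 1297) (nat_lit 1321) Tr.lf) (nat_lit 1102) (nat_lit 867) (nat_lit 914) (Tr.nd (Tr.nd Tr.lf (nat_lit 3970) (nat_lit 14223819637938518242361841) (nat_lit 2812) Tr.lf) (nat_lit 2254) (nat_lit 32371948957269754675) (nat_lit 1874) Tr.lf))))) (nat_lit 198) (nat_lit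 46) (nat_lit 3129) (Tr.nd (Tr.nd (Tr.nd (Tr.nd (Tr.nd (Tr.nd Tr.lf (nat_lit 196) (nat_lit 2067) (nat_lit 3113) Tr.lf) (nat_lit 2700) (nat_lit 803) (nat_lit 2892) Tr.lf) (nat_lit 2377) (nat_lit 220) (nat_lit 1425) (Tr.nd (Tr.nd Tr.lf (nat_lit 130) (nat_lit 2605) (nat_lit 1084) Tr.lf) (nat_lit 156) (nat_lit 1581) (nat_lit 1553) Tr.lf)) (nat_lit 393) (nat_lit 300) (nat_lit 278) (Tr.nd (Tr.nd (Tr.nd Tr.lf (nat_lit 163) (nat_lit 160254049911621) (nat_lit 1602) Tr.lf) (nat_lit 136) (nat_lit 1305) (nat_lit 747) Tr.lf) (nat_lit 66) (nat_lit 55869031579886) (nat_lit 433) (Tr.nd (Tr.nd Tr.lf (nat_lit 2251) (nat_lit 2643) (nat_lit 1849) Tr.lf) (nat_lit 725) (nat_lit 1812) (nat_lit 710) Tr.lf))) (nat_lit 1798) (nat_lit 10) (nat_lit 1305) (Tr.nd (Tr.nd (Tr.nd (Tr.nd Tr.lf (nat_lit 1737) (nat_lit 38965169471027937526) (nat_lit 1714) Tr.lf) (nat_lit 768) (nat_lit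 1114) (nat_lit 974) Tr.lf) (nat_lit 1027) (nat_lit 2875931041970742845243492) (nat_lit 2586) (Tr.nd (Tr.nd Tr.lf (nat_lit 852) (nat_lit 3349878043377023187381257502821) (nat_lit 2234) Tr.lf) (nat_lit 2048) (nat_lit 29345541827520364941) (nat_lit 1162) Tr.lf)) (nat_lit 1170) (nat_lit 421) (nat_lit 2097) (Tr.nd (Tr.nd (Tr.nd Tr.lf (nat_lit 1168) (nat_lit 2469) (nat_lit 2081) Tr.lf) (nat_lit 973) (nat_lit 6767173111572324418846761) (nat_lit 1708) Tr.lf) (nat_lit 742) (nat_lit 869) (nat_lit 241) (Tr.nd (Tr.nd Tr.lf (nat_lit 3725) (nat_lit 920337751412408542056917451701224582) (nat_lit 2926) Tr.lf) (nat_lit 1795) (nat_lit 1801) (nat_lit 1281) Tr.lf)))) (nat_lit 1030) (nat_lit 97) (nat_lit 2558) (Tr.nd (Tr.nd (Tr.nd (Tr.nd (Tr.nd Tr.lf (nat_lit 653) (nat_lit 2093) (nat_lit 44) Tr.lf) (nat_lit 384) (nat_lit 1084) (nat_lit 2606) Tr.lf) (nat_lit 714) (nat_lit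 613) (nat_lit 2492) (Tr.nd (Tr.nd Tr.lf (nat_lit 258) (nat_lit 2668) (nat_lit 3006) Tr.lf) (nat_lit 982) (nat_lit 112287877956475) (nat_lit 1649) Tr.lf)) (nat_lit 903) (nat_lit 322) (nat_lit 483) (Tr.nd (Tr.nd (Tr.nd Tr.lf (nat_lit 409) (nat_lit 2409) (nat_lit 2657) Tr.lf) (nat_lit 613) (nat_lit 1332) (nat_lit 845) Tr.lf) (nat_lit 200) (nat_lit 852) (nat_lit 965) (Tr.nd (Tr.nd Tr.lf (nat_lit 3270) (nat_lit 919363493837008418104237485517176987) (nat_lit 1818) Tr.lf) (nat_lit 925) (nat_lit 478938890) (nat_lit 2916) Tr.lf))) (nat_lit 91) (nat_lit 221) (nat_lit 562) (Tr.nd (Tr.nd (Tr.nd (Tr.nd Tr.lf (nat_lit 2449) (nat_lit 2582352659493004214639865102362) (nat_lit 2186) Tr.lf) (nat_lit 1792) (nat_lit 1145) (nat_lit 1257) Tr.lf) (nat_lit 1482) (nat_lit 725) (nat_lit 1241) (Tr.nd (Tr.nd Tr.lf (nat_lit 1355) (nat_lit 2714) (nat_lit 1945) Tr.lf) (nat_lit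 213) (nat_lit 1764) (nat_lit 1090) Tr.lf)) (nat_lit 583) (nat_lit 490) (nat_lit 2982) (Tr.nd (Tr.nd (Tr.nd Tr.lf (nat_lit 2375) (nat_lit 2379) (nat_lit 1409) Tr.lf) (nat_lit 2709) (nat_lit 1451) (nat_lit 2900) Tr.lf) (nat_lit 1358) (nat_lit 812) (nat_lit 1969) (Tr.nd (Tr.nd Tr.lf (nat_lit 4687) (nat_lit 65542137014259364291479501500548431672996266003) (nat_lit 3145) Tr.lf) (nat_lit 2756) (nat_lit 0) (nat_lit 2249) Tr.lf))))))))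

theorem chkD1_p0 : chkFrom origD1 zD1 396 tD1 0 128 = true := by decide +kernel

theorem chkD1_p1 : chkFrom origD1 zD1 396 tD1 128 128 = true := by decide +kernel

theorem chkD1_p2 : chkFrom origD1 zD1 396 tD1 256 128 = true := by decide +kernel

theorem chkD1 : chkFrom origD1 zD1 396 tD1 0 384 = true := by
  have h0 : chkFrom origD1 zD1 396 tD1 0 256 = true := chkFrom_add chkD1_p0 chkD1_p1 rfl rfl
  have h1 : chkFrom origD1 zD1 396 tD1 0 384 = true := chkFrom_add h0 chkD1_p2 rfl rfl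
  exact h1

theorem finD1 : fin tD1 396 384 zD1 = true := by decide +kernel

end Pool.Agent.H68.Gal
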