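import Pool.Agent.H68.Gal.CertD2
import Pool.Agent.H68.Gal.Split

namespace Pool.Agent.H68.Gal

theorem chkD2_1_p0 : chkFrom origD2 zD2 4752 tD2 450 36 = true := by decide +kernel

theorem chkD2_1_p1 : chkFrom origD2 zD2 4752 tD2 486 36 = true := by decide +kernel

theorem chkD2_1_p2 : chkFrom origD2 zD2 4752 tD2 522 36 = true := by decide +kernel

theorem chkD2_1_p3 : chkFrom origD2 zD2 4752 tD2 558 36 = true := by decide +kernel

theorem chkD2_1_p4 : chkFrom origD2 zD2 4752 tD2 594 36 = true := by decide +kernel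

theorem chkD2_1_p5 : chkFrom origD2 zD2 4752 tD2 630 35 = true := by decide +kernel

theorem chkD2_1_p6 : chkFrom origD2 zD2 4752 tD2 665 35 = true := by decide +kernel

theorem chkD2_1 : chkFrom origD2 zD2 4752 tD2 450 250 = true := by
  have h0 : chkFrom origD2 zD2 4752 tD2 450 72 = true := chkFrom_add chkD2_1_p0 chkD2_1_p1 rfl rfl
  have h1 : chkFrom origD2 zD2 4752 tD2 450 108 = true := chkFrom_add h0 chkD2_1_p2 rfl rfl
  have h2 : chkFrom origD2 zD2 4752 tD2 450 144 = true := chkFrom_add h1 chkD2_1_p3 rfl rfl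
  have h3 : chkFrom origD2 zD2 4752 tD2 450 180 = true := chkFrom_add h2 chkD2_1_p4 rfl rfl
  have h4 : chkFrom origD2 zD2 4752 tD2 450 215 = true := chkFrom_add h3 chkD2_1_p5 rfl rfl
  have h5 : chkFrom origD2 zD2 4752 tD2 450 250 = true := chkFrom_add h4 chkD2_1_p6 rfl rfl
  exact h5

end Pool.Agent.H68.Gal
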