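import Pool.Agent.H68.Gal.CertD2
import Pool.Agent.H68.Gal.Split

namespace Pool.Agent.H68.Gal

theorem chkD2_3_p0 : chkFrom origD2 zD2 4752 tD2 850 26 = true := by decide +kernel

theorem chkD2_3_p1 : chkFrom origD2 zD2 4752 tD2 876 26 = true := by decide +kernel

theorem chkD2_3_p2 : chkFrom origD2 zD2 4752 tD2 902 26 = true := by decide +kernel

theorem chkD2_3_p3 : chkFrom origD2 zD2 4752 tD2 928 26 = true := by decide +kernel

theorem chkD2_3_p4 : chkFrom origD2 zD2 4752 tD2 954 26 = true := by decide +kernel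

theorem chkD2_3 : chkFrom origD2 zD2 4752 tD2 850 130 = true := by
  have h0 : chkFrom origD2 zD2 4752 tD2 850 52 = true := chkFrom_add chkD2_3_p0 chkD2_3_p1 rfl rfl
  have h1 : chkFrom origD2 zD2 4752 tD2 850 78 = true := chkFrom_add h0 chkD2_3_p2 rfl rfl
  have h2 : chkFrom origD2 zD2 4752 tD2 850 104 = true := chkFrom_add h1 chkD2_3_p3 rfl rfl
  have h3 : chkFrom origD2 zD2 4752 tD2 850 130 = true := chkFrom_add h2 chkD2_3_p4 rfl rfl
  exact h3

end Pool.Agent.H68.Gal
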