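import Pool.Agent.H68.Gal.CertD2
import Pool.Agent.H68.Gal.Split

namespace Pool.Agent.H68.Gal

theorem chkD2_4_p0 : chkFrom origD2 zD2 4752 tD2 980 20 = true := by decide +kernel

theorem chkD2_4_p1 : chkFrom origD2 zD2 4752 tD2 1000 20 = true := by decide +kernel

theorem chkD2_4_p2 : chkFrom origD2 zD2 4752 tD2 1020 20 = true := by decide +kernel

theorem chkD2_4_p3 : chkFrom origD2 zD2 4752 tD2 1040 20 = true := by decide +kernel

theorem chkD2_4_p4 : chkFrom origD2 zD2 4752 tD2 1060 20 = true := by decide +kernel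

theorem chkD2_4 : chkFrom origD2 zD2 4752 tD2 980 100 = true := by
  have h0 : chkFrom origD2 zD2 4752 tD2 980 40 = true := chkFrom_add chkD2_4_p0 chkD2_4_p1 rfl rfl
  have h1 : chkFrom origD2 zD2 4752 tD2 980 60 = true := chkFrom_add h0 chkD2_4_p2 rfl rfl
  have h2 : chkFrom origD2 zD2 4752 tD2 980 80 = true := chkFrom_add h1 chkD2_4_p3 rfl rfl
  have h3 : chkFrom origD2 zD2 4752 tD2 980 100 = true := chkFrom_add h2 chkD2_4_p4 rfl rfl
  exact h3

end Pool.Agent.H68.Gal
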