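import Pool.Agent.H68.Gal.CertD2
import Pool.Agent.H68.Gal.Split

namespace Pool.Agent.H68.Gal

theorem chkD2_6_p0 : chkFrom origD2 zD2 4752 tD2 1170 12 = true := by decide +kernel

theorem chkD2_6_p1 : chkFrom origD2 zD2 4752 tD2 1182 12 = true := by decide +kernel

theorem chkD2_6_p2 : chkFrom origD2 zD2 4752 tD2 1194 11 = true := by decide +kernel

theorem chkD2_6_p3 : chkFrom origD2 zD2 4752 tD2 1205 11 = true := by decide +kernel

theorem chkD2_6_p4 : chkFrom origD2 zD2 4752 tD2 1216 11 = true := by decide +kernel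

theorem chkD2_6_p5 : chkFrom origD2 zD2 4752 tD2 1227 11 = true := by decide +kernel

theorem chkD2_6_p6 : chkFrom origD2 zD2 4752 tD2 1238 11 = true := by decide +kernel

theorem chkD2_6_p7 : chkFrom origD2 zD2 4752 tD2 1249 11 = true := by decide +kernel

theorem chkD2_6 : chkFrom origD2 zD2 4752 tD2 1170 90 = true := by
  have h0 : chkFrom origD2 zD2 4752 tD2 1170 24 = true := chkFrom_add chkD2_6_p0 chkD2_6_p1 rfl rfl
  have h1 : chkFrom origD2 zD2 4752 tD2 1170 35 = true := chkFrom_add h0 chkD2_6_p2 rfl rfl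
  have h2 : chkFrom origD2 zD2 4752 tD2 1170 46 = true := chkFrom_add h1 chkD2_6_p3 rfl rfl
  have h3 : chkFrom origD2 zD2 4752 tD2 1170 57 = true := chkFrom_add h2 chkD2_6_p4 rfl rfl
  have h4 : chkFrom origD2 zD2 4752 tD2 1170 68 = true := chkFrom_add h3 chkD2_6_p5 rfl rfl
  have h5 : chkFrom origD2 zD2 4752 tD2 1170 79 = true := chkFrom_add h4 chkD2_6_p6 rfl rfl
  have h6 : chkFrom origD2 zD2 4752 tD2 1170 90 = true := chkFrom_add h5 chkD2_6_p7 rfl rfl
  exact h6

end Pool.Agent.H68.Gal
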