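import Pool.Agent.H68.Gal.CertD2
import Pool.Agent.H68.Gal.Split

namespace Pool.Agent.H68.Gal

theorem chkD2_7_p0 : chkFrom origD2 zD2 4752 tD2 1260 10 = true := by decide +kernel

theorem chkD2_7_p1 : chkFrom origD2 zD2 4752 tD2 1270 9 = true := by decide +kernel

theorem chkD2_7_p2 : chkFrom origD2 zD2 4752 tD2 1279 9 = true := by decide +kernel

theorem chkD2_7_p3 : chkFrom origD2 zD2 4752 tD2 1288 9 = true := by decide +kernel

theorem chkD2_7_p4 : chkFrom origD2 zD2 4752 tD2 1297 9 = true := by decide +kernel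

theorem chkD2_7_p5 : chkFrom origD2 zD2 4752 tD2 1306 9 = true := by decide +kernel

theorem chkD2_7_p6 : chkFrom origD2 zD2 4752 tD2 1315 9 = true := by decide +kernel

theorem chkD2_7_p7 : chkFrom origD2 zD2 4752 tD2 1324 9 = true := by decide +kernel

theorem chkD2_7_p8 : chkFrom origD2 zD2 4752 tD2 1333 9 = true := by decide +kernel

theorem chkD2_7 : chkFrom origD2 zD2 4752 tD2 1260 82 = true := by
  have h0 : chkFrom origD2 zD2 4752 tD2 1260 19 = true := chkFrom_add chkD2_7_p0 chkD2_7_p1 rfl rfl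
  have h1 : chkFrom origD2 zD2 4752 tD2 1260 28 = true := chkFrom_add h0 chkD2_7_p2 rfl rfl
  have h2 : chkFrom origD2 zD2 4752 tD2 1260 37 = true := chkFrom_add h1 chkD2_7_p3 rfl rfl
  have h3 : chkFrom origD2 zD2 4752 tD2 1260 46 = true := chkFrom_add h2 chkD2_7_p4 rfl rfl
  have h4 : chkFrom origD2 zD2 4752 tD2 1260 55 = true := chkFrom_add h3 chkD2_7_p5 rfl rfl
  have h5 : chkFrom origD2 zD2 4752 tD2 1260 64 = true := chkFrom_add h4 chkD2_7_p6 rfl rfl
  have h6 : chkFrom origD2 zD2 4752 tD2 1260 73 = true := chkFrom_add h5 chkD2_7_p7 rfl rfl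
  have h7 : chkFrom origD2 zD2 4752 tD2 1260 82 = true := chkFrom_add h6 chkD2_7_p8 rfl rfl
  exact h7

end Pool.Agent.H68.Gal
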