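import Pool.Agent.H68.Gal.Sys2

/-!
# Certificate S2
-/

namespace Pool.Agent.H68.Gal

/-- mask of the unknowns that vanish -/
def zS2 : ℕ := nat_lit 0xfff7ffffffff0fffff83f41f33ffffffbfff

/-- the certificate -/
def tS2 : Tr :=
  (Tr.nd (Tr.nd (Tr.nd (Tr.nd (Tr.nd Tr.lf (nat_lit 27) (nat_lit 0) (nat_lit 529) Tr.lf) (nat_lit 19) (nat_lit 0) (nat_lit 433) Tr.lf) (nat_lit 15) (nat_lit 0) (nat_lit 473) (Tr.nd (Tr.nd Tr.lf (nat_lit 31) (nat_lit 0) (nat_lit 737) Tr.lf) (nat_lit 23) (nat_lit 0) (nat_lit 345) Tr.lf)) (nat_lit 13) (nat_lit 0) (nat_lit 337) (Tr.nd (Tr.nd (Tr.nd Tr.lf (nat_lit 29) (nat_lit 0) (nat_lit 449) Tr.lf) (nat_lit 21) (nat_lit 0) (nat_lit 553) Tr.lf) (nat_lit 17) (nat_lit 0) (nat_lit 561) (Tr.nd Tr.lf (nat_lit 25) (nat_lit 0) (nat_lit 753) Tr.lf))) (nat_lit 12) (nat_lit 0) (nat_lit 113) (Tr.nd (Tr.nd (Tr.nd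 (Tr.nd Tr.lf (nat_lit 28) (nat_lit 0) (nat_lit 425) Tr.lf) (nat_lit 20) (nat_lit 0) (nat_lit 537) Tr.lf) (nat_lit 16) (nat_lit 0) (nat_lit 761) (Tr.nd (Tr.nd Tr.lf (nat_lit 32) (nat_lit 0) (nat_lit 1049) Tr.lf) (nat_lit 24) (nat_lit 0) (nat_lit 369) Tr.lf)) (nat_lit 14) (nat_lit 0) (nat_lit 441) (Tr.nd (Tr.nd (Tr.nd Tr.lf (nat_lit 30) (nat_lit 0) (nat_lit 545) Tr.lf) (nat_lit 22) (nat_lit 0) (nat_lit 745) Tr.lf) (nat_lit 18) (nat_lit 0) (nat_lit 377) (Tr.nd Tr.lf (nat_lit 26) (nat_lit 0) (nat_lit 457) Tr.lf))))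

theorem chkS2 : chkFrom origS2 zS2 144 tS2 0 21 = true := by decide +kernel

theorem finS2 : fin tS2 144 21 zS2 = true := by decide +kernel

end Pool.Agent.H68.Gal
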