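import Pool.Agent.H68.Gal.Sys2

/-!
# Certificate S3
-/

namespace Pool.Agent.H68.Gal

/-- mask of the unknowns that vanish -/
def zS3 : ℕ := nat_lit 0xfffffffffffffffffffffffffffffffffffffffffffffffffffffffffffffffffffffffffff7fffffffffffffffffffffffffffffffffff7fffffffffffffffffffffffffffffffffff7ff3ff1fffffffffffffffffffffffffffff7fffff1ff0ffffffffffffffffffffffffff7ff3ff1ff0ff07ffffffffffffffffffffff7ff3ff1ff0ff07f03fffffffffffffffffff7ff3ff1ff0ff07f03f01ffffffffffffffff7ff3ff9ff0ff87f83f01f10fffffffffffff7ff3ff7ff0ff67f03f41f30f007fffffffff7ffffffff0fffff83f41f33ffffffbfff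

/-- the certificate -/
def tS3 : Tr :=
  (Tr.nd (Tr.nd (Tr.nd (Tr.nd (Tr.nd (Tr.nd (Tr.nd (Tr.nd Tr.lf (nat_lit 538) (nat_lit 265814474) (nat_lit 3147) Tr.lf) (nat_lit 158) (nat_lit 492) (nat_lit 2849) Tr.lf) (nat_lit 141) (nat_lit 0) (nat_lit 2641) (Tr.nd (Tr.nd Tr.lf (nat_lit 338) (nat_lit 332399124) (nat_lit 4025) Tr.lf) (nat_lit 525) (nat_lit 0) (nat_lit 4097) Tr.lf)) (nat_lit 27) (nat_lit 0) (nat_lit 529) (Tr.nd (Tr.nd (Tr.nd Tr.lf (nat_lit 601) (nat_lit 298582934) (nat_lit 3254) Tr.lf) (nat_lit 401) (nat_lit 121) (nat_lit 6417) Tr.lf) (nat_lit 220) (nat_lit 0) (nat_lit 3881) (Tr.nd Tr.lf (nat_lit 588) (nat_lit 0) (nat_lit 1417) Tr.lf))) (nat_lit 19) (nat_lit 0) (nat_lit 433) (Tr.nd (Tr.nd (Tr.nd (Tr.nd Tr.lf (nat_lit 409) (nat_lit 281805525) (nat_lit 7665) Tr.lf) (nat_lit 342) (nat_lit 61341925) (nat_lit 6505) Tr.lf)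 (nat_lit 154) (nat_lit 0) (nat_lit 2761) (Tr.nd (Tr.nd Tr.lf (nat_lit 733) (nat_lit 213385565) (nat_lit 4315) Tr.lf) (nat_lit 529) (nat_lit 145) (nat_lit 6609) Tr.lf)) (nat_lit 79) (nat_lit 0) (nat_lit 1625) (Tr.nd (Tr.nd (Tr.nd Tr.lf (nat_lit 671) (nat_lit 314049594) (nat_lit 7765) Tr.lf) (nat_lit 214) (nat_lit 677) (nat_lit 4201) Tr.lf) (nat_lit 273) (nat_lit 129) (nat_lit 5169) (Tr.nd Tr.lf (nat_lit 592) (nat_lit 83) (nat_lit 9017) Tr.lf)))) (nat_lit 15) (nat_lit 0) (nat_lit 473) (Tr.nd (Tr.nd (Tr.nd (Tr.nd (Tr.nd Tr.lf (nat_lit 88) (nat_lit 273154378) (nat_lit 1521) Tr.lf) (nat_lit 94) (nat_lit 529) (nat_lit 1697) Tr.lf) (nat_lit 145) (nat_lit 0) (nat_lit 2865) (Tr.nd (Tr.nd Tr.lf (nat_lit 224) (nat_lit 340526213) (nat_lit 4505) Tr.lf) (nat_lit 414) (nat_lit 199754209) (nat_lit 6401) Tr.lf)) (nat_lit 31) (nat_lit 0)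 (nat_lit 737) (Tr.nd (Tr.nd (Tr.nd Tr.lf (nat_lit 670) (nat_lit 217579881) (nat_lit 4309) Tr.lf) (nat_lit 460) (nat_lit 0) (nat_lit 1401) Tr.lf) (nat_lit 269) (nat_lit 62) (nat_lit 3889) (Tr.nd Tr.lf (nat_lit 277) (nat_lit 235405836) (nat_lit 5161) Tr.lf))) (nat_lit 23) (nat_lit 0) (nat_lit 345) (Tr.nd (Tr.nd (Tr.nd (Tr.nd Tr.lf (nat_lit 655) (nat_lit 162) (nat_lit 5657) Tr.lf) (nat_lit 283) (nat_lit 156762613) (nat_lit 5137) Tr.lf) (nat_lit 207) (nat_lit 50) (nat_lit 3929) (Tr.nd Tr.lf (nat_lit 534) (nat_lit 845) (nat_lit 8905) Tr.lf)) (nat_lit 83) (nat_lit 0) (nat_lit 1585) (Tr.nd (Tr.nd (Tr.nd Tr.lf (nat_lit 402) (nat_lit 324534444) (nat_lit 1819) Tr.lf) (nat_lit 467) (nat_lit 160956595) (nat_lit 1785) Tr.lf) (nat_lit 332) (nat_lit 0) (nat_lit 1385) (Tr.nd Tr.lf (nat_lit 599) (nat_lit 239862462) (nat_lit 2668) Tr.lf)))))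 (nat_lit 13) (nat_lit 0) (nat_lit 337) (Tr.nd (Tr.nd (Tr.nd (Tr.nd (Tr.nd (Tr.nd Tr.lf (nat_lit 608) (nat_lit 0) (nat_lit 11417) Tr.lf) (nat_lit 276) (nat_lit 135790771) (nat_lit 1577) Tr.lf) (nat_lit 143) (nat_lit 0) (nat_lit 2777) (Tr.nd (Tr.nd Tr.lf (nat_lit 96) (nat_lit 336069777) (nat_lit 2201) Tr.lf) (nat_lit 413) (nat_lit 200278429) (nat_lit 5249) Tr.lf)) (nat_lit 29) (nat_lit 0) (nat_lit 449) (Tr.nd (Tr.nd (Tr.nd Tr.lf (nat_lit 659) (nat_lit 0) (nat_lit 5265) Tr.lf) (nat_lit 415) (nat_lit 0) (nat_lit 7649) Tr.lf) (nat_lit 222) (nat_lit 0) (nat_lit 4001) (Tr.nd Tr.lf (nat_lit 149) (nat_lit 233308636) (nat_lit 2857) Tr.lf))) (nat_lit 21) (nat_lit 0) (nat_lit 553) (Tr.nd (Tr.nd (Tr.nd (Tr.nd Tr.lf (nat_lit 281) (nat_lit 286785798) (nat_lit 2774) Tr.lf) (nat_lit 91) (nat_lit 152568285) (nat_lit 1681) Tr.lf) (nat_lit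 204) (nat_lit 0) (nat_lit 1369) (Tr.nd (Tr.nd Tr.lf (nat_lit 734) (nat_lit 351012089) (nat_lit 6617) Tr.lf) (nat_lit 95) (nat_lit 218628826) (nat_lit 1889) Tr.lf)) (nat_lit 81) (nat_lit 0) (nat_lit 1713) (Tr.nd (Tr.nd (Tr.nd Tr.lf (nat_lit 146) (nat_lit 319816012) (nat_lit 2681) Tr.lf) (nat_lit 461) (nat_lit 94) (nat_lit 4089) Tr.lf) (nat_lit 157) (nat_lit 451) (nat_lit 2753) (Tr.nd Tr.lf (nat_lit 595) (nat_lit 899) (nat_lit 5257) Tr.lf)))) (nat_lit 17) (nat_lit 0) (nat_lit 561) (Tr.nd (Tr.nd (Tr.nd (Tr.nd (Tr.nd Tr.lf (nat_lit 653) (nat_lit 102) (nat_lit 4113) Tr.lf) (nat_lit 335) (nat_lit 129) (nat_lit 5177) Tr.lf) (nat_lit 152) (nat_lit 0) (nat_lit 2673) (Tr.nd (Tr.nd Tr.lf (nat_lit 160) (nat_lit 344982650) (nat_lit 3260) Tr.lf) (nat_lit 527) (nat_lit 137) (nat_lit 5465) Tr.lf)) (nat_lit 77) (nat_lit 0) (nat_lit 1489)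 (Tr.nd (Tr.nd (Tr.nd Tr.lf (nat_lit 537) (nat_lit 311165797) (nat_lit 8913) Tr.lf) (nat_lit 148) (nat_lit 174850526) (nat_lit 2841) Tr.lf) (nat_lit 93) (nat_lit 419) (nat_lit 1601) (Tr.nd Tr.lf (nat_lit 589) (nat_lit 0) (nat_lit 4105) Tr.lf))) (nat_lit 25) (nat_lit 0) (nat_lit 753) (Tr.nd (Tr.nd (Tr.nd (Tr.nd Tr.lf (nat_lit 656) (nat_lit 42991723) (nat_lit 9113) Tr.lf) (nat_lit 399) (nat_lit 57) (nat_lit 5273) Tr.lf) (nat_lit 209) (nat_lit 100) (nat_lit 4017) (Tr.nd Tr.lf (nat_lit 159) (nat_lit 227803860) (nat_lit 2949) Tr.lf)) (nat_lit 85) (nat_lit 0) (nat_lit 1705) (Tr.nd (Tr.nd (Tr.nd Tr.lf (nat_lit 352) (nat_lit 328729541) (nat_lit 6716) Tr.lf) (nat_lit 406) (nat_lit 733) (nat_lit 7657) Tr.lf) (nat_lit 219) (nat_lit 127402238) (nat_lit 2634) (Tr.nd Tr.lf (nat_lit 606) (nat_lit 223871521) (nat_lit 4301) Tr.lf)))))) (nat_lit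 12) (nat_lit 0) (nat_lit 113) (Tr.nd (Tr.nd (Tr.nd (Tr.nd (Tr.nd (Tr.nd (Tr.nd Tr.lf (nat_lit 607) (nat_lit 225968874) (nat_lit 7757) Tr.lf) (nat_lit 334) (nat_lit 34865219) (nat_lit 5145) Tr.lf) (nat_lit 142) (nat_lit 0) (nat_lit 2745) (Tr.nd (Tr.nd Tr.lf (nat_lit 725) (nat_lit 332399853) (nat_lit 2109) Tr.lf) (nat_lit 223) (nat_lit 199754442) (nat_lit 4193) Tr.lf)) (nat_lit 28) (nat_lit 0) (nat_lit 425) (Tr.nd (Tr.nd (Tr.nd Tr.lf (nat_lit 600) (nat_lit 301204444) (nat_lit 4401) Tr.lf) (nat_lit 405) (nat_lit 588) (nat_lit 6409) Tr.lf) (nat_lit 221) (nat_lit 0) (nat_lit 3905) (Tr.nd Tr.lf (nat_lit 90) (nat_lit 233832850) (nat_lit 1609) Tr.lf))) (nat_lit 20) (nat_lit 0) (nat_lit 537) (Tr.nd (Tr.nd (Tr.nd (Tr.nd Tr.lf (nat_lit 654) (nat_lit 107) (nat_lit 5361) Tr.lf) (nat_lit 396) (nat_lit 0) (nat_lit 1393) Tr.lf) (nat_lit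 155) (nat_lit 0) (nat_lit 2833) (Tr.nd (Tr.nd Tr.lf (nat_lit 530) (nat_lit 1338) (nat_lit 2011) Tr.lf) (nat_lit 531) (nat_lit 204997035) (nat_lit 1793) Tr.lf)) (nat_lit 80) (nat_lit 0) (nat_lit 1913) (Tr.nd (Tr.nd (Tr.nd Tr.lf (nat_lit 716) (nat_lit 0) (nat_lit 1433) Tr.lf) (nat_lit 345) (nat_lit 179831065) (nat_lit 6513) Tr.lf) (nat_lit 279) (nat_lit 89653507) (nat_lit 2628) (Tr.nd Tr.lf (nat_lit 593) (nat_lit 73) (nat_lit 6705) Tr.lf)))) (nat_lit 16) (nat_lit 0) (nat_lit 761) (Tr.nd (Tr.nd (Tr.nd (Tr.nd (Tr.nd Tr.lf (nat_lit 89) (nat_lit 272892574) (nat_lit 1905) Tr.lf) (nat_lit 213) (nat_lit 532) (nat_lit 4009) Tr.lf) (nat_lit 151) (nat_lit 0) (nat_lit 2649) (Tr.nd (Tr.nd Tr.lf (nat_lit 728) (nat_lit 343409866) (nat_lit 3357) Tr.lf) (nat_lit 351) (nat_lit 208143074) (nat_lit 6497) Tr.lf)) (nat_lit 32) (nat_lit 0) (nat_lit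 1049) (Tr.nd (Tr.nd (Tr.nd Tr.lf (nat_lit 536) (nat_lit 1180) (nat_lit 3157) Tr.lf) (nat_lit 87) (nat_lit 174850379) (nat_lit 1497) Tr.lf) (nat_lit 211) (nat_lit 108527790) (nat_lit 1476) (Tr.nd Tr.lf (nat_lit 278) (nat_lit 235405493) (nat_lit 5353) Tr.lf))) (nat_lit 24) (nat_lit 0) (nat_lit 369) (Tr.nd (Tr.nd (Tr.nd (Tr.nd Tr.lf (nat_lit 288) (nat_lit 293077939) (nat_lit 5554) Tr.lf) (nat_lit 398) (nat_lit 61) (nat_lit 5241) Tr.lf) (nat_lit 208) (nat_lit 23855156) (nat_lit 4217) (Tr.nd Tr.lf (nat_lit 535) (nat_lit 774) (nat_lit 3044) Tr.lf)) (nat_lit 84) (nat_lit 0) (nat_lit 1689) (Tr.nd (Tr.nd (Tr.nd Tr.lf (nat_lit 721) (nat_lit 164) (nat_lit 6809) Tr.lf) (nat_lit 404) (nat_lit 191627854) (nat_lit 6393) Tr.lf) (nat_lit 333) (nat_lit 126) (nat_lit 3985) (Tr.nd Tr.lf (nat_lit 218) (nat_lit 258212292) (nat_lit 3913) Tr.lf)))))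 (nat_lit 14) (nat_lit 0) (nat_lit 441) (Tr.nd (Tr.nd (Tr.nd (Tr.nd (Tr.nd (Tr.nd Tr.lf (nat_lit 652) (nat_lit 0) (nat_lit 1425) Tr.lf) (nat_lit 92) (nat_lit 137888165) (nat_lit 1481) Tr.lf) (nat_lit 144) (nat_lit 0) (nat_lit 3065) (Tr.nd (Tr.nd Tr.lf (nat_lit 594) (nat_lit 1285) (nat_lit 4409) Tr.lf) (nat_lit 287) (nat_lit 203948642) (nat_lit 5345) Tr.lf)) (nat_lit 30) (nat_lit 0) (nat_lit 545) (Tr.nd (Tr.nd (Tr.nd Tr.lf (nat_lit 661) (nat_lit 253231308) (nat_lit 2101) Tr.lf) (nat_lit 416) (nat_lit 0) (nat_lit 7961) Tr.lf) (nat_lit 268) (nat_lit 0) (nat_lit 1377) (Tr.nd Tr.lf (nat_lit 150) (nat_lit 233308829) (nat_lit 3049) Tr.lf))) (nat_lit 22) (nat_lit 0) (nat_lit 745) (Tr.nd (Tr.nd (Tr.nd (Tr.nd Tr.lf (nat_lit 280) (nat_lit 288620996) (nat_lit 3921) Tr.lf) (nat_lit 147) (nat_lit 152568211) (nat_lit 2737) Tr.lf) (nat_lit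 206) (nat_lit 91) (nat_lit 3897) (Tr.nd (Tr.nd Tr.lf (nat_lit 735) (nat_lit 215482994) (nat_lit 7773) Tr.lf) (nat_lit 533) (nat_lit 540) (nat_lit 6601) Tr.lf)) (nat_lit 82) (nat_lit 0) (nat_lit 1529) (Tr.nd (Tr.nd (Tr.nd Tr.lf (nat_lit 717) (nat_lit 54) (nat_lit 4121) Tr.lf) (nat_lit 407) (nat_lit 188219643) (nat_lit 2940) Tr.lf) (nat_lit 286) (nat_lit 101187961) (nat_lit 5153) (Tr.nd Tr.lf (nat_lit 410) (nat_lit 255328850) (nat_lit 2955) Tr.lf)))) (nat_lit 18) (nat_lit 0) (nat_lit 377) (Tr.nd (Tr.nd (Tr.nd (Tr.nd (Tr.nd Tr.lf (nat_lit 408) (nat_lit 280494330) (nat_lit 2965) Tr.lf) (nat_lit 336) (nat_lit 67) (nat_lit 6521) Tr.lf) (nat_lit 153) (nat_lit 0) (nat_lit 3057) (Tr.nd (Tr.nd Tr.lf (nat_lit 731) (nat_lit 0) (nat_lit 6425) Tr.lf) (nat_lit 528) (nat_lit 155) (nat_lit 8921) Tr.lf)) (nat_lit 78) (nat_lit 0) (nat_lit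 1593) (Tr.nd (Tr.nd (Tr.nd Tr.lf (nat_lit 669) (nat_lit 309593173) (nat_lit 5457) Tr.lf) (nat_lit 212) (nat_lit 176947734) (nat_lit 3993) Tr.lf) (nat_lit 272) (nat_lit 7340051) (nat_lit 5369) (Tr.nd Tr.lf (nat_lit 591) (nat_lit 113) (nat_lit 5561) Tr.lf))) (nat_lit 26) (nat_lit 0) (nat_lit 457) (Tr.nd (Tr.nd (Tr.nd (Tr.nd Tr.lf (nat_lit 480) (nat_lit 297272251) (nat_lit 9010) Tr.lf) (nat_lit 400) (nat_lit 0) (nat_lit 7673) Tr.lf) (nat_lit 217) (nat_lit 77857062) (nat_lit 4209) (Tr.nd Tr.lf (nat_lit 544) (nat_lit 0) (nat_lit 10265) Tr.lf)) (nat_lit 86) (nat_lit 0) (nat_lit 1897) (Tr.nd (Tr.nd (Tr.nd Tr.lf (nat_lit 724) (nat_lit 148373699) (nat_lit 1721) Tr.lf) (nat_lit 524) (nat_lit 0) (nat_lit 1409) Tr.lf) (nat_lit 156) (nat_lit 128713157) (nat_lit 2729) (Tr.nd Tr.lf (nat_lit 605) (nat_lit 263455717) (nat_lit 5449) Tr.lf)))))))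

theorem chkS3 : chkFrom origS3 zS3 1728 tS3 0 171 = true := by decide +kernel

theorem finS3 : fin tS3 1728 171 zS3 = true := by decide +kernel

end Pool.Agent.H68.Gal
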