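import Pool.Agent.H68.Gal.Sys2
import Pool.Agent.H68.Gal.Split

/-!
# Certificate S4
-/

namespace Pool.Agent.H68.Gal

/-- mask of the unknowns that vanish -/
def zS4 : ℕ := nat_lit 0xfffffffffffffffffffffffffffffffffffffffffffffffffffffffffffffffffffffffffffffffffffffffffffffffffffffffffffffffffffffffffffffffffffffffffffffffffffffffffffffffffffffffffffffffffffffffffffffffffffffffffffffffffffffffffffffffffffffffffffffffffffffffffffffffffffffffffffffffffffffffffffffffffffffffffffffffffffffffffffffffffffffffffffffffffffffffffffffffffffffffffffffffffffffffffffffffffffffffffffffffffffffffffffffffffffffffffffffffffffffffffffffffffffffffffffffffffffffffffffffffffffffffffffffffffffffffffffffffffffffffffffffffffffffffffffffffffffffffffffffffffffffffffffffffffffffffffffffffffffffffffffffffffffffffffffffffffffffffffffffffffffffffffffffffffffffffffffffffffffffffffffffffffffffffffffffffff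ffffffffffffffffffffffffffffffffffffffffffffffffffffffffffffffffffffffffffffffffffffffffffffffffffffffffffffffffffffffffffffffffffffffffffffffffffffffffffffffffffffffffffffffffffffffffffffffffffffffffffffffffffffffffffffffffffffffffffffffffffffffffffffffffffffffffffffffffffffffffffffffffffffffffffffffffffffffffffffffffffffffffffffffffffffffffffffffffffffffffffffffffffffffffffffffffffffffffffffffffffffffffffffffffffffffffffffffffffffffffffffffffffffffffffffffffffffffffffffffffffffffffffffffffffffffffffffffffffffffffffffffffffffffffffffffffffffffffffffffffffffffffffffffffffffffffffffffffffffffffffffffffffffffffffffffffffffffffffffffffffffffffffffffffffffffffff7ffffffffffffffffffffffffffffffffffffffffffffffffffffffffffffffffffffffffffffffffffffffffffffffffffffffffffffffffffffffffffffffffffffffffffffffffffffffffffffffffffffffffffffffffffffffffffffffffffffffffffffffffffffffffffffff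fffffffffffffffffffffffffffffffffffffffffffffffffffffffffffffffffffffffffffffffffffffffffffffffffffffffffffffffffffffffffffffffffffffffffffffffffffffffffffffffffffffffffffffffffffffffffffffffffffffffffffffffff7fffffffffffffffffffffffffffffffffff7ff3ffffffffffffffffffffffffffffffffffffffffffffffffffffffffffffffffffffffffffffffffffffffffffffffffffffffffffffffffffffffffffffffffffffffffffffffffffffffffffffffffffffffffffffffffffffffffffffffffffffffffffffffffffffffffffffffffffffffffffffffffffffffffffffffffffffffffffffffffffffffffffffffffffffffffffffffffffffffffffffffffffffffffffffffffffffffffffffffffffffffffffffffffffffffffffffffffffffffff7fffffffffffffffffffffffffffffffffff7ff3ffffffffffffffffffffffffffffffff7ff3ff1fffffffffffffffffffffffffffffffffffffffffffffffffffffffffffffffffffffffffffffffffffffffffffffffffffffffffffffffffffffffffffffffffffffffffffffffffffffffffffffffffffffffff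ffffffffffffffffffffffffffffffffffffffffffffffffffffffffffffffffffffffffffffffffffffffffffffffffffffffffffffffffffffffffffffffffffffffffffffffffffffffffffffffffffffffffffffffffffffffff7fffffffffffffffffffffffffffffffffff7ff3ffffffffffffffffffffffffffffffff7ff3ff1fffffffffffffffffffffffffffff7ff3ff1ff0ffffffffffffffffffffffffffffffffffffffffffffffffffffffffffffffffffffffffffffffffffffffffffffffffffffffffffffffffffffffffffffffffffffffffffffffffffffffffffffffffffffffffffffffffffffffffffffffffffffffffffffffffffffffffffffffffffffffffffffffffffffffffffffffffffffffffffffffffffffffffffffffffffffffffffffffffffffffffff7fffffffffffffffffffffffffffffffffff7ff3ffffffffffffffffffffffffffffffff7ff3ff1fffffffffffffffffffffffffffff7ff3ff1ff0ffffffffffffffffffffffffff7ff3ff1ff0ff07fffffffffffffffffffffffffffffffffffffffffffffffffffffffffffffffffffffffffffffffffffffffffffffffffffffffffffffffffff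fffffffffffffffffffffffffffffffffffffffffffffffffffffffffffffffffffffffffffffffffffffffffffffffffffffffffffffffffffffffffffffffffffffffffffffffffffffffffffffff7fffffffffffffffffffffffffffffffffff7ff3ffffffffffffffffffffffffffffffff7ff3ff1fffffffffffffffffffffffffffff7ff3ff1ff0ffffffffffffffffffffffffff7ff3ff1ff0ff07ffffffffffffffffffffff7ff3ff1ff0ff07f03fffffffffffffffffffffffffffffffffffffffffffffffffffffffffffffffffffffffffffffffffffffffffffffffffffffffffffffffffffffffffffffffffffffffffffffffffffffffffffffffffffffffffffffffffffffffffffffffffffffffffffffffffffffffffffffffffffffffffff7fffffffffffffffffffffffffffffffffff7ff3ffffffffffffffffffffffffffffffff7ff3ff1fffffffffffffffffffffffffffff7ff3ff1ff0ffffffffffffffffffffffffff7ff3ff1ff0ff07ffffffffffffffffffffff7ff3ff1ff0ff07f03fffffffffffffffffff7ff3ff1ff0ff07f03f01ffffffffffffffffffffffffffffffffffffffffffffffffffffffffffffff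ffffffffffffffffffffffffffffffffffffffffffffffffffffffffffffffffffffffffffffffffffffffffffffffffffffffffffffffffffffffffffffffffffffff7fffffffffffffffffffffffffffffffffff7ff3ffffffffffffffffffffffffffffffff7ff3ff1fffffffffffffffffffffffffffff7ff3ff1ff0ffffffffffffffffffffffffff7ff3ff1ff0ff07ffffffffffffffffffffff7ff3ff1ff0ff07f03fffffffffffffffffff7ff3ff1ff0ff07f03f01ffffffffffffffff7ff3ff1ff0ff07f03f01f00fffffffffffffffffffffffffffffffffffffffffffffffffffffffffffffffffffffffffffffffffffffffffffffffffffffffffffffffffffffffffffffffffffffffffffffffffffffffffffff7fffffffffffffffffffffffffffffffffff7ff3ffffffffffffffffffffffffffffffff7ff3ff1fffffffffffffffffffffffffffff7ff3ff1ff0ffffffffffffffffffffffffff7ff3ff1ff0ff07ffffffffffffffffffffff7ff3ff1ff0ff07f03fffffffffffffffffff7ff3ff1ff0ff07f03f01ffffffffffffffff7ff3ff1ff0ff07f03f01f00fffffffffffff7ff3ff1ff0ff07f03f01f00f007ffffffffffffffffffffffffffffffffffffffffff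

/-- the certificate -/
def tS4 : Tr :=
  (Tr.nd (Tr.nd (Tr.nd (Tr.nd (Tr.nd (Tr.nd (Tr.nd (Tr.nd (Tr.nd Tr.lf (nat_lit 2141) (nat_lit 517473957) (nat_lit 31947) Tr.lf) (nat_lit 918) (nat_lit 0) (nat_lit 16873) (Tr.nd Tr.lf (nat_lit 1306) (nat_lit 795346406) (nat_lit 16971) Tr.lf)) (nat_lit 404) (nat_lit 130810238) (nat_lit 6393) (Tr.nd (Tr.nd Tr.lf (nat_lit 3601) (nat_lit 212861209) (nat_lit 61905) Tr.lf) (nat_lit 1424) (nat_lit 233833147) (nat_lit 22937) (Tr.nd Tr.lf (nat_lit 6860) (nat_lit 4421938225890977974091177003922) (nat_lit 36572) Tr.lf))) (nat_lit 211) (nat_lit 64487430) (nat_lit 1476) (Tr.nd (Tr.nd (Tr.nd Tr.lf (nat_lit 2831) (nat_lit 241959129) (nat_lit 46937) Tr.lf) (nat_lit 1113) (nat_lit 263717841) (nat_lit 20337) (Tr.nd Tr.lf (nat_lit 1423) (nat_lit 59771996219211252602) (nat_lit 19381) Tr.lf)) (nat_lit 288) (nat_lit 198705803) (nat_lit 5554) (Tr.nd (Tr.nd Tr.lf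 (nat_lit 5145) (nat_lit 550242158) (nat_lit 91857) Tr.lf) (nat_lit 1817) (nat_lit 0) (nat_lit 33009) (Tr.nd Tr.lf (nat_lit 6802) (nat_lit 3388) (nat_lit 13562568219) Tr.lf)))) (nat_lit 151) (nat_lit 0) (nat_lit 2649) (Tr.nd (Tr.nd (Tr.nd (Tr.nd Tr.lf (nat_lit 2590) (nat_lit 0) (nat_lit 46625) Tr.lf) (nat_lit 989) (nat_lit 0) (nat_lit 17729) (Tr.nd Tr.lf (nat_lit 607) (nat_lit 219215947369346) (nat_lit 7757) Tr.lf)) (nat_lit 278) (nat_lit 157810701) (nat_lit 5353) (Tr.nd (Tr.nd Tr.lf (nat_lit 4255) (nat_lit 0) (nat_lit 76769) Tr.lf) (nat_lit 1747) (nat_lit 314049462) (nat_lit 31537) (Tr.nd Tr.lf (nat_lit 416) (nat_lit 66545441257527709202) (nat_lit 16557547289) Tr.lf))) (nat_lit 91) (nat_lit 98042149) (nat_lit 1681) (Tr.nd (Tr.nd (Tr.nd Tr.lf (nat_lit 2975) (nat_lit 613943498) (nat_lit 49237) Tr.lf) (nat_lit 1182) (nat_lit 363594937) (nat_lit 20225) (Tr.nd Tr.lf (nat_lit 1938)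 (nat_lit 948) (nat_lit 8328069531) Tr.lf)) (nat_lit 96) (nat_lit 231211801) (nat_lit 2201) (Tr.nd (Tr.nd Tr.lf (nat_lit 405) (nat_lit 380) (nat_lit 1680082701) Tr.lf) (nat_lit 1759) (nat_lit 500696906) (nat_lit 31749) Tr.lf)))) (nat_lit 84) (nat_lit 0) (nat_lit 1689) (Tr.nd (Tr.nd (Tr.nd (Tr.nd (Tr.nd Tr.lf (nat_lit 2267) (nat_lit 0) (nat_lit 34073) Tr.lf) (nat_lit 976) (nat_lit 118226988) (nat_lit 18041) (Tr.nd Tr.lf (nat_lit 2125) (nat_lit 14719672334082749982313322) (nat_lit 31753) Tr.lf)) (nat_lit 527) (nat_lit 0) (nat_lit 5465) (Tr.nd (Tr.nd Tr.lf (nat_lit 3679) (nat_lit 674761170) (nat_lit 63053) Tr.lf) (nat_lit 1496) (nat_lit 410518490) (nat_lit 17181) (Tr.nd Tr.lf (nat_lit 5209) (nat_lit 1862) (nat_lit 24104962742) Tr.lf))) (nat_lit 156) (nat_lit 80478485) (nat_lit 2729) (Tr.nd (Tr.nd (Tr.nd Tr.lf (nat_lit 2912) (nat_lit 0) (nat_lit 52889) Tr.lf) (nat_lit 1183) (nat_lit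 0) (nat_lit 21473) (Tr.nd Tr.lf (nat_lit 6796) (nat_lit 60906905936662629324) (nat_lit 18129) Tr.lf)) (nat_lit 146) (nat_lit 214958244) (nat_lit 2681) (Tr.nd (Tr.nd Tr.lf (nat_lit 95) (nat_lit 498) (nat_lit 495191813) Tr.lf) (nat_lit 1941) (nat_lit 386663460) (nat_lit 34057) (Tr.nd Tr.lf (nat_lit 2080) (nat_lit 1011617497) (nat_lit 9938703292) Tr.lf)))) (nat_lit 208) (nat_lit 0) (nat_lit 4217) (Tr.nd (Tr.nd (Tr.nd (Tr.nd Tr.lf (nat_lit 2705) (nat_lit 185598249) (nat_lit 47889) Tr.lf) (nat_lit 1101) (nat_lit 100139350) (nat_lit 17809) (Tr.nd Tr.lf (nat_lit 1297) (nat_lit 779619121) (nat_lit 5356390355) Tr.lf)) (nat_lit 89) (nat_lit 178520510) (nat_lit 1905) (Tr.nd (Tr.nd Tr.lf (nat_lit 4448) (nat_lit 0) (nat_lit 80537) Tr.lf) (nat_lit 1757) (nat_lit 0) (nat_lit 31553) (Tr.nd Tr.lf (nat_lit 6735) (nat_lit 835193965) (nat_lit 17161267133) Tr.lf))) (nat_lit 460) (nat_lit 0) (nat_lit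 1401) (Tr.nd (Tr.nd (Tr.nd Tr.lf (nat_lit 3472) (nat_lit 108003731) (nat_lit 62969) Tr.lf) (nat_lit 1363) (nat_lit 0) (nat_lit 19081) (Tr.nd Tr.lf (nat_lit 2257) (nat_lit 909) (nat_lit 9032698686) Tr.lf)) (nat_lit 910) (nat_lit 116130029) (nat_lit 16569) (Tr.nd (Tr.nd Tr.lf (nat_lit 535) (nat_lit 534) (nat_lit 797968996) Tr.lf) (nat_lit 2127) (nat_lit 240124049) (nat_lit 33209) Tr.lf))))) (nat_lit 80) (nat_lit 0) (nat_lit 1913) (Tr.nd (Tr.nd (Tr.nd (Tr.nd (Tr.nd (Tr.nd Tr.lf (nat_lit 1824) (nat_lit 542640059) (nat_lit 33202) Tr.lf) (nat_lit 922) (nat_lit 0) (nat_lit 16585) (Tr.nd Tr.lf (nat_lit 599) (nat_lit 55664692124655813227) (nat_lit 3913) Tr.lf)) (nat_lit 413) (nat_lit 137363701) (nat_lit 5249) (Tr.nd (Tr.nd Tr.lf (nat_lit 3664) (nat_lit 170918523) (nat_lit 64313) Tr.lf) (nat_lit 992) (nat_lit 408159667) (nat_lit 18329) (Tr.nd Tr.lf (nat_lit 5200) (nat_lit 247734529690499)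 (nat_lit 24107087549) Tr.lf))) (nat_lit 286) (nat_lit 57147601) (nat_lit 5153) (Tr.nd (Tr.nd (Tr.nd Tr.lf (nat_lit 2838) (nat_lit 393741685) (nat_lit 50377) Tr.lf) (nat_lit 1170) (nat_lit 0) (nat_lit 17945) (Tr.nd Tr.lf (nat_lit 3481) (nat_lit 872679206) (nat_lit 62961) Tr.lf)) (nat_lit 661) (nat_lit 175636516) (nat_lit 2101) (Tr.nd (Tr.nd Tr.lf (nat_lit 5984) (nat_lit 0) (nat_lit 108185) Tr.lf) (nat_lit 1881) (nat_lit 0) (nat_lit 34161) (Tr.nd Tr.lf (nat_lit 6810) (nat_lit 265052019230754) (nat_lit 65457) Tr.lf)))) (nat_lit 155) (nat_lit 0) (nat_lit 2833) (Tr.nd (Tr.nd (Tr.nd (Tr.nd Tr.lf (nat_lit 2649) (nat_lit 437782129) (nat_lit 47985) Tr.lf) (nat_lit 1045) (nat_lit 0) (nat_lit 18985) (Tr.nd Tr.lf (nat_lit 1056) (nat_lit 1435) (nat_lit 5106846642) Tr.lf)) (nat_lit 593) (nat_lit 0) (nat_lit 6705) (Tr.nd (Tr.nd Tr.lf (nat_lit 4432) (nat_lit 224657771) (nat_lit 78137) Tr.lf)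 (nat_lit 1753) (nat_lit 0) (nat_lit 31857) (Tr.nd Tr.lf (nat_lit 5329) (nat_lit 254812743536041) (nat_lit 20206384825) Tr.lf))) (nat_lit 399) (nat_lit 0) (nat_lit 5273) (Tr.nd (Tr.nd (Tr.nd Tr.lf (nat_lit 3039) (nat_lit 605554866) (nat_lit 49245) Tr.lf) (nat_lit 1359) (nat_lit 232260185) (nat_lit 19385) (Tr.nd Tr.lf (nat_lit 2253) (nat_lit 830) (nat_lit 8328055705) Tr.lf)) (nat_lit 733) (nat_lit 150470837) (nat_lit 4315) (Tr.nd (Tr.nd Tr.lf (nat_lit 1295) (nat_lit 776734286) (nat_lit 1603) Tr.lf) (nat_lit 1887) (nat_lit 508036914) (nat_lit 34145) Tr.lf)))) (nat_lit 142) (nat_lit 0) (nat_lit 2745) (Tr.nd (Tr.nd (Tr.nd (Tr.nd (Tr.nd Tr.lf (nat_lit 2581) (nat_lit 390595700) (nat_lit 46633) Tr.lf) (nat_lit 981) (nat_lit 0) (nat_lit 17833) (Tr.nd Tr.lf (nat_lit 2911) (nat_lit 824707358) (nat_lit 49229) Tr.lf)) (nat_lit 90) (nat_lit 156238058) (nat_lit 1609) (Tr.nd (Tr.nd Tr.lf (nat_lit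 3806) (nat_lit 602409089) (nat_lit 61913) Tr.lf) (nat_lit 1742) (nat_lit 72089723) (nat_lit 31545) (Tr.nd Tr.lf (nat_lit 5269) (nat_lit 862981330) (nat_lit 20179080373) Tr.lf))) (nat_lit 335) (nat_lit 0) (nat_lit 5177) (Tr.nd (Tr.nd (Tr.nd Tr.lf (nat_lit 2965) (nat_lit 407372868) (nat_lit 48177) Tr.lf) (nat_lit 1299) (nat_lit 0) (nat_lit 19073) (Tr.nd Tr.lf (nat_lit 1874) (nat_lit 1218) (nat_lit 8302903611) Tr.lf)) (nat_lit 352) (nat_lit 223871645) (nat_lit 6716) (Tr.nd (Tr.nd Tr.lf (nat_lit 213) (nat_lit 340) (nat_lit 1050936813) Tr.lf) (nat_lit 1945) (nat_lit 0) (nat_lit 35313) (Tr.nd Tr.lf (nat_lit 6869) (nat_lit 70652739579617740372) (nat_lit 17161570747) Tr.lf)))) (nat_lit 221) (nat_lit 0) (nat_lit 3905) (Tr.nd (Tr.nd (Tr.nd (Tr.nd Tr.lf (nat_lit 2591) (nat_lit 591923362) (nat_lit 46817) Tr.lf) (nat_lit 1103) (nat_lit 227017033) (nat_lit 19001) (Tr.nd Tr.lf (nat_lit 5260)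 (nat_lit 225813048328908) (nat_lit 16790) Tr.lf)) (nat_lit 654) (nat_lit 0) (nat_lit 5361) (Tr.nd (Tr.nd Tr.lf (nat_lit 671) (nat_lit 726401746) (nat_lit 8913) Tr.lf) (nat_lit 1812) (nat_lit 322438075) (nat_lit 32793) (Tr.nd Tr.lf (nat_lit 6744) (nat_lit 2043) (nat_lit 13535318965) Tr.lf))) (nat_lit 345) (nat_lit 121110641) (nat_lit 6513) (Tr.nd (Tr.nd (Tr.nd Tr.lf (nat_lit 3486) (nat_lit 591923313) (nat_lit 61697) Tr.lf) (nat_lit 1374) (nat_lit 372769881) (nat_lit 18125) (Tr.nd Tr.lf (nat_lit 3803) (nat_lit 63428936983761128781) (nat_lit 61721) Tr.lf)) (nat_lit 914) (nat_lit 0) (nat_lit 16505) (Tr.nd (Tr.nd Tr.lf (nat_lit 925) (nat_lit 793773227) (nat_lit 16577) Tr.lf) (nat_lit 2136) (nat_lit 0) (nat_lit 32049) Tr.lf)))))) (nat_lit 78) (nat_lit 0) (nat_lit 1593) (Tr.nd (Tr.nd (Tr.nd (Tr.nd (Tr.nd (Tr.nd (Tr.nd Tr.lf (nat_lit 2144) (nat_lit 0) (nat_lit 39065) Tr.lf) (nat_lit 920)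 (nat_lit 0) (nat_lit 16497) (Tr.nd Tr.lf (nat_lit 594) (nat_lit 762577781) (nat_lit 1155796909) Tr.lf)) (nat_lit 525) (nat_lit 0) (nat_lit 4097) (Tr.nd (Tr.nd Tr.lf (nat_lit 3606) (nat_lit 394790245) (nat_lit 64201) Tr.lf) (nat_lit 1369) (nat_lit 403440638) (nat_lit 17078) (Tr.nd Tr.lf (nat_lit 2271) (nat_lit 246085362126194) (nat_lit 35421) Tr.lf))) (nat_lit 273) (nat_lit 0) (nat_lit 5169) (Tr.nd (Tr.nd (Tr.nd Tr.lf (nat_lit 2833) (nat_lit 211026145) (nat_lit 48081) Tr.lf) (nat_lit 1167) (nat_lit 220987441) (nat_lit 19097) (Tr.nd Tr.lf (nat_lit 2963) (nat_lit 59753987318282194094) (nat_lit 46737) Tr.lf)) (nat_lit 480) (nat_lit 202900115) (nat_lit 9010) (Tr.nd (Tr.nd Tr.lf (nat_lit 2143) (nat_lit 738985794) (nat_lit 36553) Tr.lf) (nat_lit 1822) (nat_lit 451413681) (nat_lit 32801) (Tr.nd Tr.lf (nat_lit 6806) (nat_lit 69283638764440653005) (nat_lit 20784400820) Tr.lf)))) (nat_lit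 153) (nat_lit 0) (nat_lit 3057) (Tr.nd (Tr.nd (Tr.nd (Tr.nd Tr.lf (nat_lit 2640) (nat_lit 229638611) (nat_lit 47993) Tr.lf) (nat_lit 1040) (nat_lit 5242891) (nat_lit 19193) (Tr.nd Tr.lf (nat_lit 1048) (nat_lit 1196) (nat_lit 4651761877) Tr.lf)) (nat_lit 591) (nat_lit 0) (nat_lit 5561) (Tr.nd (Tr.nd Tr.lf (nat_lit 4374) (nat_lit 371721605) (nat_lit 78025) Tr.lf) (nat_lit 1749) (nat_lit 389022914) (nat_lit 31657) (Tr.nd Tr.lf (nat_lit 1952) (nat_lit 3691) (nat_lit 9334721212) Tr.lf))) (nat_lit 283) (nat_lit 102236477) (nat_lit 5137) (Tr.nd (Tr.nd (Tr.nd Tr.lf (nat_lit 2656) (nat_lit 639109469) (nat_lit 48188) Tr.lf) (nat_lit 1301) (nat_lit 0) (nat_lit 20425) (Tr.nd Tr.lf (nat_lit 2064) (nat_lit 237838897777598) (nat_lit 9586377053) Tr.lf)) (nat_lit 728) (nat_lit 236454714) (nat_lit 3357) (Tr.nd (Tr.nd Tr.lf (nat_lit 410) (nat_lit 386) (nat_lit 1378093963) Tr.lf) (nat_lit 1823) (nat_lit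 503842594) (nat_lit 32993) Tr.lf)))) (nat_lit 86) (nat_lit 0) (nat_lit 1897) (Tr.nd (Tr.nd (Tr.nd (Tr.nd (Tr.nd Tr.lf (nat_lit 2577) (nat_lit 196083921) (nat_lit 46641) Tr.lf) (nat_lit 979) (nat_lit 0) (nat_lit 17713) (Tr.nd Tr.lf (nat_lit 2710) (nat_lit 818414917) (nat_lit 49129) Tr.lf)) (nat_lit 529) (nat_lit 0) (nat_lit 6609) (Tr.nd (Tr.nd Tr.lf (nat_lit 3793) (nat_lit 198181209) (nat_lit 62105) Tr.lf) (nat_lit 1501) (nat_lit 357565493) (nat_lit 19289) (Tr.nd Tr.lf (nat_lit 5264) (nat_lit 723) (nat_lit 24132198171) Tr.lf))) (nat_lit 276) (nat_lit 85458955) (nat_lit 1577) (Tr.nd (Tr.nd (Tr.nd Tr.lf (nat_lit 2960) (nat_lit 235929803) (nat_lit 50585) Tr.lf) (nat_lit 1175) (nat_lit 353895347) (nat_lit 16764) (Tr.nd Tr.lf (nat_lit 1871) (nat_lit 313) (nat_lit 8604879677) Tr.lf)) (nat_lit 402) (nat_lit 219676676) (nat_lit 1819) (Tr.nd (Tr.nd Tr.lf (nat_lit 158) (nat_lit 308) (nat_lit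 746850917) Tr.lf) (nat_lit 1943) (nat_lit 0) (nat_lit 31737) (Tr.nd Tr.lf (nat_lit 5152) (nat_lit 3873) (nat_lit 24434273212) Tr.lf)))) (nat_lit 217) (nat_lit 33816702) (nat_lit 4209) (Tr.nd (Tr.nd (Tr.nd (Tr.nd Tr.lf (nat_lit 2713) (nat_lit 490997582) (nat_lit 49137) Tr.lf) (nat_lit 924) (nat_lit 319554733) (nat_lit 16553) (Tr.nd Tr.lf (nat_lit 1305) (nat_lit 856427501) (nat_lit 5960386259) Tr.lf)) (nat_lit 408) (nat_lit 186122322) (nat_lit 2965) (Tr.nd (Tr.nd Tr.lf (nat_lit 5136) (nat_lit 246677939) (nat_lit 91865) Tr.lf) (nat_lit 1808) (nat_lit 26214491) (nat_lit 33017) (Tr.nd Tr.lf (nat_lit 6737) (nat_lit 834931638) (nat_lit 20783048627) Tr.lf))) (nat_lit 148) (nat_lit 116130086) (nat_lit 2841) (Tr.nd (Tr.nd (Tr.nd Tr.lf (nat_lit 3477) (nat_lit 384304340) (nat_lit 61705) Tr.lf) (nat_lit 1367) (nat_lit 295175163) (nat_lit 16492) (Tr.nd Tr.lf (nat_lit 2260) (nat_lit 63428932035952509899)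 (nat_lit 31674) Tr.lf)) (nat_lit 912) (nat_lit 214958523) (nat_lit 16889) (Tr.nd (Tr.nd Tr.lf (nat_lit 536) (nat_lit 789578532) (nat_lit 3157) Tr.lf) (nat_lit 2129) (nat_lit 206307937) (nat_lit 34353) Tr.lf))))) (nat_lit 82) (nat_lit 0) (nat_lit 1529) (Tr.nd (Tr.nd (Tr.nd (Tr.nd (Tr.nd (Tr.nd Tr.lf (nat_lit 2206) (nat_lit 512231025) (nat_lit 34257) Tr.lf) (nat_lit 974) (nat_lit 118227195) (nat_lit 17721) (Tr.nd Tr.lf (nat_lit 5196) (nat_lit 213649627547074) (nat_lit 1806) Tr.lf)) (nat_lit 414) (nat_lit 136839465) (nat_lit 6401) (Tr.nd (Tr.nd Tr.lf (nat_lit 3673) (nat_lit 544212718) (nat_lit 64305) Tr.lf) (nat_lit 1489) (nat_lit 233833313) (nat_lit 20633) (Tr.nd Tr.lf (nat_lit 5202) (nat_lit 3124) (nat_lit 12933420219) Tr.lf))) (nat_lit 333) (nat_lit 0) (nat_lit 3985) (Tr.nd (Tr.nd (Tr.nd Tr.lf (nat_lit 2842) (nat_lit 536348346) (nat_lit 46921) Tr.lf) (nat_lit 1173) (nat_lit 0)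 (nat_lit 20233) (Tr.nd Tr.lf (nat_lit 1437) (nat_lit 869797099) (nat_lit 5054416595) Tr.lf)) (nat_lit 669) (nat_lit 211026669) (nat_lit 5457) (Tr.nd (Tr.nd Tr.lf (nat_lit 93) (nat_lit 251) (nat_lit 419694051) Tr.lf) (nat_lit 1937) (nat_lit 187957401) (nat_lit 34065) (Tr.nd Tr.lf (nat_lit 544) (nat_lit 69571871752036814522) (nat_lit 17161529369) Tr.lf)))) (nat_lit 206) (nat_lit 0) (nat_lit 3897) (Tr.nd (Tr.nd (Tr.nd (Tr.nd Tr.lf (nat_lit 2703) (nat_lit 218628337) (nat_lit 46745) Tr.lf) (nat_lit 1047) (nat_lit 280495035) (nat_lit 16452) (Tr.nd Tr.lf (nat_lit 1176) (nat_lit 946) (nat_lit 4702093717) Tr.lf)) (nat_lit 652) (nat_lit 0) (nat_lit 1425) (Tr.nd (Tr.nd Tr.lf (nat_lit 4320) (nat_lit 714345115) (nat_lit 78233) Tr.lf) (nat_lit 1755) (nat_lit 0) (nat_lit 31633) (Tr.nd Tr.lf (nat_lit 7629) (nat_lit 17690050237343946194816014) (nat_lit 63161) Tr.lf))) (nat_lit 401) (nat_lit 0)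 (nat_lit 6417) (Tr.nd (Tr.nd (Tr.nd Tr.lf (nat_lit 3414) (nat_lit 308806805) (nat_lit 61801) Tr.lf) (nat_lit 1361) (nat_lit 208928833) (nat_lit 20529) (Tr.nd Tr.lf (nat_lit 731) (nat_lit 3489) (nat_lit 1684278074) Tr.lf)) (nat_lit 735) (nat_lit 152568226) (nat_lit 7773) (Tr.nd (Tr.nd Tr.lf (nat_lit 533) (nat_lit 778832692) (nat_lit 1730414541) Tr.lf) (nat_lit 2073) (nat_lit 0) (nat_lit 36561) Tr.lf)))) (nat_lit 144) (nat_lit 0) (nat_lit 3065) (Tr.nd (Tr.nd (Tr.nd (Tr.nd (Tr.nd Tr.lf (nat_lit 2585) (nat_lit 465831518) (nat_lit 46833) Tr.lf) (nat_lit 985) (nat_lit 270795782) (nat_lit 18033) (Tr.nd Tr.lf (nat_lit 606) (nat_lit 217910271544241) (nat_lit 2334397771) Tr.lf)) (nat_lit 150) (nat_lit 155713981) (nat_lit 3049) (Tr.nd (Tr.nd Tr.lf (nat_lit 4246) (nat_lit 346555685) (nat_lit 76777) Tr.lf) (nat_lit 1744) (nat_lit 217055355) (nat_lit 31865) (Tr.nd Tr.lf (nat_lit 7565) (nat_lit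 4558112404683211158374037588851) (nat_lit 35508) Tr.lf))) (nat_lit 342) (nat_lit 17301565) (nat_lit 6505) (Tr.nd (Tr.nd (Tr.nd Tr.lf (nat_lit 2592) (nat_lit 630458694) (nat_lit 47036) Tr.lf) (nat_lit 1181) (nat_lit 360186957) (nat_lit 17923) (Tr.nd Tr.lf (nat_lit 1935) (nat_lit 385) (nat_lit 8630045597) Tr.lf)) (nat_lit 338) (nat_lit 227541332) (nat_lit 4025) (Tr.nd (Tr.nd Tr.lf (nat_lit 218) (nat_lit 276) (nat_lit 1025772139) Tr.lf) (nat_lit 1951) (nat_lit 0) (nat_lit 35297) (Tr.nd Tr.lf (nat_lit 6872) (nat_lit 18610917177900396511759859) (nat_lit 37917) Tr.lf)))) (nat_lit 268) (nat_lit 0) (nat_lit 1377) (Tr.nd (Tr.nd (Tr.nd (Tr.nd Tr.lf (nat_lit 2655) (nat_lit 596117698) (nat_lit 47969) Tr.lf) (nat_lit 1106) (nat_lit 0) (nat_lit 17849) (Tr.nd Tr.lf (nat_lit 1422) (nat_lit 221414993953467) (nat_lit 4979705172) Tr.lf)) (nat_lit 280) (nat_lit 194248980) (nat_lit 3921) (Tr.nd (Tr.nd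 Tr.lf (nat_lit 1503) (nat_lit 730596626) (nat_lit 22745) Tr.lf) (nat_lit 1814) (nat_lit 275252157) (nat_lit 33001) (Tr.nd Tr.lf (nat_lit 6799) (nat_lit 809) (nat_lit 17186433053) Tr.lf))) (nat_lit 407) (nat_lit 127402067) (nat_lit 2940) (Tr.nd (Tr.nd (Tr.nd Tr.lf (nat_lit 3487) (nat_lit 0) (nat_lit 62945) Tr.lf) (nat_lit 1375) (nat_lit 374867250) (nat_lit 21581) (Tr.nd Tr.lf (nat_lit 4575) (nat_lit 931662470) (nat_lit 76893) Tr.lf)) (nat_lit 916) (nat_lit 0) (nat_lit 16665) (Tr.nd (Tr.nd Tr.lf (nat_lit 1303) (nat_lit 793511286) (nat_lit 16868) Tr.lf) (nat_lit 2137) (nat_lit 0) (nat_lit 36657) Tr.lf))))))) (nat_lit 77) (nat_lit 0) (nat_lit 1489) (Tr.nd (Tr.nd (Tr.nd (Tr.nd (Tr.nd (Tr.nd (Tr.nd (Tr.nd Tr.lf (nat_lit 2142) (nat_lit 535561865) (nat_lit 34249) Tr.lf) (nat_lit 919) (nat_lit 0) (nat_lit 16473) (Tr.nd Tr.lf (nat_lit 538) (nat_lit 789056322) (nat_lit 1428425803) Tr.lf))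 (nat_lit 524) (nat_lit 0) (nat_lit 1409) (Tr.nd (Tr.nd Tr.lf (nat_lit 3605) (nat_lit 394790068) (nat_lit 61897) Tr.lf) (nat_lit 1248) (nat_lit 402130339) (nat_lit 22834) (Tr.nd Tr.lf (nat_lit 2270) (nat_lit 246016662834636) (nat_lit 34265) Tr.lf))) (nat_lit 272) (nat_lit 0) (nat_lit 5369) (Tr.nd (Tr.nd (Tr.nd Tr.lf (nat_lit 2832) (nat_lit 242745875) (nat_lit 50393) Tr.lf) (nat_lit 1166) (nat_lit 130809909) (nat_lit 19065) (Tr.nd Tr.lf (nat_lit 2195) (nat_lit 59772001510632983690) (nat_lit 32913) Tr.lf)) (nat_lit 656) (nat_lit 0) (nat_lit 9113) (Tr.nd (Tr.nd Tr.lf (nat_lit 5146) (nat_lit 686819202) (nat_lit 35403) Tr.lf) (nat_lit 1819) (nat_lit 0) (nat_lit 32785) (Tr.nd Tr.lf (nat_lit 6805) (nat_lit 887360820) (nat_lit 20783062453) Tr.lf)))) (nat_lit 152) (nat_lit 0) (nat_lit 2673) (Tr.nd (Tr.nd (Tr.nd (Tr.nd Tr.lf (nat_lit 2639) (nat_lit 229114065) (nat_lit 46649) Tr.lf) (nat_lit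 990) (nat_lit 0) (nat_lit 17825) (Tr.nd Tr.lf (nat_lit 1041) (nat_lit 329) (nat_lit 4978902611) Tr.lf)) (nat_lit 589) (nat_lit 0) (nat_lit 4105) (Tr.nd (Tr.nd Tr.lf (nat_lit 4368) (nat_lit 244318771) (nat_lit 78041) Tr.lf) (nat_lit 1748) (nat_lit 319554563) (nat_lit 31641) (Tr.nd Tr.lf (nat_lit 1184) (nat_lit 66527426652873690706) (nat_lit 12958848188) Tr.lf))) (nat_lit 147) (nat_lit 98042091) (nat_lit 2737) (Tr.nd (Tr.nd (Tr.nd Tr.lf (nat_lit 3025) (nat_lit 235930473) (nat_lit 48281) Tr.lf) (nat_lit 1119) (nat_lit 367527202) (nat_lit 20321) (Tr.nd Tr.lf (nat_lit 2063) (nat_lit 788794177) (nat_lit 8680377437) Tr.lf)) (nat_lit 658) (nat_lit 233833140) (nat_lit 4505) (Tr.nd (Tr.nd Tr.lf (nat_lit 406) (nat_lit 501) (nat_lit 2007238413) Tr.lf) (nat_lit 1949) (nat_lit 502531709) (nat_lit 32897) Tr.lf)))) (nat_lit 85) (nat_lit 0) (nat_lit 1705) (Tr.nd (Tr.nd (Tr.nd (Tr.nd (Tr.nd Tr.lf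 (nat_lit 2576) (nat_lit 47186091) (nat_lit 46841) Tr.lf) (nat_lit 977) (nat_lit 181403985) (nat_lit 17841) (Tr.nd Tr.lf (nat_lit 2709) (nat_lit 818414780) (nat_lit 47881) Tr.lf)) (nat_lit 528) (nat_lit 0) (nat_lit 8921) (Tr.nd (Tr.nd Tr.lf (nat_lit 3680) (nat_lit 0) (nat_lit 66713) Tr.lf) (nat_lit 928) (nat_lit 418383370) (nat_lit 17084) (Tr.nd Tr.lf (nat_lit 5263) (nat_lit 869272801) (nat_lit 16582450973) Tr.lf))) (nat_lit 334) (nat_lit 0) (nat_lit 5145) (Tr.nd (Tr.nd (Tr.nd Tr.lf (nat_lit 2959) (nat_lit 235406057) (nat_lit 47129) Tr.lf) (nat_lit 1229) (nat_lit 131596742) (nat_lit 17913) (Tr.nd Tr.lf (nat_lit 1439) (nat_lit 61014994045711682738) (nat_lit 21589) Tr.lf)) (nat_lit 717) (nat_lit 0) (nat_lit 4121) (Tr.nd (Tr.nd Tr.lf (nat_lit 157) (nat_lit 275) (nat_lit 721685091) Tr.lf) (nat_lit 1942) (nat_lit 386663755) (nat_lit 35305) (Tr.nd Tr.lf (nat_lit 4384) (nat_lit 1011617546)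 (nat_lit 20810380732) Tr.lf)))) (nat_lit 209) (nat_lit 0) (nat_lit 4017) (Tr.nd (Tr.nd (Tr.nd (Tr.nd Tr.lf (nat_lit 2708) (nat_lit 353109182) (nat_lit 47865) Tr.lf) (nat_lit 987) (nat_lit 318243766) (nat_lit 16458) (Tr.nd Tr.lf (nat_lit 1304) (nat_lit 3026) (nat_lit 4752425557) Tr.lf)) (nat_lit 653) (nat_lit 0) (nat_lit 4113) (Tr.nd (Tr.nd Tr.lf (nat_lit 4511) (nat_lit 710412914) (nat_lit 76885) Tr.lf) (nat_lit 1758) (nat_lit 0) (nat_lit 31649) (Tr.nd Tr.lf (nat_lit 6736) (nat_lit 989072499) (nat_lit 28032958397) Tr.lf))) (nat_lit 87) (nat_lit 116129955) (nat_lit 1497) (Tr.nd (Tr.nd (Tr.nd Tr.lf (nat_lit 3476) (nat_lit 336331990) (nat_lit 61689) Tr.lf) (nat_lit 1178) (nat_lit 385352674) (nat_lit 16779) (Tr.nd Tr.lf (nat_lit 4569) (nat_lit 241412416735918) (nat_lit 2875) Tr.lf)) (nat_lit 911) (nat_lit 214434025) (nat_lit 16601) (Tr.nd (Tr.nd Tr.lf (nat_lit 2061) (nat_lit 206571507287932)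 (nat_lit 2660) Tr.lf) (nat_lit 2128) (nat_lit 239338091) (nat_lit 36665) Tr.lf))))) (nat_lit 81) (nat_lit 0) (nat_lit 1713) (Tr.nd (Tr.nd (Tr.nd (Tr.nd (Tr.nd (Tr.nd Tr.lf (nat_lit 2205) (nat_lit 512755445) (nat_lit 33105) Tr.lf) (nat_lit 923) (nat_lit 0) (nat_lit 16657) (Tr.nd Tr.lf (nat_lit 595) (nat_lit 603) (nat_lit 1378092809) Tr.lf)) (nat_lit 287) (nat_lit 141033874) (nat_lit 5345) (Tr.nd (Tr.nd Tr.lf (nat_lit 3665) (nat_lit 199754353) (nat_lit 62001) Tr.lf) (nat_lit 1427) (nat_lit 0) (nat_lit 19089) (Tr.nd Tr.lf (nat_lit 5201) (nat_lit 817105785) (nat_lit 20179066547) Tr.lf))) (nat_lit 332) (nat_lit 0) (nat_lit 1385) (Tr.nd (Tr.nd (Tr.nd Tr.lf (nat_lit 2841) (nat_lit 511969142) (nat_lit 50385) Tr.lf) (nat_lit 1172) (nat_lit 0) (nat_lit 20217) (Tr.nd Tr.lf (nat_lit 3743) (nat_lit 879233558) (nat_lit 63061) Tr.lf)) (nat_lit 670) (nat_lit 154665153) (nat_lit 4309) (Tr.nd (Tr.nd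 Tr.lf (nat_lit 6752) (nat_lit 0) (nat_lit 122009) Tr.lf) (nat_lit 1934) (nat_lit 129499525) (nat_lit 32889) (Tr.nd Tr.lf (nat_lit 7583) (nat_lit 69553854742162050618) (nat_lit 93109) Tr.lf)))) (nat_lit 204) (nat_lit 0) (nat_lit 1369) (Tr.nd (Tr.nd (Tr.nd (Tr.nd Tr.lf (nat_lit 2702) (nat_lit 126615797) (nat_lit 46713) Tr.lf) (nat_lit 1046) (nat_lit 0) (nat_lit 19177) (Tr.nd Tr.lf (nat_lit 1169) (nat_lit 377) (nat_lit 5306058515) Tr.lf)) (nat_lit 608) (nat_lit 0) (nat_lit 11417) (Tr.nd (Tr.nd Tr.lf (nat_lit 4441) (nat_lit 522454806) (nat_lit 78129) Tr.lf) (nat_lit 1754) (nat_lit 0) (nat_lit 31561) (Tr.nd Tr.lf (nat_lit 5333) (nat_lit 67338078159176732084) (nat_lit 16557561021) Tr.lf))) (nat_lit 400) (nat_lit 0) (nat_lit 7673) (Tr.nd (Tr.nd (Tr.nd Tr.lf (nat_lit 3408) (nat_lit 91226435) (nat_lit 61817) Tr.lf) (nat_lit 1360) (nat_lit 231997515) (nat_lit 22841) (Tr.nd Tr.lf (nat_lit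 5324) (nat_lit 239488280822602) (nat_lit 2974) Tr.lf)) (nat_lit 734) (nat_lit 241959785) (nat_lit 6617) (Tr.nd (Tr.nd Tr.lf (nat_lit 531) (nat_lit 204028880355870) (nat_lit 1892) Tr.lf) (nat_lit 2072) (nat_lit 0) (nat_lit 31953) Tr.lf)))) (nat_lit 143) (nat_lit 0) (nat_lit 2777) (Tr.nd (Tr.nd (Tr.nd (Tr.nd (Tr.nd Tr.lf (nat_lit 2582) (nat_lit 390595629) (nat_lit 46825) Tr.lf) (nat_lit 982) (nat_lit 0) (nat_lit 18025) (Tr.nd Tr.lf (nat_lit 605) (nat_lit 3101) (nat_lit 1428426955) Tr.lf)) (nat_lit 149) (nat_lit 155713828) (nat_lit 2857) (Tr.nd (Tr.nd Tr.lf (nat_lit 3807) (nat_lit 668469690) (nat_lit 63069) Tr.lf) (nat_lit 1743) (nat_lit 216531218) (nat_lit 31577) (Tr.nd Tr.lf (nat_lit 5270) (nat_lit 66257208269949373621) (nat_lit 20180404913) Tr.lf))) (nat_lit 336) (nat_lit 0) (nat_lit 6521) (Tr.nd (Tr.nd (Tr.nd Tr.lf (nat_lit 2970) (nat_lit 527435506) (nat_lit 47025) Tr.lf) (nat_lit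 1055) (nat_lit 359138562) (nat_lit 19169) (Tr.nd Tr.lf (nat_lit 1888) (nat_lit 1997) (nat_lit 9032730172) Tr.lf)) (nat_lit 724) (nat_lit 93847579) (nat_lit 1721) (Tr.nd (Tr.nd Tr.lf (nat_lit 214) (nat_lit 762839493) (nat_lit 1101270958) Tr.lf) (nat_lit 1946) (nat_lit 0) (nat_lit 32905) (Tr.nd Tr.lf (nat_lit 7645) (nat_lit 1031276907) (nat_lit 65470) Tr.lf)))) (nat_lit 222) (nat_lit 0) (nat_lit 4001) (Tr.nd (Tr.nd (Tr.nd (Tr.nd Tr.lf (nat_lit 2718) (nat_lit 0) (nat_lit 47873) Tr.lf) (nat_lit 1104) (nat_lit 227541051) (nat_lit 20345) (Tr.nd Tr.lf (nat_lit 659) (nat_lit 59321640104772504705) (nat_lit 4978906257) Tr.lf)) (nat_lit 281) (nat_lit 192413790) (nat_lit 2774) (Tr.nd (Tr.nd Tr.lf (nat_lit 5138) (nat_lit 644875630) (nat_lit 21595) Tr.lf) (nat_lit 1813) (nat_lit 321913882) (nat_lit 32809) (Tr.nd Tr.lf (nat_lit 6745) (nat_lit 996936462) (nat_lit 28030847411) Tr.lf))) (nat_lit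 461) (nat_lit 0) (nat_lit 4089) (Tr.nd (Tr.nd (Tr.nd Tr.lf (nat_lit 3423) (nat_lit 661129666) (nat_lit 61793) Tr.lf) (nat_lit 1373) (nat_lit 393479637) (nat_lit 19273) (Tr.nd Tr.lf (nat_lit 4240) (nat_lit 242030914568699) (nat_lit 76793) Tr.lf)) (nat_lit 915) (nat_lit 0) (nat_lit 16561) (Tr.nd (Tr.nd Tr.lf (nat_lit 926) (nat_lit 793248964) (nat_lit 16673) Tr.lf) (nat_lit 1760) (nat_lit 527697875) (nat_lit 32153) Tr.lf)))))) (nat_lit 79) (nat_lit 0) (nat_lit 1625) (Tr.nd (Tr.nd (Tr.nd (Tr.nd (Tr.nd (Tr.nd (Tr.nd Tr.lf (nat_lit 2191) (nat_lit 238551782) (nat_lit 33305) Tr.lf) (nat_lit 921) (nat_lit 0) (nat_lit 16881) (Tr.nd Tr.lf (nat_lit 2896) (nat_lit 211931630405973) (nat_lit 4011) Tr.lf)) (nat_lit 223) (nat_lit 136839650) (nat_lit 4193) (Tr.nd (Tr.nd Tr.lf (nat_lit 3609) (nat_lit 545523598) (nat_lit 64209) Tr.lf) (nat_lit 1368) (nat_lit 406062540) (nat_lit 18225) (Tr.nd Tr.lf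 (nat_lit 5199) (nat_lit 816057377) (nat_lit 16557285053) Tr.lf))) (nat_lit 279) (nat_lit 45613147) (nat_lit 2628) (Tr.nd (Tr.nd (Tr.nd Tr.lf (nat_lit 2837) (nat_lit 393741444) (nat_lit 48073) Tr.lf) (nat_lit 1168) (nat_lit 221774323) (nat_lit 21497) (Tr.nd Tr.lf (nat_lit 3473) (nat_lit 227737210978697) (nat_lit 61713) Tr.lf)) (nat_lit 601) (nat_lit 204210798) (nat_lit 3254) (Tr.nd (Tr.nd Tr.lf (nat_lit 5216) (nat_lit 0) (nat_lit 94361) Tr.lf) (nat_lit 1878) (nat_lit 264766445) (nat_lit 34153) (Tr.nd Tr.lf (nat_lit 7582) (nat_lit 1008994649) (nat_lit 51634) Tr.lf)))) (nat_lit 154) (nat_lit 0) (nat_lit 2761) (Tr.nd (Tr.nd (Tr.nd (Tr.nd Tr.lf (nat_lit 2646) (nat_lit 292029525) (nat_lit 47977) Tr.lf) (nat_lit 1044) (nat_lit 0) (nat_lit 18969) (Tr.nd Tr.lf (nat_lit 1049) (nat_lit 841745342) (nat_lit 5029250387) Tr.lf)) (nat_lit 592) (nat_lit 0) (nat_lit 9017) (Tr.nd (Tr.nd Tr.lf (nat_lit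 4377) (nat_lit 547620766) (nat_lit 78033) Tr.lf) (nat_lit 1750) (nat_lit 389022725) (nat_lit 31849) (Tr.nd Tr.lf (nat_lit 4256) (nat_lit 967577186) (nat_lit 20206398652) Tr.lf))) (nat_lit 398) (nat_lit 0) (nat_lit 5241) (Tr.nd (Tr.nd (Tr.nd Tr.lf (nat_lit 3038) (nat_lit 0) (nat_lit 48089) Tr.lf) (nat_lit 1302) (nat_lit 0) (nat_lit 22729) (Tr.nd Tr.lf (nat_lit 2066) (nat_lit 3028) (nat_lit 8378401371) Tr.lf)) (nat_lit 160) (nat_lit 238027538) (nat_lit 3260) (Tr.nd (Tr.nd Tr.lf (nat_lit 530) (nat_lit 750257050) (nat_lit 527173190) Tr.lf) (nat_lit 1950) (nat_lit 502793897) (nat_lit 34049) Tr.lf)))) (nat_lit 141) (nat_lit 0) (nat_lit 2641) (Tr.nd (Tr.nd (Tr.nd (Tr.nd (Tr.nd Tr.lf (nat_lit 2580) (nat_lit 299369515) (nat_lit 46617) Tr.lf) (nat_lit 980) (nat_lit 0) (nat_lit 17817) (Tr.nd Tr.lf (nat_lit 2714) (nat_lit 821036666) (nat_lit 46729) Tr.lf)) (nat_lit 588) (nat_lit 0) (nat_lit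 1417) (Tr.nd (Tr.nd Tr.lf (nat_lit 3424) (nat_lit 691538469) (nat_lit 62012) Tr.lf) (nat_lit 1502) (nat_lit 357041385) (nat_lit 20441) (Tr.nd Tr.lf (nat_lit 5266) (nat_lit 863505580) (nat_lit 12958586139) Tr.lf))) (nat_lit 92) (nat_lit 87556349) (nat_lit 1481) (Tr.nd (Tr.nd (Tr.nd Tr.lf (nat_lit 2784) (nat_lit 624429365) (nat_lit 50492) Tr.lf) (nat_lit 1298) (nat_lit 0) (nat_lit 18137) (Tr.nd Tr.lf (nat_lit 1872) (nat_lit 459) (nat_lit 8957201211) Tr.lf)) (nat_lit 721) (nat_lit 0) (nat_lit 6809) (Tr.nd (Tr.nd Tr.lf (nat_lit 159) (nat_lit 492) (nat_lit 797182853) Tr.lf) (nat_lit 1944) (nat_lit 0) (nat_lit 31761) (Tr.nd Tr.lf (nat_lit 6865) (nat_lit 1018168225) (nat_lit 20810366905) Tr.lf)))) (nat_lit 220) (nat_lit 0) (nat_lit 3881) (Tr.nd (Tr.nd (Tr.nd (Tr.nd Tr.lf (nat_lit 2717) (nat_lit 0) (nat_lit 46721) Tr.lf) (nat_lit 1051) (nat_lit 322175974) (nat_lit 18961) (Tr.nd Tr.lf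 (nat_lit 1421) (nat_lit 223064269259446) (nat_lit 5306335634) Tr.lf)) (nat_lit 409) (nat_lit 187433453) (nat_lit 7665) (Tr.nd (Tr.nd Tr.lf (nat_lit 5137) (nat_lit 722469417) (nat_lit 7763) Tr.lf) (nat_lit 1809) (nat_lit 193724729) (nat_lit 32817) (Tr.nd Tr.lf (nat_lit 6738) (nat_lit 1501) (nat_lit 13537402299) Tr.lf))) (nat_lit 212) (nat_lit 118227286) (nat_lit 3993) (Tr.nd (Tr.nd (Tr.nd Tr.lf (nat_lit 3478) (nat_lit 384304389) (nat_lit 62953) Tr.lf) (nat_lit 986) (nat_lit 388236460) (nat_lit 17737) (Tr.nd Tr.lf (nat_lit 3035) (nat_lit 242855546719646) (nat_lit 47897) Tr.lf)) (nat_lit 913) (nat_lit 179306785) (nat_lit 16689) (Tr.nd (Tr.nd Tr.lf (nat_lit 2828) (nat_lit 207052562500394) (nat_lit 16481) Tr.lf) (nat_lit 2130) (nat_lit 419694025) (nat_lit 32057) Tr.lf))))) (nat_lit 83) (nat_lit 0) (nat_lit 1585) (Tr.nd (Tr.nd (Tr.nd (Tr.nd (Tr.nd (Tr.nd Tr.lf (nat_lit 2207) (nat_lit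 515376986) (nat_lit 35413) Tr.lf) (nat_lit 975) (nat_lit 65536042) (nat_lit 17753) (Tr.nd Tr.lf (nat_lit 1357) (nat_lit 213924540844892) (nat_lit 17929) Tr.lf)) (nat_lit 351) (nat_lit 145228282) (nat_lit 6497) (Tr.nd (Tr.nd Tr.lf (nat_lit 3552) (nat_lit 682887707) (nat_lit 64409) Tr.lf) (nat_lit 1120) (nat_lit 414713261) (nat_lit 20540) (Tr.nd Tr.lf (nat_lit 5208) (nat_lit 3130) (nat_lit 12931336885) Tr.lf))) (nat_lit 219) (nat_lit 79167574) (nat_lit 2634) (Tr.nd (Tr.nd (Tr.nd Tr.lf (nat_lit 2905) (nat_lit 526648982) (nat_lit 50481) Tr.lf) (nat_lit 1174) (nat_lit 0) (nat_lit 21481) (Tr.nd Tr.lf (nat_lit 1438) (nat_lit 1089) (nat_lit 5356406485) Tr.lf)) (nat_lit 716) (nat_lit 0) (nat_lit 1433) (Tr.nd (Tr.nd Tr.lf (nat_lit 94) (nat_lit 749470033) (nat_lit 444859971) Tr.lf) (nat_lit 1940) (nat_lit 355992614) (nat_lit 34041) (Tr.nd Tr.lf (nat_lit 1312) (nat_lit 18233126328043515681443537)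 (nat_lit 13562857913) Tr.lf)))) (nat_lit 207) (nat_lit 0) (nat_lit 3929) (Tr.nd (Tr.nd (Tr.nd (Tr.nd Tr.lf (nat_lit 2704) (nat_lit 219152867) (nat_lit 49145) Tr.lf) (nat_lit 1054) (nat_lit 300418161) (nat_lit 18977) (Tr.nd Tr.lf (nat_lit 1177) (nat_lit 1357) (nat_lit 5633229206) Tr.lf)) (nat_lit 88) (nat_lit 178782370) (nat_lit 1521) (Tr.nd (Tr.nd Tr.lf (nat_lit 4447) (nat_lit 708315754) (nat_lit 76877) Tr.lf) (nat_lit 1756) (nat_lit 0) (nat_lit 31529) (Tr.nd Tr.lf (nat_lit 5336) (nat_lit 17727831330942352460615066) (nat_lit 35613) Tr.lf))) (nat_lit 415) (nat_lit 0) (nat_lit 7649) (Tr.nd (Tr.nd (Tr.nd Tr.lf (nat_lit 3417) (nat_lit 460850897) (nat_lit 61809) Tr.lf) (nat_lit 1362) (nat_lit 0) (nat_lit 18233) (Tr.nd Tr.lf (nat_lit 1499) (nat_lit 62924533481901395292) (nat_lit 8303693593) Tr.lf)) (nat_lit 909) (nat_lit 98042022) (nat_lit 16465) (Tr.nd (Tr.nd Tr.lf (nat_lit 534) (nat_lit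 783813539) (nat_lit 2334398926) Tr.lf) (nat_lit 2074) (nat_lit 0) (nat_lit 33097) Tr.lf)))) (nat_lit 145) (nat_lit 0) (nat_lit 2865) (Tr.nd (Tr.nd (Tr.nd (Tr.nd (Tr.nd Tr.lf (nat_lit 2587) (nat_lit 450102910) (nat_lit 46609) Tr.lf) (nat_lit 988) (nat_lit 0) (nat_lit 17705) (Tr.nd Tr.lf (nat_lit 6732) (nat_lit 15017180791997184628231084) (nat_lit 8905) Tr.lf)) (nat_lit 277) (nat_lit 157811020) (nat_lit 5161) (Tr.nd (Tr.nd Tr.lf (nat_lit 4249) (nat_lit 483919657) (nat_lit 76785) Tr.lf) (nat_lit 1745) (nat_lit 80740484) (nat_lit 31665) (Tr.nd Tr.lf (nat_lit 5274) (nat_lit 967052546) (nat_lit 63153) Tr.lf))) (nat_lit 396) (nat_lit 0) (nat_lit 1393) (Tr.nd (Tr.nd (Tr.nd Tr.lf (nat_lit 2973) (nat_lit 0) (nat_lit 46929) Tr.lf) (nat_lit 991) (nat_lit 363595074) (nat_lit 18017) (Tr.nd Tr.lf (nat_lit 1936) (nat_lit 494) (nat_lit 9259191195) Tr.lf)) (nat_lit 725) (nat_lit 227541853) (nat_lit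 2109) (Tr.nd (Tr.nd Tr.lf (nat_lit 224) (nat_lit 902) (nat_lit 1156583730) Tr.lf) (nat_lit 2071) (nat_lit 0) (nat_lit 31841) (Tr.nd Tr.lf (nat_lit 7647) (nat_lit 18596749754185124028616218) (nat_lit 93212) Tr.lf)))) (nat_lit 269) (nat_lit 0) (nat_lit 3889) (Tr.nd (Tr.nd (Tr.nd (Tr.nd Tr.lf (nat_lit 2719) (nat_lit 0) (nat_lit 49121) Tr.lf) (nat_lit 1110) (nat_lit 0) (nat_lit 20329) (Tr.nd Tr.lf (nat_lit 3724) (nat_lit 59627879794184028897) (nat_lit 18997) Tr.lf)) (nat_lit 655) (nat_lit 0) (nat_lit 5657) (Tr.nd (Tr.nd Tr.lf (nat_lit 5142) (nat_lit 397935933) (nat_lit 91849) Tr.lf) (nat_lit 1816) (nat_lit 0) (nat_lit 31569) (Tr.nd Tr.lf (nat_lit 6800) (nat_lit 2779) (nat_lit 28058069019) Tr.lf))) (nat_lit 467) (nat_lit 106430475) (nat_lit 1785) (Tr.nd (Tr.nd (Tr.nd Tr.lf (nat_lit 3600) (nat_lit 149946915) (nat_lit 64217) Tr.lf) (nat_lit 1376) (nat_lit 0) (nat_lit 25241) (Tr.nd Tr.lf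 (nat_lit 2269) (nat_lit 909117029) (nat_lit 9587162331) Tr.lf)) (nat_lit 917) (nat_lit 0) (nat_lit 16681) (Tr.nd (Tr.nd Tr.lf (nat_lit 927) (nat_lit 800326988) (nat_lit 16773) Tr.lf) (nat_lit 2016) (nat_lit 531892163) (nat_lit 36761) Tr.lf))))))))

theorem chkS4_p0 : chkFrom origS4 zS4 20736 tS4 0 165 = true := by decide +kernel

theorem chkS4_p1 : chkFrom origS4 zS4 20736 tS4 165 165 = true := by decide +kernel

theorem chkS4_p2 : chkFrom origS4 zS4 20736 tS4 330 165 = true := by decide +kernel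

theorem chkS4 : chkFrom origS4 zS4 20736 tS4 0 495 = true := by
  have h0 : chkFrom origS4 zS4 20736 tS4 0 330 = true := chkFrom_add chkS4_p0 chkS4_p1 rfl rfl
  have h1 : chkFrom origS4 zS4 20736 tS4 0 495 = true := chkFrom_add h0 chkS4_p2 rfl rfl
  exact h1

theorem finS4 : fin tS4 20736 495 zS4 = true := by decide +kernel

end Pool.Agent.H68.Gal
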