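import Pool.Agent.H68.Gal.TK

/-!
# A verified checker for linear systems with trivial kernel over `ZMod 7`
-/

namespace Pool.Agent.H68.Gal

/-- Value of a row with coefficients in `ZMod 7`. -/
def ev7 (v : ℕ → ZMod 7) (r : List (ℕ × ℕ)) : ZMod 7 := (r.map fun p => (p.2 : ZMod 7) * v p.1).sum

/-- Insert an entry in a sorted row. -/
def insR (k c : ℕ) : List (ℕ × ℕ) → List (ℕ × ℕ)
  | [] => [(k, c)]
  | p :: t => bif Nat.blt k p.1 then (k, c) :: p :: t
      else bif Nat.blt p.1 k then p :: insR k c t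
      else bif Nat.beq ((c + p.2) % 7) 0 then t else (k, (c + p.2) % 7) :: t

/-- Test of a bit. -/
def tb (Z k : ℕ) : Bool := Nat.beq ((Z >>> k) % 2) 1

/-- Reduce a row of exponents to a sorted row modulo `7`, dropping the keys in `Z`. -/
def conv (Z : ℕ) : List (ℕ × ℕ) → List (ℕ × ℕ)
  | [] => []
  | p :: t => bif tb Z p.1 then conv Z t else insR p.1 (3 ^ p.2 % 7) (conv Z t)

/-- scale a row -/
def scR (c : ℕ) (r : List (ℕ × ℕ)) : List (ℕ × ℕ) := r.map fun p => (p.1, c * p.2 % 7)

/-- `addR f c r₁ r₂ = r₁ + c r₂` for sorted rows -/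
def addR : ℕ → ℕ → List (ℕ × ℕ) → List (ℕ × ℕ) → List (ℕ × ℕ)
  | 0, c, r₁, r₂ => r₁ ++ scR c r₂
  | _ + 1, c, [], r₂ => scR c r₂
  | _ + 1, _, p :: t, [] => p :: t
  | n + 1, c, p :: t, q :: s =>
      bif Nat.blt p.1 q.1 then p :: addR n c t (q :: s)
      else bif Nat.blt q.1 p.1 then (q.1, c * q.2 % 7) :: addR n c (p :: t) s
      else bif Nat.beq ((p.2 + c * q.2) % 7) 0 then addR n c t s
        else (p.1, (p.2 + c * q.2) % 7) :: addR n c t s

/-- digits in base `262144` -/
def dec : ℕ → ℕ → List ℕ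
  | 0, _ => []
  | f + 1, n => bif Nat.beq n 0 then [] else (n % 262144) :: dec f (n / 262144)

/-- decode a row -/
def decR (n : ℕ) : List (ℕ × ℕ) := (dec 200 n).map fun x => (x / 8, x % 8)

/-- binary tree of items `(a, s, r)`: `a` is the index of an original row, `s` the steps, `r` the
resulting row -/
inductive Tr
  | lf : Tr
  | nd (l : Tr) (a s r : ℕ) (t : Tr) : Tr

/-- look up -/
def Tr.get : Tr → ℕ → ℕ × ℕ × ℕ
  | .lf, _ => (0, 0, 0)
  | .nd l a s r t, n => bif Nat.ble n 1 then (a, s, r)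
      else bif Nat.beq (n % 2) 0 then l.get (n / 2) else t.get (n / 2)

/-- the `q`-th derived row -/
def Tr.row (T : Tr) (q : ℕ) : List (ℕ × ℕ) := decR (T.get (q + 1)).2.2

/-- apply the steps -/
def runSteps (T : Tr) (row : List (ℕ × ℕ)) (st : List ℕ) : List (ℕ × ℕ) :=
  st.foldl (fun row x => addR 1000 (x % 8) row (T.row (x / 8))) row

/-- equality of rows -/
def beqR : List (ℕ × ℕ) → List (ℕ × ℕ) → Bool
  | [], [] => true
  | p :: t, q :: s => Nat.beq p.1 q.1 && (Nat.beq p.2 q.2 && beqR t s)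
  | _, _ => false

/-- check of the `i`-th item -/
def chk (orig : ℕ → List (ℕ × ℕ)) (Z N : ℕ) (T : Tr) (i : ℕ) : Bool :=
  (orig (T.get (i + 1)).1).all (fun p => Nat.blt p.1 N) &&
  ((dec 200 (T.get (i + 1)).2.1).all (fun x => Nat.blt (x / 8) i) &&
  beqR (runSteps T (conv Z (orig (T.get (i + 1)).1)) (dec 200 (T.get (i + 1)).2.1)) (T.row i))

/-- check the items `i` with `a ≤ i < a + n` -/
def chkFrom (orig : ℕ → List (ℕ × ℕ)) (Z N : ℕ) (T : Tr) (a : ℕ) : ℕ → Bool
  | 0 => true
  | n + 1 => chk orig Z N T (a + n) && chkFrom orig Z N T a n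

/-- the final pass -/
def fin (T : Tr) (N : ℕ) : ℕ → ℕ → Bool
  | 0, Z => Nat.beq Z (2 ^ N - 1)
  | i + 1, Z => match (T.row i).filter (fun p => !(tb Z p.1)) with
    | [p] => !(Nat.beq (p.2 % 7) 0) && fin T N i (Z ||| (1 <<< p.1))
    | _ => false

/-! ### soundness -/

lemma bif_eq_ite' {α : Type*} (b : Bool) (x y : α) : (bif b then x else y) = if b then x else y := by
  cases b <;> rfl

lemma ev7_nil (v : ℕ → ZMod 7) : ev7 v [] = 0 := rfl

lemma ev7_cons (v : ℕ → ZMod 7) (p : ℕ × ℕ) (t : List (ℕ × ℕ)) :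
    ev7 v (p :: t) = (p.2 : ZMod 7) * v p.1 + ev7 v t := by simp [ev7]

lemma ev7_append (v : ℕ → ZMod 7) (s t : List (ℕ × ℕ)) :
    ev7 v (s ++ t) = ev7 v s + ev7 v t := by simp [ev7]

lemma cast_mod7 (a : ℕ) : ((a % 7 : ℕ) : ZMod 7) = (a : ZMod 7) := by simp

lemma ev7_insR (v : ℕ → ZMod 7) (k c : ℕ) (r : List (ℕ × ℕ)) :
    ev7 v (insR k c r) = (c : ZMod 7) * v k + ev7 v r := by
  induction r with
  | nil => simp [insR, ev7]
  | cons p t ih =>
    simp only [insR, bif_eq_ite']
    split_ifs with h1 h2 h3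
    · rw [ev7_cons]
    · rw [ev7_cons, ih, ev7_cons]; ring
    · have hk : k = p.1 := by
        simp only [Nat.blt_eq] at h1 h2; omega
      have h3' : ((c + p.2 : ℕ) : ZMod 7) = 0 := by
        rw [← cast_mod7, Nat.eq_of_beq_eq_true h3]; simp
      push_cast at h3'
      rw [ev7_cons, hk]
      linear_combination -(v p.1) * h3'
    · have hk : k = p.1 := by
        simp only [Nat.blt_eq] at h1 h2; omega
      rw [ev7_cons, ev7_cons, hk, cast_mod7]
      push_cast; ring

lemma ev7_scR (v : ℕ → ZMod 7) (c : ℕ) (r : List (ℕ × ℕ)) :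
    ev7 v (scR c r) = (c : ZMod 7) * ev7 v r := by
  induction r with
  | nil => simp [scR, ev7]
  | cons p t ih =>
    have : scR c (p :: t) = (p.1, c * p.2 % 7) :: scR c t := rfl
    rw [this, ev7_cons, ev7_cons, ih, cast_mod7]
    push_cast; ring

lemma ev7_addR (v : ℕ → ZMod 7) (n c : ℕ) (r₁ r₂ : List (ℕ × ℕ)) :
    ev7 v (addR n c r₁ r₂) = ev7 v r₁ + (c : ZMod 7) * ev7 v r₂ := by
  induction n generalizing r₁ r₂ with
  | zero => simp only [addR]; rw [ev7_append, ev7_scR]
  | succ n ih =>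
    rcases r₁ with _ | ⟨p, t⟩
    · simp only [addR]; rw [ev7_scR, ev7_nil]; ring
    · rcases r₂ with _ | ⟨q, s⟩
      · simp only [addR]; rw [ev7_nil]; ring
      · simp only [addR, bif_eq_ite']
        split_ifs with h1 h2 h3
        · rw [ev7_cons, ih, ev7_cons, ev7_cons]; ring
        · rw [ev7_cons, ih, ev7_cons, ev7_cons, cast_mod7]; push_cast; ring
        · have hk : p.1 = q.1 := by
            simp only [Nat.blt_eq] at h1 h2; omega
          have h3' : ((p.2 + c * q.2 : ℕ) : ZMod 7) = 0 := by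
            rw [← cast_mod7, Nat.eq_of_beq_eq_true h3]; simp
          push_cast at h3'
          rw [ih, ev7_cons, ev7_cons, hk]
          linear_combination -(v q.1) * h3'
        · have hk : p.1 = q.1 := by
            simp only [Nat.blt_eq] at h1 h2; omega
          rw [ev7_cons, ih, ev7_cons, ev7_cons, hk, cast_mod7]
          push_cast; ring

lemma tb_eq (Z k : ℕ) : tb Z k = Z.testBit k := by
  unfold tb
  rw [Nat.testBit_eq_decide_div_mod_eq, Nat.shiftRight_eq_div_pow]
  cases h : Nat.beq (Z / 2 ^ k % 2) 1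
  · have := Nat.ne_of_beq_eq_false h
    simp [this]
  · have := Nat.eq_of_beq_eq_true h
    simp [this]

lemma ev7_conv (v : ℕ → ZMod 7) (Z : ℕ) (hZ : ∀ i, tb Z i → v i = 0) (r : List (ℕ × ℕ)) :
    ev7 v (conv Z r) = rowEv 3 v r := by
  induction r with
  | nil => simp [conv, ev7, rowEv]
  | cons p t ih =>
    have hr : rowEv (3 : ZMod 7) v (p :: t) = 3 ^ p.2 * v p.1 + rowEv 3 v t := by simp [rowEv]
    simp only [conv, bif_eq_ite']
    split_ifs with h1
    · rw [ih, hr, hZ _ h1]; ring
    · rw [ev7_insR, ih, hr, cast_mod7]; push_cast; ring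

lemma beqR_eq {r s : List (ℕ × ℕ)} (h : beqR r s = true) : r = s := by
  induction r generalizing s with
  | nil => rcases s with _ | ⟨q, s⟩
           · rfl
           · simp [beqR] at h
  | cons p t ih =>
    rcases s with _ | ⟨q, s⟩
    · simp [beqR] at h
    · simp only [beqR, Bool.and_eq_true] at h
      have h1 := Nat.eq_of_beq_eq_true h.1
      have h2 := Nat.eq_of_beq_eq_true h.2.1
      rw [ih h.2.2]
      congr 1
      exact Prod.ext h1 h2

lemma ev7_runSteps (v : ℕ → ZMod 7) (T : Tr) (i : ℕ) (hT : ∀ q < i, ev7 v (T.row q) = 0)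
    (st : List ℕ) (hst : ∀ x ∈ st, x / 8 < i) (row : List (ℕ × ℕ)) :
    ev7 v (runSteps T row st) = ev7 v row := by
  unfold runSteps
  induction st generalizing row with
  | nil => rfl
  | cons x t ih =>
    rw [List.foldl_cons, ih (fun y hy => hst y (List.mem_cons_of_mem _ hy)), ev7_addR,
      hT _ (hst x List.mem_cons_self), mul_zero, add_zero]

lemma chkFrom_chk {orig : ℕ → List (ℕ × ℕ)} {Z N : ℕ} {T : Tr} {a n : ℕ}
    (h : chkFrom orig Z N T a n = true) : ∀ i, a ≤ i → i < a + n → chk orig Z N T i = true := by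
  induction n with
  | zero => intro i h1 h2; omega
  | succ n ih =>
    simp only [chkFrom, Bool.and_eq_true] at h
    intro i h1 h2
    rcases Nat.lt_or_ge i (a + n) with h3 | h3
    · exact ih h.2 i h1 h3
    · have : i = a + n := by omega
      rw [this]; exact h.1

/-- the original rows used by the certificate -/
def usedRows (orig : ℕ → List (ℕ × ℕ)) (T : Tr) (M : ℕ) : List (List (ℕ × ℕ)) :=
  (List.range M).map fun i => orig (T.get (i + 1)).1

lemma rows_zero {orig : ℕ → List (ℕ × ℕ)} {Z N M : ℕ} {T : Tr}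
    (h : ∀ i < M, chk orig Z N T i = true) (v : ℕ → ZMod 7)
    (hv : ∀ r ∈ usedRows orig T M, rowEv 3 v r = 0) (hZ : ∀ i, tb Z i → v i = 0) :
    ∀ i < M, ev7 v (T.row i) = 0 := by
  intro i
  induction i using Nat.strong_induction_on with
  | _ i ih =>
    intro hi
    have hc := h i hi
    simp only [chk, Bool.and_eq_true] at hc
    rw [← beqR_eq hc.2.2]
    rw [ev7_runSteps v T i (fun q hq => ih q hq (by omega)), ev7_conv v Z hZ]
    · apply hv
      unfold usedRows
      rw [List.mem_map]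
      exact ⟨i, by simpa using hi, rfl⟩
    · intro x hx
      have := (List.all_eq_true.mp hc.2.1) x hx
      simpa [Nat.blt_eq] using this

lemma fin_zero {T : Tr} {N : ℕ} (v : ℕ → ZMod 7) :
    ∀ (M Z : ℕ), fin T N M Z = true → (∀ i < M, ev7 v (T.row i) = 0) →
      (∀ i, tb Z i → v i = 0) → ∀ i < N, v i = 0 := by
  haveI : Fact (Nat.Prime 7) := ⟨by norm_num⟩
  intro M
  induction M with
  | zero =>
    intro Z h _ hZ i hi
    simp only [fin] at h
    have h' := Nat.eq_of_beq_eq_true h
    apply hZ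
    rw [h', tb_eq, Nat.testBit_two_pow_sub_one]
    simpa using hi
  | succ M ih =>
    intro Z h hrow hZ
    simp only [fin] at h
    split at h
    · rename_i p hp
      simp only [Bool.and_eq_true] at h
      have hc : ((p.2 : ℕ) : ZMod 7) ≠ 0 := by
        intro h0
        have h1 : (7 : ℕ) ∣ p.2 := (ZMod.natCast_eq_zero_iff _ _).mp h0
        have h2 : p.2 % 7 = 0 := Nat.mod_eq_zero_of_dvd h1
        simp [h2] at h
      have hvp : v p.1 = 0 := by
        have h1 := hrow M (Nat.lt_succ_self M)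
        have h2 : ∀ r : List (ℕ × ℕ), ev7 v r = ev7 v (r.filter (fun p => !(tb Z p.1))) := by
          intro r
          induction r with
          | nil => rfl
          | cons q t ih2 =>
            rw [ev7_cons, List.filter_cons]
            by_cases hq : tb Z q.1 = true
            · rw [hZ _ hq, ih2]; simp [hq]
            · simp only [Bool.not_eq_true] at hq
              simp only [hq, Bool.not_false, if_true]
              rw [ev7_cons, ih2]
        rw [h2, hp, ev7_cons, ev7_nil, add_zero] at h1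
        rcases mul_eq_zero.mp h1 with h3 | h3
        · exact absurd h3 hc
        · exact h3
      refine ih _ h.2 (fun i hi => hrow i (Nat.lt_succ_of_lt hi)) ?_
      intro i hi
      rw [tb_eq, Nat.testBit_or, Bool.or_eq_true] at hi
      rcases hi with hi | hi
      · exact hZ i (by rw [tb_eq]; exact hi)
      · rw [Nat.one_shiftLeft, Nat.testBit_two_pow] at hi
        have : p.1 = i := by simpa using hi
        rw [← this]; exact hvp
    · simp at h

/-- **Soundness of the checker.** -/
theorem TK_of_chk {orig : ℕ → List (ℕ × ℕ)} {Z N M : ℕ} {T : Tr}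
    (h : ∀ i < M, chk orig Z N T i = true) (hf : fin T N M Z = true) :
    TK (ZMod 7) 3 (usedRows orig T M) (fun i => tb Z i = true) N := by
  intro v hv hZ
  exact fin_zero v M Z hf (rows_zero h v hv hZ) hZ

lemma used_lt {orig : ℕ → List (ℕ × ℕ)} {Z N M : ℕ} {T : Tr}
    (h : ∀ i < M, chk orig Z N T i = true) : ∀ r ∈ usedRows orig T M, ∀ p ∈ r, p.1 < N := by
  intro r hr p hp
  unfold usedRows at hr
  rw [List.mem_map] at hr
  obtain ⟨i, hi, rfl⟩ := hr
  have hc := h i (by simpa using hi)
  simp only [chk, Bool.and_eq_true] at hc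
  have := (List.all_eq_true.mp hc.1) p hp
  simpa [Nat.blt_eq] using this

/-- The form in which the checker is used: a system all of whose rows come from `orig` has only
the zero solution over a field of characteristic zero. -/
theorem zero_of_chk {k : Type*} [Field k] [CharZero k] {u : k} (hu : u ^ 2 - u + 1 = 0)
    {orig : ℕ → List (ℕ × ℕ)} {Z N M : ℕ} {T : Tr}
    (h : ∀ i < M, chk orig Z N T i = true) (hf : fin T N M Z = true)
    (v : ℕ → k) (hv : ∀ i < M, rowEv u v (orig (T.get (i + 1)).1) = 0)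
    (hZ : ∀ i, tb Z i = true → v i = 0) : ∀ i < N, v i = 0 := by
  refine (TK.transfer hu (used_lt h) (TK_of_chk h hf)) v ?_ hZ
  intro r hr
  unfold usedRows at hr
  rw [List.mem_map] at hr
  obtain ⟨i, hi, rfl⟩ := hr
  exact hv i (by simpa using hi)

end Pool.Agent.H68.Gal
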