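import Mathlib

/-!
# An explicit ideal of colength 107 in 12 variables

`k` is a field and `w : k` a primitive cube root of unity (`w ^ 2 + w + 1 = 0`).  Twelve points
`P 0, ..., P 11` of the projective plane span nine lines with exactly three of them and four
lines with exactly four of them.  The ideal `I w` is generated by the squares `x_i ^ 2` and by the
quadrics `a x_j x_l + b x_i x_l + c x_i x_j` for `a P_i + b P_j + c P_l = 0`, `i < j < l`
(21 of these 25 quadrics are enough, and are listed here).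
-/

namespace Pool.Agent.H68.Gal

open MvPolynomial

variable {k : Type*} [Field k]

/-- The `33` quadrics in `x_0, ..., x_11` that generate the ideal `I w`. -/
noncomputable def gen (w : k) : Fin 33 → MvPolynomial (Fin 12) k :=
  ![X 0 ^ 2, X 1 ^ 2, X 2 ^ 2, X 3 ^ 2, X 4 ^ 2, X 5 ^ 2,
    X 6 ^ 2, X 7 ^ 2, X 8 ^ 2, X 9 ^ 2, X 10 ^ 2, X 11 ^ 2,
    X 1 * X 2 + X 0 * X 2 + X 0 * X 1,
    X 3 * X 6 + X 0 * X 6 + X 0 * X 3,
    X 4 * X 7 + C w * X 0 * X 7 + C (w ^ 2) * X 0 * X 4,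
    X 4 * X 11 - C (w ^ 2) * X 0 * X 11 - X 0 * X 4,
    X 7 * X 11 - C w * X 0 * X 11 + C w * X 0 * X 7,
    X 5 * X 10 - C w * X 0 * X 10 - X 0 * X 5,
    X 3 * X 11 - C w * X 1 * X 11 - C w * X 1 * X 3,
    X 4 * X 6 + X 1 * X 6 + C w * X 1 * X 4,
    X 5 * X 7 + C w * X 1 * X 7 + X 1 * X 5,
    X 5 * X 9 - C (w ^ 2) * X 1 * X 9 - C w * X 1 * X 5,
    X 7 * X 9 - C (w ^ 2) * X 1 * X 9 + C (w ^ 2) * X 1 * X 7,
    X 3 * X 7 + C w * X 2 * X 7 + C w * X 2 * X 3,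
    X 3 * X 10 - C (w ^ 2) * X 2 * X 10 - C (w ^ 2) * X 2 * X 3,
    X 7 * X 10 - X 2 * X 10 + X 2 * X 7,
    X 4 * X 9 - C w * X 2 * X 9 - C (w ^ 2) * X 2 * X 4,
    X 5 * X 6 + X 2 * X 6 + C (w ^ 2) * X 2 * X 5,
    X 4 * X 5 + X 3 * X 5 + X 3 * X 4,
    X 4 * X 8 - C w * X 3 * X 8 + C (w ^ 2) * X 3 * X 4,
    X 5 * X 8 - C (w ^ 2) * X 3 * X 8 - X 3 * X 5,
    X 7 * X 8 - C (w ^ 2) * X 6 * X 8 - C (w ^ 2) * X 6 * X 7,
    X 10 * X 11 + C w * X 9 * X 11 + C (w ^ 2) * X 9 * X 10]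

/-- The ideal generated by the `33` quadrics `gen w`. -/
noncomputable def I (w : k) : Ideal (MvPolynomial (Fin 12) k) :=
  Ideal.span (Set.range (gen w))

end Pool.Agent.H68.Gal
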