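import Pool.Agent.H68.Gal.Sem
import Pool.Agent.H68.Gal.Defs

/-!
# Checked facts on the tables
-/

namespace Pool.Agent.H68.Gal

open MvPolynomial

/-- the generators as lists -/
def genL (j : ℕ) : List (List ℕ × ℕ) := decF 2 (genT.getD j 0)

/-- the functionals of degree `2` -/
def F2L (y : ℕ) : List (List ℕ × ℕ) := decF 2 (f2T.getD y 0)

/-- the functionals of degree `3` -/
def F3L (z : ℕ) : List (List ℕ × ℕ) := decF 3 (f3T.getD z 0)

/-- the syzygies -/
def synL (s : ℕ) : List (ℕ × ℕ × ℕ) := decS (syzT.getD s 0)

/-- test that a list is strictly increasing, of length `d`, with entries smaller than `12` -/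
def inc : ℕ → List ℕ → Bool
  | 0, [] => true
  | 1, [a] => Nat.blt a 12
  | d + 2, a :: b :: t => Nat.blt a b && inc (d + 1) (b :: t)
  | _, _ => false

/-- sorted insertion -/
def insS (a : ℕ) : List ℕ → List ℕ
  | [] => [a]
  | b :: t => bif Nat.blt a b then a :: b :: t else b :: insS a t

/-- expansion of a syzygy -/
def expandS : List (ℕ × ℕ × ℕ) → List (List ℕ × ℕ)
  | [] => []
  | s :: t => ((genL s.2.1).map fun q => (insS s.1 q.1, s.2.2 + q.2)) ++ expandS t

/-- all `i < n` satisfy `p` -/
def allN (p : ℕ → Bool) : ℕ → Bool
  | 0 => true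
  | n + 1 => p n && allN p n

lemma allN_spec {p : ℕ → Bool} {n : ℕ} (h : allN p n = true) : ∀ i < n, p i = true := by
  induction n with
  | zero => intro i hi; omega
  | succ n ih =>
    simp only [allN, Bool.and_eq_true] at h
    intro i hi
    rcases Nat.lt_or_ge i n with h1 | h1
    · exact ih h.2 i h1
    · have : i = n := by omega
      rw [this]; exact h.1

lemma allN_add {p : ℕ → Bool} {m n s : ℕ} (h1 : allN p m = true)
    (h2 : allN (fun i => p (m + i)) n = true) (hs : s = m + n) : allN p s = true := by
  subst hs
  induction n with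
  | zero => exact h1
  | succ n ih =>
    simp only [allN, Bool.and_eq_true] at h2
    rw [← Nat.add_assoc]
    simp only [allN, Bool.and_eq_true]
    exact ⟨h2.1, ih h2.2⟩

/-- all entries smaller than 12 -/
def okB (m : List ℕ) : Bool := m.all fun a => Nat.blt a 12

lemma okB_ok {m : List ℕ} (h : okB m = true) : ok m := by
  intro a ha
  have := (List.all_eq_true.mp h) a ha
  simpa [Nat.blt_eq] using this

/-- the basis monomials -/
def basL : List (List ℕ) :=
  [] :: ((List.range 12).map fun i => [i]) ++ ((List.range 45).map fun y => ((F2L y).headD ([], 0)).1)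
    ++ ((List.range 49).map fun z => ((F3L z).headD ([], 0)).1)

/-- the dual functionals -/
def dualL : List (List (List ℕ × ℕ)) :=
  [([], 0)] :: ((List.range 12).map fun i => [([i], 0)]) ++ ((List.range 45).map fun y => F2L y)
    ++ ((List.range 49).map fun z => F3L z)

/-- membership -/
def memL (m : List ℕ) : List (List ℕ) → Bool
  | [] => false
  | b :: t => beqL m b || memL m t

/-- generators: valid, and of degree 2 -/
def chkGen (j : ℕ) : Bool :=
  (genL j).all fun q => okB q.1 && Nat.beq q.1.length 2

theorem chkGen_true : allN chkGen 33 = true := by decide +kernel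

def chkSyn (s : ℕ) : Bool :=
  (synL s).all (fun q => Nat.blt q.1 12 && Nat.blt q.2.1 33) && chkZ 40 (expandS (synL s))

theorem chkSyn_true_p0 : allN chkSyn 21 = true := by decide +kernel

theorem chkSyn_true_p1 : allN (fun i => chkSyn (21 + i)) 20 = true := by decide +kernel

theorem chkSyn_true_p2 : allN (fun i => chkSyn (41 + i)) 20 = true := by decide +kernel

theorem chkSyn_true_p3 : allN (fun i => chkSyn (61 + i)) 20 = true := by decide +kernel

theorem chkSyn_true : allN chkSyn 81 = true := by
  have h1 : allN chkSyn 41 = true := allN_add chkSyn_true_p0 chkSyn_true_p1 rfl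
  have h2 : allN chkSyn 61 = true := allN_add h1 chkSyn_true_p2 rfl
  have h3 : allN chkSyn 81 = true := allN_add h2 chkSyn_true_p3 rfl
  exact h3

def chkF2 (y : ℕ) : Bool :=
  (F2L y).all (fun q => inc 2 q.1) && allN (fun j => chkZ 5 (contr (F2L y) (genL j))) 33

theorem chkF2_true_p0 : allN chkF2 23 = true := by decide +kernel

theorem chkF2_true_p1 : allN (fun i => chkF2 (23 + i)) 22 = true := by decide +kernel

theorem chkF2_true : allN chkF2 45 = true := by
  have h1 : allN chkF2 45 = true := allN_add chkF2_true_p0 chkF2_true_p1 rfl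
  exact h1

def chkF3 (z : ℕ) : Bool :=
  (F3L z).all (fun q => inc 3 q.1) && allN (fun j => chkZ 15 (contr (F3L z) (genL j))) 33

theorem chkF3_true_p0 : allN chkF3 5 = true := by decide +kernel

theorem chkF3_true_p1 : allN (fun i => chkF3 (5 + i)) 5 = true := by decide +kernel

theorem chkF3_true_p2 : allN (fun i => chkF3 (10 + i)) 5 = true := by decide +kernel

theorem chkF3_true_p3 : allN (fun i => chkF3 (15 + i)) 5 = true := by decide +kernel

theorem chkF3_true_p4 : allN (fun i => chkF3 (20 + i)) 5 = true := by decide +kernel

theorem chkF3_true_p5 : allN (fun i => chkF3 (25 + i)) 5 = true := by decide +kernel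

theorem chkF3_true_p6 : allN (fun i => chkF3 (30 + i)) 5 = true := by decide +kernel

theorem chkF3_true_p7 : allN (fun i => chkF3 (35 + i)) 5 = true := by decide +kernel

theorem chkF3_true_p8 : allN (fun i => chkF3 (40 + i)) 5 = true := by decide +kernel

theorem chkF3_true_p9 : allN (fun i => chkF3 (45 + i)) 4 = true := by decide +kernel

theorem chkF3_true : allN chkF3 49 = true := by
  have h1 : allN chkF3 10 = true := allN_add chkF3_true_p0 chkF3_true_p1 rfl
  have h2 : allN chkF3 15 = true := allN_add h1 chkF3_true_p2 rfl
  have h3 : allN chkF3 20 = true := allN_add h2 chkF3_true_p3 rfl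
  have h4 : allN chkF3 25 = true := allN_add h3 chkF3_true_p4 rfl
  have h5 : allN chkF3 30 = true := allN_add h4 chkF3_true_p5 rfl
  have h6 : allN chkF3 35 = true := allN_add h5 chkF3_true_p6 rfl
  have h7 : allN chkF3 40 = true := allN_add h6 chkF3_true_p7 rfl
  have h8 : allN chkF3 45 = true := allN_add h7 chkF3_true_p8 rfl
  have h9 : allN chkF3 49 = true := allN_add h8 chkF3_true_p9 rfl
  exact h9

/-- duality: the head of each functional is its basis monomial with coefficient one, and the other
monomials are not basis monomials -/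
def chkD (F : List (List ℕ × ℕ)) : Bool :=
  match F with
  | [] => false
  | q :: t => Nat.beq q.2 0 && t.all fun r => !(memL r.1 basL)

theorem chkD2_true_p0 : allN (fun i => chkD (F2L i)) 15 = true := by decide +kernel

theorem chkD2_true_p1 : allN (fun i => chkD (F2L (15 + i))) 15 = true := by decide +kernel

theorem chkD2_true_p2 : allN (fun i => chkD (F2L (30 + i))) 15 = true := by decide +kernel

theorem chkD2_true : allN (fun i => chkD (F2L i)) 45 = true := by
  have h1 : allN (fun i => chkD (F2L i)) 30 = true := allN_add chkD2_true_p0 chkD2_true_p1 rfl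
  have h2 : allN (fun i => chkD (F2L i)) 45 = true := allN_add h1 chkD2_true_p2 rfl
  exact h2

theorem chkD3_true_p0 : allN (fun i => chkD (F3L i)) 13 = true := by decide +kernel

theorem chkD3_true_p1 : allN (fun i => chkD (F3L (13 + i))) 12 = true := by decide +kernel

theorem chkD3_true_p2 : allN (fun i => chkD (F3L (25 + i))) 12 = true := by decide +kernel

theorem chkD3_true_p3 : allN (fun i => chkD (F3L (37 + i))) 12 = true := by decide +kernel

theorem chkD3_true : allN (fun i => chkD (F3L i)) 49 = true := by
  have h1 : allN (fun i => chkD (F3L i)) 25 = true := allN_add chkD3_true_p0 chkD3_true_p1 rfl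
  have h2 : allN (fun i => chkD (F3L i)) 37 = true := allN_add h1 chkD3_true_p2 rfl
  have h3 : allN (fun i => chkD (F3L i)) 49 = true := allN_add h2 chkD3_true_p3 rfl
  exact h3

theorem chkD_true : dualL.all chkD = true := by
  have h0 : chkD [([], 0)] = true := by decide +kernel
  have h1 : allN (fun i => chkD [([i], 0)]) 12 = true := by decide +kernel
  rw [List.all_eq_true]
  intro F hF
  unfold dualL at hF
  simp only [List.cons_append, List.mem_cons, List.mem_append, List.mem_map, List.mem_range] at hF
  rcases hF with rfl | (⟨i, hi, rfl⟩ | ⟨y, hy, rfl⟩) | ⟨z, hz, rfl⟩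
  · exact h0
  · exact allN_spec h1 i hi
  · exact allN_spec chkD2_true y hy
  · exact allN_spec chkD3_true z hz

/-- the basis monomials are distinct, increasing -/
def nodupL : List (List ℕ) → Bool
  | [] => true
  | b :: t => !(memL b t) && nodupL t

theorem basL_nodup : nodupL basL = true := by decide +kernel

theorem basL_length : basL.length = 107 := by decide +kernel

theorem basL_inc : basL.all (fun m => Nat.ble m.length 3 && inc m.length m) = true := by
  decide +kernel

end Pool.Agent.H68.Gal
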