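import Pool.Agent.H68.Gal.Facts

/-!
# The generators agree with the tables
-/

namespace Pool.Agent.H68.Gal

open MvPolynomial

variable {k : Type*} [Field k]

set_option linter.unusedSimpArgs false
set_option linter.unusedVariables false

lemma genL_0 : genL 0 = [([0, 0], 0)] := by decide +kernel
lemma genL_1 : genL 1 = [([1, 1], 0)] := by decide +kernel
lemma genL_2 : genL 2 = [([2, 2], 0)] := by decide +kernel
lemma genL_3 : genL 3 = [([3, 3], 0)] := by decide +kernel
lemma genL_4 : genL 4 = [([4, 4], 0)] := by decide +kernel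
lemma genL_5 : genL 5 = [([5, 5], 0)] := by decide +kernel
lemma genL_6 : genL 6 = [([6, 6], 0)] := by decide +kernel
lemma genL_7 : genL 7 = [([7, 7], 0)] := by decide +kernel
lemma genL_8 : genL 8 = [([8, 8], 0)] := by decide +kernel
lemma genL_9 : genL 9 = [([9, 9], 0)] := by decide +kernel
lemma genL_10 : genL 10 = [([10, 10], 0)] := by decide +kernel
lemma genL_11 : genL 11 = [([11, 11], 0)] := by decide +kernel
lemma genL_12 : genL 12 = [([1, 2], 0), ([0, 2], 0), ([0, 1], 0)] := by decide +kernel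
lemma genL_13 : genL 13 = [([3, 6], 0), ([0, 6], 0), ([0, 3], 0)] := by decide +kernel
lemma genL_14 : genL 14 = [([4, 7], 0), ([0, 7], 4), ([0, 4], 2)] := by decide +kernel
lemma genL_15 : genL 15 = [([4, 11], 0), ([0, 11], 5), ([0, 4], 3)] := by decide +kernel
lemma genL_16 : genL 16 = [([7, 11], 0), ([0, 11], 1), ([0, 7], 4)] := by decide +kernel
lemma genL_17 : genL 17 = [([5, 10], 0), ([0, 10], 1), ([0, 5], 3)] := by decide +kernel
lemma genL_18 : genL 18 = [([3, 11], 0), ([1, 11], 1), ([1, 3], 1)] := by decide +kernel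
lemma genL_19 : genL 19 = [([4, 6], 0), ([1, 6], 0), ([1, 4], 4)] := by decide +kernel
lemma genL_20 : genL 20 = [([5, 7], 0), ([1, 7], 4), ([1, 5], 0)] := by decide +kernel
lemma genL_21 : genL 21 = [([5, 9], 0), ([1, 9], 5), ([1, 5], 1)] := by decide +kernel
lemma genL_22 : genL 22 = [([7, 9], 0), ([1, 9], 5), ([1, 7], 2)] := by decide +kernel
lemma genL_23 : genL 23 = [([3, 7], 0), ([2, 7], 4), ([2, 3], 4)] := by decide +kernel
lemma genL_24 : genL 24 = [([3, 10], 0), ([2, 10], 5), ([2, 3], 5)] := by decide +kernel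
lemma genL_25 : genL 25 = [([7, 10], 0), ([2, 10], 3), ([2, 7], 0)] := by decide +kernel
lemma genL_26 : genL 26 = [([4, 9], 0), ([2, 9], 1), ([2, 4], 5)] := by decide +kernel
lemma genL_27 : genL 27 = [([5, 6], 0), ([2, 6], 0), ([2, 5], 2)] := by decide +kernel
lemma genL_28 : genL 28 = [([4, 5], 0), ([3, 5], 0), ([3, 4], 0)] := by decide +kernel
lemma genL_29 : genL 29 = [([4, 8], 0), ([3, 8], 1), ([3, 4], 2)] := by decide +kernel
lemma genL_30 : genL 30 = [([5, 8], 0), ([3, 8], 5), ([3, 5], 3)] := by decide +kernel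
lemma genL_31 : genL 31 = [([7, 8], 0), ([6, 8], 5), ([6, 7], 5)] := by decide +kernel
lemma genL_32 : genL 32 = [([10, 11], 0), ([9, 11], 4), ([9, 10], 2)] := by decide +kernel

lemma gen_eq {w : k} (hw : w ^ 2 + w + 1 = 0) (j : Fin 33) :
    gen w j = poly (-w) (genL j) := by
  have e3 : (-w) ^ 3 = -1 := by linear_combination -(w - 1) * hw
  have e4 : (-w) ^ 4 = w := by linear_combination (w ^ 2 - w) * hw
  have e5 : (-w) ^ 5 = -w ^ 2 := by linear_combination -(w ^ 3 - w ^ 2) * hw
  have e2 : (-w) ^ 2 = w ^ 2 := by ring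
  have x0 : xv k 0 = X 0 := rfl
  have x1 : xv k 1 = X 1 := rfl
  have x2 : xv k 2 = X 2 := rfl
  have x3 : xv k 3 = X 3 := rfl
  have x4 : xv k 4 = X 4 := rfl
  have x5 : xv k 5 = X 5 := rfl
  have x6 : xv k 6 = X 6 := rfl
  have x7 : xv k 7 = X 7 := rfl
  have x8 : xv k 8 = X 8 := rfl
  have x9 : xv k 9 = X 9 := rfl
  have x10 : xv k 10 = X 10 := rfl
  have x11 : xv k 11 = X 11 := rfl
  fin_cases j
  · show _ = poly (-w) (genL 0); rw [genL_0]; simp only [poly_cons, poly_nil, mon_cons, mon_nil, e2, e3, e4, e5, pow_zero, pow_one, map_neg, map_one, x0, x1, x2, x3, x4, x5, x6, x7, x8, x9, x10, x11]; simp only [gen]; simp; ring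
  · show _ = poly (-w) (genL 1); rw [genL_1]; simp only [poly_cons, poly_nil, mon_cons, mon_nil, e2, e3, e4, e5, pow_zero, pow_one, map_neg, map_one, x0, x1, x2, x3, x4, x5, x6, x7, x8, x9, x10, x11]; simp only [gen]; simp; ring
  · show _ = poly (-w) (genL 2); rw [genL_2]; simp only [poly_cons, poly_nil, mon_cons, mon_nil, e2, e3, e4, e5, pow_zero, pow_one, map_neg, map_one, x0, x1, x2, x3, x4, x5, x6, x7, x8, x9, x10, x11]; simp only [gen]; simp; ring
  · show _ = poly (-w) (genL 3); rw [genL_3]; simp only [poly_cons, poly_nil, mon_cons, mon_nil, e2, e3, e4, e5, pow_zero, pow_one, map_neg, map_one, x0, x1, x2, x3, x4, x5, x6, x7, x8, x9, x10, x11]; simp only [gen]; simp; ring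
  · show _ = poly (-w) (genL 4); rw [genL_4]; simp only [poly_cons, poly_nil, mon_cons, mon_nil, e2, e3, e4, e5, pow_zero, pow_one, map_neg, map_one, x0, x1, x2, x3, x4, x5, x6, x7, x8, x9, x10, x11]; simp only [gen]; simp; ring
  · show _ = poly (-w) (genL 5); rw [genL_5]; simp only [poly_cons, poly_nil, mon_cons, mon_nil, e2, e3, e4, e5, pow_zero, pow_one, map_neg, map_one, x0, x1, x2, x3, x4, x5, x6, x7, x8, x9, x10, x11]; simp only [gen]; simp; ring
  · show _ = poly (-w) (genL 6); rw [genL_6]; simp only [poly_cons, poly_nil, mon_cons, mon_nil, e2, e3, e4, e5, pow_zero, pow_one, map_neg, map_one, x0, x1, x2, x3, x4, x5, x6, x7, x8, x9, x10, x11]; simp only [gen]; simp; ring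
  · show _ = poly (-w) (genL 7); rw [genL_7]; simp only [poly_cons, poly_nil, mon_cons, mon_nil, e2, e3, e4, e5, pow_zero, pow_one, map_neg, map_one, x0, x1, x2, x3, x4, x5, x6, x7, x8, x9, x10, x11]; simp only [gen]; simp; ring
  · show _ = poly (-w) (genL 8); rw [genL_8]; simp only [poly_cons, poly_nil, mon_cons, mon_nil, e2, e3, e4, e5, pow_zero, pow_one, map_neg, map_one, x0, x1, x2, x3, x4, x5, x6, x7, x8, x9, x10, x11]; simp only [gen]; simp; ring
  · show _ = poly (-w) (genL 9); rw [genL_9]; simp only [poly_cons, poly_nil, mon_cons, mon_nil, e2, e3, e4, e5, pow_zero, pow_one, map_neg, map_one, x0, x1, x2, x3, x4, x5, x6, x7, x8, x9, x10, x11]; simp only [gen]; simp; ring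
  · show _ = poly (-w) (genL 10); rw [genL_10]; simp only [poly_cons, poly_nil, mon_cons, mon_nil, e2, e3, e4, e5, pow_zero, pow_one, map_neg, map_one, x0, x1, x2, x3, x4, x5, x6, x7, x8, x9, x10, x11]; simp only [gen]; simp; ring
  · show _ = poly (-w) (genL 11); rw [genL_11]; simp only [poly_cons, poly_nil, mon_cons, mon_nil, e2, e3, e4, e5, pow_zero, pow_one, map_neg, map_one, x0, x1, x2, x3, x4, x5, x6, x7, x8, x9, x10, x11]; simp only [gen]; simp; ring
  · show _ = poly (-w) (genL 12); rw [genL_12]; simp only [poly_cons, poly_nil, mon_cons, mon_nil, e2, e3, e4, e5, pow_zero, pow_one, map_neg, map_one, x0, x1, x2, x3, x4, x5, x6, x7, x8, x9, x10, x11]; simp only [gen]; simp; ring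
  · show _ = poly (-w) (genL 13); rw [genL_13]; simp only [poly_cons, poly_nil, mon_cons, mon_nil, e2, e3, e4, e5, pow_zero, pow_one, map_neg, map_one, x0, x1, x2, x3, x4, x5, x6, x7, x8, x9, x10, x11]; simp only [gen]; simp; ring
  · show _ = poly (-w) (genL 14); rw [genL_14]; simp only [poly_cons, poly_nil, mon_cons, mon_nil, e2, e3, e4, e5, pow_zero, pow_one, map_neg, map_one, x0, x1, x2, x3, x4, x5, x6, x7, x8, x9, x10, x11]; simp only [gen]; simp; ring
  · show _ = poly (-w) (genL 15); rw [genL_15]; simp only [poly_cons, poly_nil, mon_cons, mon_nil, e2, e3, e4, e5, pow_zero, pow_one, map_neg, map_one, x0, x1, x2, x3, x4, x5, x6, x7, x8, x9, x10, x11]; simp only [gen]; simp; ring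
  · show _ = poly (-w) (genL 16); rw [genL_16]; simp only [poly_cons, poly_nil, mon_cons, mon_nil, e2, e3, e4, e5, pow_zero, pow_one, map_neg, map_one, x0, x1, x2, x3, x4, x5, x6, x7, x8, x9, x10, x11]; simp only [gen]; simp; ring
  · show _ = poly (-w) (genL 17); rw [genL_17]; simp only [poly_cons, poly_nil, mon_cons, mon_nil, e2, e3, e4, e5, pow_zero, pow_one, map_neg, map_one, x0, x1, x2, x3, x4, x5, x6, x7, x8, x9, x10, x11]; simp only [gen]; simp; ring
  · show _ = poly (-w) (genL 18); rw [genL_18]; simp only [poly_cons, poly_nil, mon_cons, mon_nil, e2, e3, e4, e5, pow_zero, pow_one, map_neg, map_one, x0, x1, x2, x3, x4, x5, x6, x7, x8, x9, x10, x11]; simp only [gen]; simp; ring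
  · show _ = poly (-w) (genL 19); rw [genL_19]; simp only [poly_cons, poly_nil, mon_cons, mon_nil, e2, e3, e4, e5, pow_zero, pow_one, map_neg, map_one, x0, x1, x2, x3, x4, x5, x6, x7, x8, x9, x10, x11]; simp only [gen]; simp; ring
  · show _ = poly (-w) (genL 20); rw [genL_20]; simp only [poly_cons, poly_nil, mon_cons, mon_nil, e2, e3, e4, e5, pow_zero, pow_one, map_neg, map_one, x0, x1, x2, x3, x4, x5, x6, x7, x8, x9, x10, x11]; simp only [gen]; simp; ring
  · show _ = poly (-w) (genL 21); rw [genL_21]; simp only [poly_cons, poly_nil, mon_cons, mon_nil, e2, e3, e4, e5, pow_zero, pow_one, map_neg, map_one, x0, x1, x2, x3, x4, x5, x6, x7, x8, x9, x10, x11]; simp only [gen]; simp; ring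
  · show _ = poly (-w) (genL 22); rw [genL_22]; simp only [poly_cons, poly_nil, mon_cons, mon_nil, e2, e3, e4, e5, pow_zero, pow_one, map_neg, map_one, x0, x1, x2, x3, x4, x5, x6, x7, x8, x9, x10, x11]; simp only [gen]; simp; ring
  · show _ = poly (-w) (genL 23); rw [genL_23]; simp only [poly_cons, poly_nil, mon_cons, mon_nil, e2, e3, e4, e5, pow_zero, pow_one, map_neg, map_one, x0, x1, x2, x3, x4, x5, x6, x7, x8, x9, x10, x11]; simp only [gen]; simp; ring
  · show _ = poly (-w) (genL 24); rw [genL_24]; simp only [poly_cons, poly_nil, mon_cons, mon_nil, e2, e3, e4, e5, pow_zero, pow_one, map_neg, map_one, x0, x1, x2, x3, x4, x5, x6, x7, x8, x9, x10, x11]; simp only [gen]; simp; ring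
  · show _ = poly (-w) (genL 25); rw [genL_25]; simp only [poly_cons, poly_nil, mon_cons, mon_nil, e2, e3, e4, e5, pow_zero, pow_one, map_neg, map_one, x0, x1, x2, x3, x4, x5, x6, x7, x8, x9, x10, x11]; simp only [gen]; simp; ring
  · show _ = poly (-w) (genL 26); rw [genL_26]; simp only [poly_cons, poly_nil, mon_cons, mon_nil, e2, e3, e4, e5, pow_zero, pow_one, map_neg, map_one, x0, x1, x2, x3, x4, x5, x6, x7, x8, x9, x10, x11]; simp only [gen]; simp; ring
  · show _ = poly (-w) (genL 27); rw [genL_27]; simp only [poly_cons, poly_nil, mon_cons, mon_nil, e2, e3, e4, e5, pow_zero, pow_one, map_neg, map_one, x0, x1, x2, x3, x4, x5, x6, x7, x8, x9, x10, x11]; simp only [gen]; simp; ring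
  · show _ = poly (-w) (genL 28); rw [genL_28]; simp only [poly_cons, poly_nil, mon_cons, mon_nil, e2, e3, e4, e5, pow_zero, pow_one, map_neg, map_one, x0, x1, x2, x3, x4, x5, x6, x7, x8, x9, x10, x11]; simp only [gen]; simp; ring
  · show _ = poly (-w) (genL 29); rw [genL_29]; simp only [poly_cons, poly_nil, mon_cons, mon_nil, e2, e3, e4, e5, pow_zero, pow_one, map_neg, map_one, x0, x1, x2, x3, x4, x5, x6, x7, x8, x9, x10, x11]; simp only [gen]; simp; ring
  · show _ = poly (-w) (genL 30); rw [genL_30]; simp only [poly_cons, poly_nil, mon_cons, mon_nil, e2, e3, e4, e5, pow_zero, pow_one, map_neg, map_one, x0, x1, x2, x3, x4, x5, x6, x7, x8, x9, x10, x11]; simp only [gen]; simp; ring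
  · show _ = poly (-w) (genL 31); rw [genL_31]; simp only [poly_cons, poly_nil, mon_cons, mon_nil, e2, e3, e4, e5, pow_zero, pow_one, map_neg, map_one, x0, x1, x2, x3, x4, x5, x6, x7, x8, x9, x10, x11]; simp only [gen]; simp; ring
  · show _ = poly (-w) (genL 32); rw [genL_32]; simp only [poly_cons, poly_nil, mon_cons, mon_nil, e2, e3, e4, e5, pow_zero, pow_one, map_neg, map_one, x0, x1, x2, x3, x4, x5, x6, x7, x8, x9, x10, x11]; simp only [gen]; simp; ring

end Pool.Agent.H68.Gal
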