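import Pool.Agent.H68.Gal.Rigid
import Pool.Agent.H7.HilbEx2

/-!
# Small facts used in the final assembly
-/

namespace Pool.Agent.H68.Gal

open MvPolynomial

variable {k : Type*} [Field k]

/-- homogeneous components of elements of the ideal -/
theorem hom {w : k} (hw : w ^ 2 + w + 1 = 0) :
    ∀ f ∈ I w, ∀ e, homogeneousComponent e f ∈ I w := by
  intro f hf e
  apply Pool.H7.HilbRigid.homogeneousComponent_mem_span _ f hf e
  rintro _ ⟨j, rfl⟩
  exact ⟨2, gen_homogeneous hw j⟩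

/-- the pairs of `basisList` are basis monomials -/
theorem bas_pairs : ∀ p ∈ Pool.H7.HilbEx.basisList, ∃ j : Fin 107,
    bas j = Finsupp.single p.1 1 + Finsupp.single p.2 1 := by
  have hc : Pool.H7.HilbEx.basisList.all
      (fun p => memL [(p.1 : ℕ), (p.2 : ℕ)] basL) = true := by decide +kernel
  intro p hp
  have h1 := (List.all_eq_true.mp hc) p hp
  rw [memL_iff] at h1
  obtain ⟨n, hn⟩ := List.get_of_mem h1
  have hlt : (n : ℕ) < 107 := by rw [← basL_length]; exact n.2
  refine ⟨⟨n, hlt⟩, ?_⟩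
  have h2 : bas ⟨n, hlt⟩ = expo [(p.1 : ℕ), (p.2 : ℕ)] := by
    unfold bas
    rw [List.getD_eq_getElem _ _ n.2]
    rw [← hn]; rfl
  have e1 : Fin.ofNat 12 (p.1 : ℕ) = p.1 := by simp
  have e2 : Fin.ofNat 12 (p.2 : ℕ) = p.2 := by simp
  rw [h2, expo_cons, expo_cons, expo_nil, add_zero, e1, e2]

end Pool.Agent.H68.Gal
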