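import Pool.Agent.H68.Gal.Basis

/-!
# Representatives of degree at most two
-/

namespace Pool.Agent.H68.Gal

open MvPolynomial

variable {k : Type*} [Field k]

/-- span of the basis monomials of degree at most `2` -/
noncomputable def W2 (k : Type*) [Field k] : Submodule k (MvPolynomial (Fin 12) k) :=
  Submodule.span k {f | ∃ m ∈ basL, m.length ≤ 2 ∧ f = mon k m}

lemma mon_mem_W2 {m : List ℕ} (hm : m ∈ basL) (hl : m.length ≤ 2) : mon k m ∈ W2 k :=
  Submodule.subset_span ⟨m, hm, hl, rfl⟩

lemma W2_coeff {h : MvPolynomial (Fin 12) k} (hh : h ∈ W2 k) {e : Fin 12 →₀ ℕ}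
    (he : coeff e h ≠ 0) : ∃ m ∈ basL, m.length ≤ 2 ∧ expo m = e := by
  by_contra hc
  apply he
  refine Submodule.span_induction (p := fun f _ => coeff e f = 0) ?_ ?_ ?_ ?_ hh
  · rintro _ ⟨m, hm, hl, rfl⟩
    rw [mon, coeff_monomial, if_neg]
    intro h1
    exact hc ⟨m, hm, hl, h1⟩
  · exact coeff_zero _
  · intro a b _ _ ha hb
    rw [coeff_add, ha, hb, add_zero]
  · intro c a _ ha
    rw [coeff_smul, ha, smul_zero]

lemma W2_eval (u : k) {h : MvPolynomial (Fin 12) k} (hh : h ∈ W2 k) {F : List (List ℕ × ℕ)}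
    (hF : F ∈ dualL) : evF u F h = coeff (expo (F.headD ([], 0)).1) h := by
  have hF' : (F.headD ([], 0)).1 ∈ basL := by
    rw [basL_eq]; exact List.mem_map.mpr ⟨F, hF, rfl⟩
  refine Submodule.span_induction
    (p := fun f _ => evF u F f = coeff (expo (F.headD ([], 0)).1) f) ?_ ?_ ?_ ?_ hh
  · rintro _ ⟨m, hm, hl, rfl⟩
    rw [dual_apply u hF hm, mon, coeff_monomial]
    by_cases h1 : m = (F.headD ([], 0)).1
    · rw [if_pos h1, if_pos (by rw [h1])]
    · rw [if_neg h1, if_neg]
      intro h2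
      have a1 := bas_spec hm
      have a2 := bas_spec hF'
      exact h1 (expo_inj a1.2.1 a2.2.1 a1.2.2 a2.2.2 h2)
  · rw [map_zero, coeff_zero]
  · intro a b _ _ ha hb
    rw [map_add, coeff_add, ha, hb]
  · intro c a _ ha
    rw [map_smul, coeff_smul, ha]

lemma degree_expo (m : List ℕ) : (expo m).degree = m.length := by
  induction m with
  | nil => simp
  | cons a t ih => rw [expo_cons, map_add, ih]; simp [add_comm]

lemma reduce [CharZero k] {w : k} (hw : w ^ 2 + w + 1 = 0) {g : MvPolynomial (Fin 12) k}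
    (hg : g.totalDegree ≤ 2) :
    ∃ h ∈ W2 k, Ideal.Quotient.mk (I w) g = Ideal.Quotient.mk (I w) h := by
  have hmem : g ∈ W2 k ⊔ (I w).restrictScalars k := by
    apply mem_of_dual
    intro φ hφ
    have hΛ : ∀ f ∈ I w, φ f = 0 := fun f hf =>
      hφ f (Submodule.mem_sup_right (by simpa using hf))
    have hb : ∀ m ∈ basL, m.length ≤ 2 → φ (mon k m) = 0 := fun m hm hl =>
      hφ _ (Submodule.mem_sup_left (mon_mem_W2 hm hl))
    rw [g.as_sum, map_sum]
    apply Finset.sum_eq_zero
    intro e he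
    obtain ⟨m, h1, h2, h3⟩ := exists_sorted e
    have hdeg : m.length ≤ 2 := by
      rw [← degree_expo, h3]
      have h4 := le_totalDegree he
      have h5 : (e.sum fun _ n => n) = e.degree := rfl
      omega
    have hz : φ (mon k m) = 0 := by
      by_cases hn : m.Nodup
      · have hlt := lt_of_sorted_nodup h2 hn
        match m, h1, hlt, hdeg with
        | [], _, _, _ => exact hb _ nil_mem_bas (by simp)
        | [a], hm, _, _ => exact hb _ (single_mem_bas (hm a (by simp))) (by simp)
        | [a, b], hm, hlt, _ =>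
          exact zero2 hw hΛ (fun m hm hl => hb m hm (by omega)) (inc_of rfl hm hlt)
        | _ :: _ :: _ :: _, _, _, hl => simp at hl
      · exact hΛ _ (mon_mem_of_dup w h1 hn)
    rw [mon, h3] at hz
    have : (monomial e (coeff e g) : MvPolynomial (Fin 12) k) = coeff e g • monomial e 1 := by
      rw [smul_monomial, smul_eq_mul, mul_one]
    rw [this, map_smul, hz, smul_zero]
  obtain ⟨h, hh, f, hf, hsum⟩ := Submodule.mem_sup.mp hmem
  refine ⟨h, hh, ?_⟩
  have hf' : Ideal.Quotient.mk (I w) f = 0 := Ideal.Quotient.eq_zero_iff_mem.mpr (by simpa using hf)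
  rw [← hsum, map_add, hf', add_zero]

end Pool.Agent.H68.Gal
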