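import Pool.Agent.H68.Gal.VF
import Pool.Agent.H7.HilbInterface

/-!
# The ideal is rigid
-/

namespace Pool.Agent.H68.Gal

open MvPolynomial

variable {k : Type*} [Field k]

/-- affine vector field -/
noncomputable def DD (α : Fin 12 → k) (γ : Fin 12 → Fin 12 → k) (f : MvPolynomial (Fin 12) k) :
    MvPolynomial (Fin 12) k :=
  ∑ i, (C (α i) + ∑ j, C (γ i j) * X j) * pderiv i f

lemma DD_add (α : Fin 12 → k) (γ : Fin 12 → Fin 12 → k) (f g : MvPolynomial (Fin 12) k) :
    DD α γ (f + g) = DD α γ f + DD α γ g := by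
  unfold DD
  rw [← Finset.sum_add_distrib]
  apply Finset.sum_congr rfl
  intro i _
  rw [map_add, mul_add]

lemma DD_mul (α : Fin 12 → k) (γ : Fin 12 → Fin 12 → k) (f g : MvPolynomial (Fin 12) k) :
    DD α γ (f * g) = f * DD α γ g + g * DD α γ f := by
  unfold DD
  rw [Finset.mul_sum, Finset.mul_sum, ← Finset.sum_add_distrib]
  apply Finset.sum_congr rfl
  intro i _
  rw [Derivation.leibniz, smul_eq_mul, smul_eq_mul]
  ring

/-- the homomorphism of an affine vector field -/
noncomputable def phiD (w : k) (α : Fin 12 → k) (γ : Fin 12 → Fin 12 → k) :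
    I w →ₗ[MvPolynomial (Fin 12) k] (MvPolynomial (Fin 12) k ⧸ I w) where
  toFun f := Ideal.Quotient.mk (I w) (DD α γ f)
  map_add' f g := by rw [Submodule.coe_add, DD_add, map_add]
  map_smul' a f := by
    rw [Submodule.coe_smul, smul_eq_mul, DD_mul, map_add, RingHom.id_apply]
    have h1 : Ideal.Quotient.mk (I w) ((f : MvPolynomial (Fin 12) k) * DD α γ a) = 0 :=
      Ideal.Quotient.eq_zero_iff_mem.mpr (Ideal.mul_mem_right _ _ f.2)
    rw [h1, add_zero, map_mul]
    rfl

lemma totalDegree_DD (α : Fin 12 → k) (γ : Fin 12 → Fin 12 → k) {f : MvPolynomial (Fin 12) k}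
    (hf : f.IsHomogeneous 2) : (DD α γ f).totalDegree ≤ 2 := by
  unfold DD
  apply totalDegree_finsetSum_le
  intro i _
  refine le_trans (totalDegree_mul _ _) ?_
  have h1 : (pderiv i f).totalDegree ≤ 1 := (hf.pderiv (i := i)).totalDegree_le
  have h2 : (C (α i) + ∑ j, C (γ i j) * X j : MvPolynomial (Fin 12) k).totalDegree ≤ 1 := by
    refine le_trans (totalDegree_add _ _) (max_le (by simp) ?_)
    apply totalDegree_finsetSum_le
    intro j _
    refine le_trans (totalDegree_mul _ _) ?_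
    rw [totalDegree_C, totalDegree_X]
  omega

lemma evF_deg (u : k) {F : List (List ℕ × ℕ)} {d e : ℕ} (hde : d ≠ e)
    (hF : ∀ q ∈ F, inc d q.1 = true) {f : MvPolynomial (Fin 12) k} (hf : f.IsHomogeneous e) :
    evF u F f = 0 := by
  induction F with
  | nil => exact evF_nil _ _
  | cons q t ih =>
    rw [evF_cons, ih (fun p hp => hF p (List.mem_cons_of_mem _ hp)), hf.coeff_eq_zero, mul_zero,
      add_zero]
    rw [degree_expo, (inc_spec (hF q List.mem_cons_self)).1]
    exact hde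

lemma gen_sq (w : k) {a : ℕ} (ha : a < 12) : gen w ⟨a, by omega⟩ = xv k a * xv k a := by
  interval_cases a <;> simp [gen, xv, sq] <;> rfl

section

variable [CharZero k] {w : k} (hw : w ^ 2 + w + 1 = 0)

/-- the generators as elements of the ideal -/
noncomputable def qI (j : ℕ) : I w := ⟨poly (-w) (genL j), genL_mem hw j⟩

/-- a syzygy applied to elements of the ideal -/
noncomputable def synI (s : List (ℕ × ℕ × ℕ)) : I w :=
  (s.map fun t => (C ((-w) ^ t.2.2) * xv k t.1) • qI hw t.2.1).sum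

omit [CharZero k] in
lemma synI_coe (s : List (ℕ × ℕ × ℕ)) :
    (synI hw s : MvPolynomial (Fin 12) k) = synEv (-w) (fun j => poly (-w) (genL j)) s := by
  induction s with
  | nil => simp [synI, synEv]
  | cons t s ih =>
    have e1 : synI hw (t :: s) = (C ((-w) ^ t.2.2) * xv k t.1) • qI hw t.2.1 + synI hw s := by
      simp [synI]
    have e2 : synEv (-w) (fun j => poly (-w) (genL j)) (t :: s) =
        C ((-w) ^ t.2.2) * (xv k t.1 * poly (-w) (genL t.2.1)) +
          synEv (-w) (fun j => poly (-w) (genL j)) s := by simp [synEv]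
    rw [e1, e2, Submodule.coe_add, ih, Submodule.coe_smul, smul_eq_mul, mul_assoc]
    rfl

omit [CharZero k] in
lemma phi_synI (φ : I w →ₗ[MvPolynomial (Fin 12) k] (MvPolynomial (Fin 12) k ⧸ I w))
    {G : ℕ → MvPolynomial (Fin 12) k}
    (hG : ∀ j, Ideal.Quotient.mk (I w) (G j) = φ (qI hw j)) (s : List (ℕ × ℕ × ℕ)) :
    φ (synI hw s) = Ideal.Quotient.mk (I w) (synEv (-w) G s) := by
  induction s with
  | nil => simp [synI, synEv]
  | cons t s ih =>
    have e1 : synI hw (t :: s) = (C ((-w) ^ t.2.2) * xv k t.1) • qI hw t.2.1 + synI hw s := by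
      simp [synI]
    have e2 : synEv (-w) G (t :: s) =
        C ((-w) ^ t.2.2) * (xv k t.1 * G t.2.1) + synEv (-w) G s := by simp [synEv]
    rw [e1, e2, map_add, ih, map_smul, ← hG, map_add, ← mul_assoc, map_mul _ _ (G t.2.1)]
    rfl

omit [CharZero k] in
lemma syn_mem (φ : I w →ₗ[MvPolynomial (Fin 12) k] (MvPolynomial (Fin 12) k ⧸ I w))
    {G : ℕ → MvPolynomial (Fin 12) k}
    (hG : ∀ j, Ideal.Quotient.mk (I w) (G j) = φ (qI hw j)) {s : ℕ} (hs : s < 81) :
    synEv (-w) G (synL s) ∈ I w := by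
  rw [← Ideal.Quotient.eq_zero_iff_mem, ← phi_synI hw φ hG]
  have : synI hw (synL s) = 0 := by
    apply Subtype.ext
    rw [synI_coe, synEv_gen (root hw) hs]
    rfl
  rw [this, map_zero]

omit [CharZero k] in
lemma phi_zero {φ : I w →ₗ[MvPolynomial (Fin 12) k] (MvPolynomial (Fin 12) k ⧸ I w)}
    (h : ∀ j < 33, φ (qI hw j) = 0) (f : I w) : φ f = 0 := by
  obtain ⟨f, hf⟩ := f
  refine Submodule.span_induction (p := fun f hf => φ ⟨f, hf⟩ = 0) ?_ ?_ ?_ ?_ hf
  · rintro _ ⟨j, rfl⟩
    have := h j j.2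
    have e : qI hw j = ⟨gen w j, Ideal.subset_span ⟨j, rfl⟩⟩ := Subtype.ext (gen_eq hw j).symm
    rw [← e]; exact this
  · exact map_zero φ
  · intro a b ha hb h1 h2
    have : (⟨a + b, Submodule.add_mem _ ha hb⟩ : I w) = ⟨a, ha⟩ + ⟨b, hb⟩ := rfl
    rw [this, map_add, h1, h2, add_zero]
  · intro a b hb h1
    have : (⟨a • b, Submodule.smul_mem _ a hb⟩ : I w) = a • ⟨b, hb⟩ := rfl
    rw [this, map_smul, h1, smul_zero]

include hw in
/-- **Rigidity.** -/
theorem rigid : Pool.H7.HilbRigid.Rigid (I w) := by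
  intro φ hφ
  have hqh : ∀ j, ((qI hw j : I w) : MvPolynomial (Fin 12) k).IsHomogeneous 2 := fun j =>
    poly_homogeneous _ (fun q hq => (genL_sorted j q hq).2.2)
  have hex : ∀ j, ∃ G ∈ W2 k, Ideal.Quotient.mk (I w) G = φ (qI hw j) := by
    intro j
    obtain ⟨g, hg, hg'⟩ := hφ 2 (qI hw j) (hqh j)
    obtain ⟨h, hh, hh'⟩ := reduce hw hg
    exact ⟨h, hh, by rw [hg', hh']⟩
  choose G hGW hG using hex
  obtain ⟨γ, hγ⟩ := bt_surj hw
    (fun n => coeff (expo (b2 (normL.getD n 0 % 45))) (G (normL.getD n 0 / 45)))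
  set α : Fin 12 → k := fun i => coeff (expo [(i : ℕ)]) (G i) / 2 with hα
  refine ⟨α, γ, ?_⟩
  set φ' : I w →ₗ[MvPolynomial (Fin 12) k] (MvPolynomial (Fin 12) k ⧸ I w) := φ - phiD w α γ
    with hφ'
  have hex' : ∀ j, ∃ H ∈ W2 k, Ideal.Quotient.mk (I w) (DD α γ (qI hw j : I w)) =
      Ideal.Quotient.mk (I w) H := fun j => reduce hw (totalDegree_DD α γ (hqh j))
  choose H hHW hH using hex'
  have hG' : ∀ j, Ideal.Quotient.mk (I w) (G j - H j) = φ' (qI hw j) := by
    intro j
    rw [map_sub, hG, ← hH, hφ', LinearMap.sub_apply]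
    rfl
  have hW' : ∀ j, G j - H j ∈ W2 k := fun j => Submodule.sub_mem _ (hGW j) (hHW j)
  have hev : ∀ F ∈ dualL, ∀ j, coeff (expo (F.headD ([], 0)).1) (G j - H j) =
      coeff (expo (F.headD ([], 0)).1) (G j) - evF (-w) F (DD α γ (qI hw j : I w)) := by
    intro F hF j
    rw [coeff_sub]
    congr 1
    rw [← W2_eval (-w) (hHW j) hF]
    have h1 : DD α γ (qI hw j : I w) - H j ∈ I w := Ideal.Quotient.eq.mp (hH j)
    have h2 := kill_dual hw hF h1
    rw [map_sub, sub_eq_zero] at h2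
    exact h2.symm
  have hN1 : ∀ i < 12, coeff (expo [i]) (G i - H i) = 0 := by
    intro i hi
    have h1 := hev _ (single_mem hi) i
    simp only [List.headD_cons] at h1
    rw [h1]
    have h2 : ((qI hw i : I w) : MvPolynomial (Fin 12) k) = xv k i * xv k i := by
      rw [← gen_sq w hi]
      exact (gen_eq hw ⟨i, by omega⟩).symm
    have h3 : DD α γ (xv k i) = C (α ⟨i, hi⟩) + ∑ j, C (γ ⟨i, hi⟩ j) * X j := by
      have hi' : Fin.ofNat 12 i = ⟨i, hi⟩ := by ext; simp [Fin.ofNat, Nat.mod_eq_of_lt hi]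
      unfold DD
      rw [Finset.sum_eq_single ⟨i, hi⟩]
      · rw [xv, hi', pderiv_X_self, mul_one]
      · intro b _ hb
        rw [xv, hi', pderiv_X_of_ne (Ne.symm hb), mul_zero]
      · intro h; exact absurd (Finset.mem_univ _) h
    have h4 : coeff (expo [i]) (xv k i * DD α γ (xv k i)) = α ⟨i, hi⟩ := by
      rw [coeff_xv_mul hi (fun a ha => by simp at ha; omega)]
      have : er i [i] = some [] := by simp [er, Nat.beq_refl]
      rw [this, h3]
      simp [coeff_sum, coeff_C_mul]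
    rw [h2, DD_mul, evF_cons, evF_nil, pow_zero, one_mul, add_zero, coeff_add, h4, hα]
    simp only
    ring
  have hN2 : ∀ a ∈ normL, coeff (expo (b2 (a % 45))) (G (a / 45) - H (a / 45)) = 0 := by
    intro a ha
    have hy : a % 45 < 45 := Nat.mod_lt _ (by norm_num)
    have h1 := hev _ (F2_mem hy) (a / 45)
    have h2 : coeff (expo (b2 (a % 45))) (G (a / 45) - H (a / 45)) =
      coeff (expo (b2 (a % 45))) (G (a / 45)) -
        evF (-w) (F2L (a % 45)) (DD α γ (qI hw (a / 45) : I w)) := h1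
    rw [h2]
    obtain ⟨n, hn, hna⟩ := List.getElem_of_mem ha
    have hn' : n < 143 := by rw [← normL_length]; exact hn
    have h3 := hγ ⟨n, hn'⟩
    have h4 : normL.getD n 0 = a := by rw [List.getD_eq_getElem _ _ hn, hna]
    simp only [h4] at h3
    rw [← h3, sub_eq_zero]
    unfold DD
    rw [map_sum]
    apply Finset.sum_congr rfl
    intro i _
    have h5 : (pderiv i ((qI hw (a / 45) : I w) : MvPolynomial (Fin 12) k)).IsHomogeneous 1 :=
      (hqh _).pderiv
    rw [add_mul, map_add, ← smul_eq_C_mul, map_smul,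
      evF_deg (-w) (by norm_num : (2 : ℕ) ≠ 1) (F2_inc hy) h5, smul_zero, zero_add,
      Finset.sum_mul, map_sum]
    apply Finset.sum_congr rfl
    intro j _
    rw [mul_assoc, ← smul_eq_C_mul, map_smul, smul_eq_mul]
    rfl
  have hzero := fun j hj => all_zero hw (fun s hs => syn_mem hw φ' hG' hs) hW' hN1 hN2 (j := j) hj
  have hφ0 : ∀ f, φ' f = 0 := by
    apply phi_zero hw
    intro j hj
    rw [← hG', hzero j hj, map_zero]
  intro f
  have := hφ0 f
  rw [hφ', LinearMap.sub_apply, sub_eq_zero] at this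
  rw [this]
  rfl

end

end Pool.Agent.H68.Gal
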