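import Pool.Agent.H68.Gal.Sys

/-!
# Meaning of the lists: monomials, polynomials, functionals
-/

namespace Pool.Agent.H68.Gal

open MvPolynomial

variable {k : Type*} [Field k]

/-- variable with index a natural number -/
noncomputable def xv (k : Type*) [Field k] (a : ℕ) : MvPolynomial (Fin 12) k := X (Fin.ofNat 12 a)

/-- exponent of a list -/
noncomputable def expo (m : List ℕ) : Fin 12 →₀ ℕ :=
  (m.map fun a => Finsupp.single (Fin.ofNat 12 a) 1).sum

/-- monomial of a list -/
noncomputable def mon (k : Type*) [Field k] (m : List ℕ) : MvPolynomial (Fin 12) k :=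
  monomial (expo m) 1

/-- polynomial of a list of pairs (monomial, exponent of `u`) -/
noncomputable def poly (u : k) (p : List (List ℕ × ℕ)) : MvPolynomial (Fin 12) k :=
  (p.map fun q => C (u ^ q.2) * mon k q.1).sum

/-- functional of a list of pairs (monomial, exponent of `u`) -/
noncomputable def evF (u : k) (F : List (List ℕ × ℕ)) : MvPolynomial (Fin 12) k →ₗ[k] k :=
  (F.map fun q => u ^ q.2 • lcoeff k (expo q.1)).sum

@[simp] lemma expo_nil : expo [] = 0 := rfl

lemma expo_cons (a : ℕ) (m : List ℕ) :
    expo (a :: m) = Finsupp.single (Fin.ofNat 12 a) 1 + expo m := by simp [expo]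

lemma expo_perm {m m' : List ℕ} (h : m.Perm m') : expo m = expo m' := by
  unfold expo
  exact (h.map _).sum_eq

lemma mon_nil : mon k [] = 1 := by simp [mon]

lemma mon_cons (a : ℕ) (m : List ℕ) : mon k (a :: m) = xv k a * mon k m := by
  rw [mon, mon, xv, expo_cons, X, monomial_mul, mul_one]

lemma mon_perm {m m' : List ℕ} (h : m.Perm m') : mon k m = mon k m' := by
  rw [mon, mon, expo_perm h]

lemma poly_nil (u : k) : poly u [] = 0 := rfl

lemma poly_cons (u : k) (q : List ℕ × ℕ) (p : List (List ℕ × ℕ)) :
    poly u (q :: p) = C (u ^ q.2) * mon k q.1 + poly u p := by simp [poly]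

lemma poly_append (u : k) (p q : List (List ℕ × ℕ)) :
    poly u (p ++ q) = poly u p + poly u q := by simp [poly]

lemma evF_nil (u : k) (f : MvPolynomial (Fin 12) k) : evF u [] f = 0 := rfl

lemma evF_cons (u : k) (q : List ℕ × ℕ) (F : List (List ℕ × ℕ)) (f : MvPolynomial (Fin 12) k) :
    evF u (q :: F) f = u ^ q.2 * coeff (expo q.1) f + evF u F f := by
  simp [evF, lcoeff]

lemma evF_append (u : k) (F G : List (List ℕ × ℕ)) (f : MvPolynomial (Fin 12) k) :
    evF u (F ++ G) f = evF u F f + evF u G f := by
  simp [evF]

/-- all variables of a list are smaller than 12 -/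
def ok (m : List ℕ) : Prop := ∀ a ∈ m, a < 12

lemma ofNat_inj {a b : ℕ} (ha : a < 12) (hb : b < 12) (h : Fin.ofNat 12 a = Fin.ofNat 12 b) :
    a = b := by
  have := congrArg Fin.val h
  simpa [Fin.ofNat, Nat.mod_eq_of_lt ha, Nat.mod_eq_of_lt hb] using this

lemma expo_apply_eq_zero {a : ℕ} (ha : a < 12) {m : List ℕ} (hm : ok m) (h : a ∉ m) :
    expo m (Fin.ofNat 12 a) = 0 := by
  induction m with
  | nil => simp
  | cons b t ih =>
    rw [expo_cons, Finsupp.add_apply, ih (fun c hc => hm c (List.mem_cons_of_mem _ hc))
      (fun hc => h (List.mem_cons_of_mem _ hc)), add_zero, Finsupp.single_apply]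
    rw [if_neg]
    intro h1
    exact h (by rw [ofNat_inj ha (hm b List.mem_cons_self) h1.symm]; exact List.mem_cons_self)

lemma er_none {a : ℕ} {m : List ℕ} (h : er a m = none) : a ∉ m := by
  induction m with
  | nil => simp
  | cons b t ih =>
    simp only [er] at h
    cases hb : Nat.beq a b
    · rw [hb, cond_false] at h
      have hne := Nat.ne_of_beq_eq_false hb
      cases ht : er a t
      · intro hc
        rcases List.mem_cons.mp hc with h1 | h1
        · exact hne h1
        · exact ih ht h1
      · rw [ht] at h; simp at h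
    · rw [hb] at h; simp at h

lemma er_some {a : ℕ} {m m' : List ℕ} (h : er a m = some m') : m.Perm (a :: m') := by
  induction m generalizing m' with
  | nil => simp [er] at h
  | cons b t ih =>
    simp only [er] at h
    cases hb : Nat.beq a b
    · rw [hb, cond_false] at h
      cases ht : er a t
      · rw [ht] at h; simp at h
      · rename_i s
        rw [ht] at h
        simp only [Option.some.injEq] at h
        subst h
        exact ((ih ht).cons b).trans (List.Perm.swap a b s)
    · rw [hb, cond_true] at h
      simp only [Option.some.injEq] at h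
      subst h
      rw [Nat.eq_of_beq_eq_true hb]

lemma er_sublist {a : ℕ} {m m' : List ℕ} (h : er a m = some m') : m'.Sublist m := by
  induction m generalizing m' with
  | nil => simp [er] at h
  | cons b t ih =>
    simp only [er] at h
    cases hb : Nat.beq a b
    · rw [hb, cond_false] at h
      cases ht : er a t
      · rw [ht] at h; simp at h
      · rename_i s
        rw [ht] at h
        simp only [Option.some.injEq] at h
        subst h
        exact (ih ht).cons_cons b
    · rw [hb, cond_true] at h
      simp only [Option.some.injEq] at h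
      subst h
      exact List.sublist_cons_self _ _

/-- value of a functional on a multiple of a variable -/
lemma coeff_xv_mul {a : ℕ} (ha : a < 12) {m : List ℕ} (hm : ok m)
    (g : MvPolynomial (Fin 12) k) :
    coeff (expo m) (xv k a * g) = match er a m with
      | none => 0
      | some m' => coeff (expo m') g := by
  cases h : er a m
  · simp only
    rw [xv, coeff_X_mul', if_neg]
    rw [Finsupp.mem_support_iff, not_not]
    exact expo_apply_eq_zero ha hm (er_none h)
  · rename_i m'
    simp only
    rw [expo_perm (er_some h), expo_cons, xv, coeff_X_mul]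

/-! ### functional divided by a monomial -/

/-- divide by a variable -/
def divV (a : ℕ) : List (List ℕ × ℕ) → List (List ℕ × ℕ)
  | [] => []
  | p :: t => match er a p.1 with
    | none => divV a t
    | some m => (m, p.2) :: divV a t

/-- divide by a monomial -/
def divM (m : List ℕ) (F : List (List ℕ × ℕ)) : List (List ℕ × ℕ) :=
  m.foldl (fun F a => divV a F) F

/-- multiply by a power of `u` -/
def shift (e : ℕ) (F : List (List ℕ × ℕ)) : List (List ℕ × ℕ) := F.map fun p => (p.1, e + p.2)

/-- contraction of a functional by a polynomial -/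
def contr (F : List (List ℕ × ℕ)) : List (List ℕ × ℕ) → List (List ℕ × ℕ)
  | [] => []
  | p :: t => shift p.2 (divM p.1 F) ++ contr F t

/-- all monomials are `ok` -/
def okF (F : List (List ℕ × ℕ)) : Prop := ∀ p ∈ F, ok p.1

lemma okF_cons {q : List ℕ × ℕ} {F : List (List ℕ × ℕ)} (h : okF (q :: F)) : ok q.1 ∧ okF F :=
  ⟨h q List.mem_cons_self, fun p hp => h p (List.mem_cons_of_mem _ hp)⟩

lemma okF_divV {a : ℕ} {F : List (List ℕ × ℕ)} (h : okF F) : okF (divV a F) := by
  induction F with
  | nil => simp [divV, okF]
  | cons q t ih =>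
    have h' := okF_cons h
    simp only [divV]
    cases hq : er a q.1
    · exact ih h'.2
    · rename_i m
      intro p hp
      rcases List.mem_cons.mp hp with h1 | h1
      · subst h1
        exact fun b hb => h'.1 b ((er_sublist hq).subset hb)
      · exact ih h'.2 p h1

lemma evF_divV (u : k) {a : ℕ} (ha : a < 12) {F : List (List ℕ × ℕ)} (h : okF F)
    (g : MvPolynomial (Fin 12) k) : evF u (divV a F) g = evF u F (xv k a * g) := by
  induction F with
  | nil => simp [divV, evF_nil]
  | cons q t ih =>
    have h' := okF_cons h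
    simp only [divV]
    rw [evF_cons, coeff_xv_mul ha h'.1]
    cases hq : er a q.1
    · simp only; rw [ih h'.2]; ring
    · simp only; rw [evF_cons, ih h'.2]

lemma evF_divM (u : k) {m : List ℕ} (hm : ok m) {F : List (List ℕ × ℕ)} (h : okF F)
    (g : MvPolynomial (Fin 12) k) : evF u (divM m F) g = evF u F (mon k m * g) := by
  induction m generalizing F with
  | nil => simp [divM, mon_nil]
  | cons a t ih =>
    have h1 : divM (a :: t) F = divM t (divV a F) := rfl
    rw [h1, ih (fun b hb => hm b (List.mem_cons_of_mem _ hb)) (okF_divV h),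
      evF_divV u (hm a List.mem_cons_self) h, mon_cons, mul_assoc]

lemma evF_shift (u : k) (e : ℕ) (F : List (List ℕ × ℕ)) (g : MvPolynomial (Fin 12) k) :
    evF u (shift e F) g = u ^ e * evF u F g := by
  induction F with
  | nil => simp [shift, evF_nil]
  | cons q t ih =>
    have : shift e (q :: t) = (q.1, e + q.2) :: shift e t := rfl
    rw [this, evF_cons, evF_cons, ih, pow_add]; ring

lemma evF_contr (u : k) {F : List (List ℕ × ℕ)} (h : okF F) {p : List (List ℕ × ℕ)}
    (hp : okF p) (g : MvPolynomial (Fin 12) k) :
    evF u (contr F p) g = evF u F (poly u p * g) := by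
  induction p with
  | nil => simp [contr, evF_nil, poly_nil]
  | cons q t ih =>
    have h' := okF_cons hp
    rw [contr, evF_append, ih h'.2, evF_shift, evF_divM u h'.1 h, poly_cons, add_mul, map_add]
    congr 1
    rw [mul_assoc, ← smul_eq_C_mul, map_smul, smul_eq_mul]

/-! ### zero test -/

/-- equality of lists -/
def beqL : List ℕ → List ℕ → Bool
  | [], [] => true
  | a :: s, b :: t => Nat.beq a b && beqL s t
  | _, _ => false

lemma beqL_eq {s t : List ℕ} (h : beqL s t = true) : s = t := by
  induction s generalizing t with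
  | nil => cases t
           · rfl
           · simp [beqL] at h
  | cons a s ih =>
    cases t
    · simp [beqL] at h
    · simp only [beqL, Bool.and_eq_true] at h
      rw [Nat.eq_of_beq_eq_true h.1, ih h.2]

lemma beqL_refl (s : List ℕ) : beqL s s = true := by
  induction s with
  | nil => rfl
  | cons a s ih => simp [beqL, ih]

/-- number of entries which are `a` or `b` modulo 6 -/
def cnt (a b : ℕ) : List ℕ → ℕ
  | [] => 0
  | e :: t => bif (Nat.beq (e % 6) a || Nat.beq (e % 6) b) then cnt a b t + 1 else cnt a b t

/-- test whether a sum of powers of `u` vanishes -/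
def zeroE (es : List ℕ) : Bool :=
  Nat.beq (cnt 0 5 es) (cnt 2 3 es) && Nat.beq (cnt 1 2 es) (cnt 4 5 es)

lemma pow_mod6 {u : k} (hu : u ^ 2 - u + 1 = 0) (e : ℕ) : u ^ e = u ^ (e % 6) := by
  have h6 : u ^ 6 = 1 := by linear_combination (u ^ 4 + u ^ 3 - u - 1) * hu
  conv_lhs => rw [← Nat.div_add_mod e 6, pow_add, pow_mul, h6, one_pow, one_mul]

lemma sum_pow {u : k} (hu : u ^ 2 - u + 1 = 0) (es : List ℕ) :
    (es.map fun e => u ^ e).sum =
      (cnt 0 5 es : k) - cnt 2 3 es + ((cnt 1 2 es : k) - cnt 4 5 es) * u := by
  induction es with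
  | nil => simp [cnt]
  | cons e t ih =>
    rw [List.map_cons, List.sum_cons, ih, pow_mod6 hu e]
    have he : e % 6 < 6 := Nat.mod_lt _ (by norm_num)
    simp only [cnt]
    generalize e % 6 = r at he
    have h2 : u ^ 2 = u - 1 := by linear_combination hu
    have h3 : u ^ 3 = -1 := by linear_combination (u + 1) * hu
    have h4 : u ^ 4 = -u := by linear_combination (u ^ 2 + u) * hu
    have h5 : u ^ 5 = 1 - u := by linear_combination (u ^ 3 + u ^ 2 - 1) * hu
    interval_cases r
    · simp [Nat.beq]; ring
    · simp [Nat.beq]; ring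
    · simp [Nat.beq, h2]; ring
    · simp [Nat.beq, h3]; ring
    · simp [Nat.beq, h4]; ring
    · simp [Nat.beq, h5]; ring

lemma zeroE_sum {u : k} (hu : u ^ 2 - u + 1 = 0) {es : List ℕ} (h : zeroE es = true) :
    (es.map fun e => u ^ e).sum = 0 := by
  simp only [zeroE, Bool.and_eq_true] at h
  rw [sum_pow hu, Nat.eq_of_beq_eq_true h.1, Nat.eq_of_beq_eq_true h.2]
  ring

/-- test whether a formal sum vanishes -/
def chkZ : ℕ → List (List ℕ × ℕ) → Bool
  | 0, p => match p with
    | [] => true
    | _ :: _ => false
  | n + 1, p => match p with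
    | [] => true
    | q :: t => zeroE (((q :: t).filter fun r => beqL q.1 r.1).map fun r => r.2) &&
        chkZ n ((q :: t).filter fun r => !(beqL q.1 r.1))

lemma chkZ_sum {M : Type*} [AddCommGroup M] [Module k M] (Φ : List ℕ → M) {u : k}
    (hu : u ^ 2 - u + 1 = 0) (n : ℕ) :
    ∀ {p : List (List ℕ × ℕ)}, chkZ n p = true → (p.map fun q => u ^ q.2 • Φ q.1).sum = 0 := by
  induction n with
  | zero =>
    intro p h
    cases p
    · rfl
    · simp [chkZ] at h
  | succ n ih =>
    intro p h
    cases p with
    | nil => rfl
    | cons q t =>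
      simp only [chkZ, Bool.and_eq_true] at h
      have h2 := ih h.2
      have h1 := zeroE_sum hu h.1
      generalize hL : q :: t = L at h1 h2
      have key : ∀ L : List (List ℕ × ℕ), (L.map fun q => u ^ q.2 • Φ q.1).sum =
          (((L.filter fun r => beqL q.1 r.1).map fun r => r.2).map fun e => u ^ e).sum • Φ q.1
          + ((L.filter fun r => !(beqL q.1 r.1)).map fun q => u ^ q.2 • Φ q.1).sum := by
        intro L
        induction L with
        | nil => simp
        | cons r s ihL =>
          rw [List.map_cons, List.sum_cons, ihL, List.filter_cons, List.filter_cons]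
          cases hb : beqL q.1 r.1
          · simp only [Bool.not_false, if_true, Bool.false_eq_true, if_false]
            rw [List.map_cons, List.sum_cons]
            abel
          · simp only [Bool.not_true, if_true, Bool.false_eq_true, if_false]
            rw [List.map_cons, List.map_cons, List.sum_cons, add_smul, ← beqL_eq hb]
            abel
      rw [key L, h1, h2]; simp

lemma poly_of_chkZ {u : k} (hu : u ^ 2 - u + 1 = 0) {n : ℕ} {p : List (List ℕ × ℕ)}
    (h : chkZ n p = true) : poly u p = 0 := by
  have := chkZ_sum (fun m => mon k m) hu n h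
  unfold poly
  rw [← this]
  congr 1
  apply List.map_congr_left
  intro q _
  rw [smul_eq_C_mul]

lemma evF_of_chkZ {u : k} (hu : u ^ 2 - u + 1 = 0) {n : ℕ} {p : List (List ℕ × ℕ)}
    (h : chkZ n p = true) (f : MvPolynomial (Fin 12) k) : evF u p f = 0 := by
  have := chkZ_sum (fun m => coeff (expo m) f) hu n h
  have h2 : evF u p f = (p.map fun q => u ^ q.2 • coeff (expo q.1) f).sum := by
    clear this h
    induction p with
    | nil => rfl
    | cons q t ih => rw [evF_cons, ih]; simp
  rw [h2, this]

end Pool.Agent.H68.Gal
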