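import Pool.Agent.H68.Gal.Facts

/-!
# The linear systems of the certificate
-/

namespace Pool.Agent.H68.Gal

/-- sorted insertion, `none` if the element is present -/
def insO (a : ℕ) : List ℕ → Option (List ℕ)
  | [] => some [a]
  | b :: t => bif Nat.blt a b then some (a :: b :: t) else
      bif Nat.beq a b then none else
        match insO a t with
        | none => none
        | some s => some (b :: s)

/-- insertion of several elements -/
def insM : List ℕ → List ℕ → Option (List ℕ)
  | [], m => some m
  | a :: l, m => match insO a m with
    | none => none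
    | some m' => insM l m'

/-- the row of a multiple of a generator -/
def mulRow (ls : List ℕ) : List (List ℕ × ℕ) → List (ℕ × ℕ)
  | [] => []
  | q :: t => match insM ls q.1 with
    | none => mulRow ls t
    | some m => (key 0 m, q.2) :: mulRow ls t

def origS2 (a : ℕ) : List (ℕ × ℕ) := mulRow [] (genL a)

def origS3 (a : ℕ) : List (ℕ × ℕ) := mulRow [a / 64] (genL (a % 64))

def origS4 (a : ℕ) : List (ℕ × ℕ) := mulRow [a / 64 / 12, a / 64 % 12] (genL (a % 64))

/-- all ways to remove one occurrence -/
def occ (i : ℕ) : List ℕ → List (List ℕ)
  | [] => []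
  | b :: t => bif Nat.beq i b then t :: (occ i t).map (fun s => b :: s)
      else (occ i t).map (fun s => b :: s)

/-- `x_j * ∂_i p` without the terms divisible by a square -/
def dpolyT (j e : ℕ) : List (List ℕ) → List (List ℕ × ℕ)
  | [] => []
  | m :: t => match insO j m with
    | none => dpolyT j e t
    | some m' => (m', e) :: dpolyT j e t

/-- `x_j * ∂_i p` without the terms divisible by a square -/
def dpoly (i j : ℕ) : List (List ℕ × ℕ) → List (List ℕ × ℕ)
  | [] => []
  | q :: t => dpolyT j q.2 (occ i q.1) ++ dpoly i j t

/-- exponents of the value of a functional on a polynomial -/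
def pairing (F p : List (List ℕ × ℕ)) : List ℕ :=
  F.flatMap fun q => (p.filter (fun r => beqL q.1 r.1)).map fun r => q.2 + r.2

/-- basis monomial of index `y` in degree `2` -/
def b2 (y : ℕ) : List ℕ := ((F2L y).headD ([], 0)).1

/-- row of the system for the linear vector fields; `nl` lists the normalised coordinates -/
def btRow (i j : ℕ) : List ℕ → List (ℕ × ℕ)
  | [] => []
  | a :: t => ((pairing (F2L (a % 45)) (dpoly i j (genL (a / 45)))).map
      fun e => (key (a / 45) (b2 (a % 45)), e)) ++ btRow i j t

/-- the rows for homomorphisms of degree `-2` -/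
def origD0 (a : ℕ) : List (ℕ × ℕ) := mkRow [([a % 64], 0)] (synL (a / 64))

/-- the rows for homomorphisms of degree `-1` -/
def origD1 (a : ℕ) : List (ℕ × ℕ) := mkRow (F2L (a % 64)) (synL (a / 64))

/-- the rows for homomorphisms of degree `0` -/
def origD2 (a : ℕ) : List (ℕ × ℕ) := mkRow (F3L (a % 64)) (synL (a / 64))

end Pool.Agent.H68.Gal
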