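import Pool.Agent.H68.Gal.GenEq
import Pool.Agent.H68.Gal.Sys2

/-!
# Meaning of the rows of the linear systems
-/

namespace Pool.Agent.H68.Gal

open MvPolynomial

variable {k : Type*} [Field k]

lemma fin_lt {T : Tr} {N : ℕ} :
    ∀ (M Z : ℕ), fin T N M Z = true → ∀ i, tb Z i = true → i < N := by
  intro M
  induction M with
  | zero =>
    intro Z h i hi
    simp only [fin] at h
    rw [Nat.eq_of_beq_eq_true h, tb_eq, Nat.testBit_two_pow_sub_one] at hi
    simpa using hi
  | succ M ih =>
    intro Z h i hi
    simp only [fin] at h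
    split at h
    · rename_i p hp
      simp only [Bool.and_eq_true] at h
      refine ih _ h.2 i ?_
      rw [tb_eq, Nat.testBit_or, Bool.or_eq_true, ← tb_eq]
      exact Or.inl hi
    · simp at h

theorem zero_of_chk' [CharZero k] {u : k} (hu : u ^ 2 - u + 1 = 0)
    {orig : ℕ → List (ℕ × ℕ)} {Z N M : ℕ} {T : Tr}
    (h : ∀ i < M, chk orig Z N T i = true) (hf : fin T N M Z = true)
    (v : ℕ → k) (hv : ∀ i < M, rowEv u v (orig (T.get (i + 1)).1) = 0)
    (hZ : ∀ i < N, tb Z i = true → v i = 0) : ∀ i < N, v i = 0 :=
  zero_of_chk hu h hf v hv (fun i hi => hZ i (fin_lt M Z hf i hi) hi)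

/-! ### increasing lists -/

lemma inc_spec : ∀ {d : ℕ} {m : List ℕ}, inc d m = true →
    m.length = d ∧ ok m ∧ m.Pairwise (· < ·) := by
  intro d m
  induction m generalizing d with
  | nil =>
    intro h
    cases d with
    | zero => exact ⟨rfl, fun a ha => by simp at ha, List.Pairwise.nil⟩
    | succ d => cases d <;> simp [inc] at h
  | cons a t ih =>
    intro h
    cases d with
    | zero => simp [inc] at h
    | succ d =>
      cases d with
      | zero =>
        cases t with
        | nil =>
          simp only [inc, Nat.blt_eq] at h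
          exact ⟨rfl, fun b hb => by simp at hb; omega, List.pairwise_singleton _ _⟩
        | cons b s => simp [inc] at h
      | succ d =>
        cases t with
        | nil => simp [inc] at h
        | cons b s =>
          simp only [inc, Bool.and_eq_true, Nat.blt_eq] at h
          obtain ⟨h1, h2, h3⟩ := ih h.2
          refine ⟨by simp at h1 ⊢; omega, ?_, ?_⟩
          · intro c hc
            rcases List.mem_cons.mp hc with h4 | h4
            · have := h2 b List.mem_cons_self
              omega
            · exact h2 c h4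
          · rw [List.pairwise_cons]
            refine ⟨?_, h3⟩
            intro c hc
            rcases List.mem_cons.mp hc with h4 | h4
            · omega
            · have := (List.pairwise_cons.mp h3).1 c h4
              omega

lemma inc_of {d : ℕ} {m : List ℕ} (h1 : m.length = d) (h2 : ok m) (h3 : m.Pairwise (· < ·)) :
    inc d m = true := by
  subst h1
  induction m with
  | nil => rfl
  | cons a t ih =>
    cases t with
    | nil => simpa [inc, Nat.blt_eq] using h2 a (by simp)
    | cons b s =>
      have h4 := ih (fun c hc => h2 c (List.mem_cons_of_mem _ hc)) (List.pairwise_cons.mp h3).2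
      have h5 := (List.pairwise_cons.mp h3).1 b List.mem_cons_self
      simp only [List.length_cons] at h4 ⊢
      simp only [inc, Bool.and_eq_true, Nat.blt_eq]
      exact ⟨h5, h4⟩

lemma inc_er {d l : ℕ} {m m' : List ℕ} (h : inc (d + 1) m = true) (he : er l m = some m') :
    inc d m' = true := by
  obtain ⟨h1, h2, h3⟩ := inc_spec h
  apply inc_of
  · have := (er_some he).length_eq
    simp at this; omega
  · exact fun a ha => h2 a ((er_sublist he).subset ha)
  · exact h3.sublist (er_sublist he)

/-! ### keys -/

lemma key_snoc (j : ℕ) (m : List ℕ) (a : ℕ) : key j (m ++ [a]) = key j m * 12 + a := by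
  simp [key, List.foldl_append]

lemma dig_key (j : ℕ) {m : List ℕ} (hm : ok m) : ∀ acc, dig m.length (key j m) acc = m ++ acc := by
  induction m using List.reverseRecOn with
  | nil => intro acc; rfl
  | append_singleton m a ih =>
    intro acc
    have ha : a < 12 := hm a (by simp)
    rw [List.length_append, List.length_singleton, dig, key_snoc]
    have h1 : (key j m * 12 + a) / 12 = key j m := by omega
    have h2 : (key j m * 12 + a) % 12 = a := by omega
    rw [h1, h2, ih (fun b hb => hm b (by simp [hb]))]
    simp

lemma key_div (j : ℕ) {m : List ℕ} (hm : ok m) : key j m / 12 ^ m.length = j := by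
  induction m using List.reverseRecOn with
  | nil => simp [key]
  | append_singleton m a ih =>
    have ha : a < 12 := hm a (by simp)
    rw [List.length_append, List.length_singleton, key_snoc, pow_succ', ← Nat.div_div_eq_div_mul]
    have h1 : (key j m * 12 + a) / 12 = key j m := by omega
    rw [h1, ih (fun b hb => hm b (by simp [hb]))]

lemma key_lt {j : ℕ} {m : List ℕ} (hm : ok m) {c : ℕ} (hj : j < c) :
    key j m < c * 12 ^ m.length := by
  induction m using List.reverseRecOn with
  | nil => simpa [key] using hj
  | append_singleton m a ih =>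
    have ha : a < 12 := hm a (by simp)
    have h1 := ih (fun b hb => hm b (by simp [hb]))
    rw [List.length_append, List.length_singleton, key_snoc, pow_succ, ← mul_assoc]
    omega

/-! ### rows of homomorphisms -/

/-- the coefficients of degree `d` of the polynomials `G j` -/
noncomputable def vD (d : ℕ) (G : ℕ → MvPolynomial (Fin 12) k) (K : ℕ) : k :=
  if inc d (dig d K []) = true then coeff (expo (dig d K [])) (G (K / 12 ^ d)) else 0

lemma vD_key (d : ℕ) (G : ℕ → MvPolynomial (Fin 12) k) (j : ℕ) {m : List ℕ}
    (hm : inc d m = true) : vD d G (key j m) = coeff (expo m) (G j) := by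
  obtain ⟨h1, h2, _⟩ := inc_spec hm
  have h3 : dig d (key j m) [] = m := by rw [← h1, dig_key j h2, List.append_nil]
  have h4 : key j m / 12 ^ d = j := by rw [← h1]; exact key_div j h2
  rw [vD, h3, h4, if_pos hm]

lemma rowEv_nil (u : k) (v : ℕ → k) : rowEv u v [] = 0 := rfl

lemma rowEv_cons (u : k) (v : ℕ → k) (p : ℕ × ℕ) (r : List (ℕ × ℕ)) :
    rowEv u v (p :: r) = u ^ p.2 * v p.1 + rowEv u v r := by simp [rowEv]

lemma rowEv_append (u : k) (v : ℕ → k) (r s : List (ℕ × ℕ)) :
    rowEv u v (r ++ s) = rowEv u v r + rowEv u v s := by simp [rowEv]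

lemma rowEv_rowPart (u : k) (d : ℕ) (G : ℕ → MvPolynomial (Fin 12) k) {l : ℕ} (hl : l < 12)
    (j e : ℕ) {F : List (List ℕ × ℕ)} (hF : ∀ q ∈ F, inc (d + 1) q.1 = true) :
    rowEv u (vD d G) (rowPart l j e F) = u ^ e * evF u F (xv k l * G j) := by
  induction F with
  | nil => simp [rowPart, rowEv, evF_nil]
  | cons q t ih =>
    have ih' := ih (fun p hp => hF p (List.mem_cons_of_mem _ hp))
    have hq := hF q List.mem_cons_self
    simp only [rowPart]
    rw [evF_cons, coeff_xv_mul hl (inc_spec hq).2.1]
    cases h : er l q.1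
    · simp only; rw [ih']; ring
    · simp only
      rw [rowEv_cons, ih', vD_key d G j (inc_er hq h), pow_add]; ring

/-- the combination `∑ u ^ e x_l G_j` of a syzygy -/
noncomputable def synEv (u : k) (G : ℕ → MvPolynomial (Fin 12) k) (s : List (ℕ × ℕ × ℕ)) :
    MvPolynomial (Fin 12) k :=
  (s.map fun t => C (u ^ t.2.2) * (xv k t.1 * G t.2.1)).sum

lemma rowEv_mkRow (u : k) (d : ℕ) (G : ℕ → MvPolynomial (Fin 12) k)
    {F : List (List ℕ × ℕ)} (hF : ∀ q ∈ F, inc (d + 1) q.1 = true)
    {s : List (ℕ × ℕ × ℕ)} (hs : ∀ t ∈ s, t.1 < 12) :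
    rowEv u (vD d G) (mkRow F s) = evF u F (synEv u G s) := by
  induction s with
  | nil => simp [mkRow, rowEv, synEv]
  | cons t s ih =>
    have h1 : synEv u G (t :: s) = C (u ^ t.2.2) * (xv k t.1 * G t.2.1) + synEv u G s := by
      simp [synEv]
    rw [mkRow, rowEv_append, ih (fun p hp => hs p (List.mem_cons_of_mem _ hp)),
      rowEv_rowPart u d G (hs t List.mem_cons_self) _ _ hF, h1, map_add, ← smul_eq_C_mul,
      map_smul, smul_eq_mul]

/-! ### syzygies -/

lemma insS_perm (a : ℕ) (m : List ℕ) : (insS a m).Perm (a :: m) := by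
  induction m with
  | nil => exact List.Perm.refl _
  | cons b t ih =>
    simp only [insS]
    cases Nat.blt a b
    · simp only [cond_false]
      exact (ih.cons b).trans (List.Perm.swap a b t)
    · exact List.Perm.refl _

lemma poly_map_insS (u : k) (l e : ℕ) (p : List (List ℕ × ℕ)) :
    poly u (p.map fun q => (insS l q.1, e + q.2)) = C (u ^ e) * (xv k l * poly u p) := by
  induction p with
  | nil => simp [poly_nil]
  | cons q t ih =>
    rw [List.map_cons, poly_cons, ih, poly_cons, mon_perm (insS_perm l q.1), mon_cons, pow_add,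
      map_mul]
    ring

lemma poly_expandS (u : k) (s : List (ℕ × ℕ × ℕ)) :
    poly u (expandS s) = synEv u (fun j => poly u (genL j)) s := by
  induction s with
  | nil => simp [expandS, poly_nil, synEv]
  | cons t s ih =>
    rw [expandS, poly_append, ih, poly_map_insS]
    simp [synEv]

lemma synEv_gen {u : k} (hu : u ^ 2 - u + 1 = 0) {s : ℕ} (hs : s < 81) :
    synEv u (fun j => poly u (genL j)) (synL s) = 0 := by
  have h := allN_spec chkSyn_true s hs
  simp only [chkSyn, Bool.and_eq_true] at h
  rw [← poly_expandS]
  exact poly_of_chkZ hu h.2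

lemma synL_lt {s : ℕ} (hs : s < 81) : ∀ t ∈ synL s, t.1 < 12 ∧ t.2.1 < 33 := by
  have h := allN_spec chkSyn_true s hs
  simp only [chkSyn, Bool.and_eq_true] at h
  intro t ht
  have := (List.all_eq_true.mp h.1) t ht
  simpa [Nat.blt_eq] using this

end Pool.Agent.H68.Gal
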