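import Pool.Agent.H68.Gal.Sem2
import Pool.Agent.H68.Gal.CertS2
import Pool.Agent.H68.Gal.CertS3
import Pool.Agent.H68.Gal.CertS4

/-!
# The monomial basis of the quotient by the ideal
-/

namespace Pool.Agent.H68.Gal

open MvPolynomial

variable {k : Type*} [Field k]

lemma root {w : k} (hw : w ^ 2 + w + 1 = 0) : (-w) ^ 2 - (-w) + 1 = 0 := by
  linear_combination hw

lemma genL_mem {w : k} (hw : w ^ 2 + w + 1 = 0) (j : ℕ) : poly (-w) (genL j) ∈ I w := by
  rcases Nat.lt_or_ge j 33 with hj | hj
  · rw [← gen_eq hw ⟨j, hj⟩]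
    exact Ideal.subset_span ⟨_, rfl⟩
  · have : genL j = [] := by
      have h1 : genT.getD j 0 = 0 := by
        apply List.getD_eq_default
        have : genT.length = 33 := by decide +kernel
        omega
      rw [genL, h1]; rfl
    rw [this, poly_nil]; exact Ideal.zero_mem _

lemma sq_mem (w : k) {a : ℕ} (ha : a < 12) : xv k a * xv k a ∈ I w := by
  have : xv k a * xv k a = gen w ⟨a, by omega⟩ := by
    interval_cases a <;> simp [gen, xv, sq] <;> rfl
  rw [this]
  exact Ideal.subset_span ⟨_, rfl⟩

lemma mon_mem_of_dup (w : k) {m : List ℕ} (hm : ok m) (h : ¬ m.Nodup) : mon k m ∈ I w := by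
  rw [List.nodup_iff_sublist] at h
  push Not at h
  obtain ⟨a, ha⟩ := h
  obtain ⟨l, hl⟩ := ha.exists_perm_append
  rw [mon_perm hl]
  have h1 : mon k ([a, a] ++ l) = (xv k a * xv k a) * mon k l := by
    show mon k (a :: a :: l) = _
    rw [mon_cons, mon_cons]; ring
  rw [h1]
  exact Ideal.mul_mem_right _ _ (sq_mem w (hm a (ha.subset (by simp))))

/-! ### functionals -/

lemma kill {w : k} (hw : w ^ 2 + w + 1 = 0) {F : List (List ℕ × ℕ)} (hF : okF F)
    (h : ∀ j < 33, ∃ n, chkZ n (contr F (genL j)) = true)
    {f : MvPolynomial (Fin 12) k} (hf : f ∈ I w) : evF (-w) F f = 0 := by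
  have hu := root hw
  refine Submodule.span_induction (p := fun f _ => ∀ g, evF (-w) F (g * f) = 0) ?_ ?_ ?_ ?_ hf 1
    |>.symm.trans ?_ |>.symm
  · rintro _ ⟨j, rfl⟩ g
    obtain ⟨n, hn⟩ := h j j.2
    have hp : okF (genL j) := by
      have := allN_spec chkGen_true j j.2
      simp only [chkGen, List.all_eq_true, Bool.and_eq_true] at this
      exact fun q hq => okB_ok (this q hq).1
    rw [gen_eq hw, mul_comm, ← evF_contr (-w) hF hp]
    exact evF_of_chkZ hu hn g
  · intro g; simp
  · intro a b _ _ ha hb g
    rw [mul_add, map_add, ha, hb, add_zero]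
  · intro a b _ hb g
    rw [smul_eq_mul, ← mul_assoc]; exact hb _
  · rw [one_mul]

lemma inc_okF {d : ℕ} {F : List (List ℕ × ℕ)} (h : ∀ q ∈ F, inc d q.1 = true) : okF F :=
  fun q hq => (inc_spec (h q hq)).2.1

lemma F2_inc {y : ℕ} (hy : y < 45) : ∀ q ∈ F2L y, inc 2 q.1 = true := by
  have h := allN_spec chkF2_true y hy
  simp only [chkF2, Bool.and_eq_true, List.all_eq_true] at h
  exact h.1

lemma F3_inc {z : ℕ} (hz : z < 49) : ∀ q ∈ F3L z, inc 3 q.1 = true := by
  have h := allN_spec chkF3_true z hz
  simp only [chkF3, Bool.and_eq_true, List.all_eq_true] at h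
  exact h.1

lemma kill2 {w : k} (hw : w ^ 2 + w + 1 = 0) {y : ℕ} (hy : y < 45)
    {f : MvPolynomial (Fin 12) k} (hf : f ∈ I w) : evF (-w) (F2L y) f = 0 := by
  have h := allN_spec chkF2_true y hy
  simp only [chkF2, Bool.and_eq_true] at h
  exact kill hw (inc_okF (F2_inc hy)) (fun j hj => ⟨5, allN_spec h.2 j hj⟩) hf

lemma kill3 {w : k} (hw : w ^ 2 + w + 1 = 0) {z : ℕ} (hz : z < 49)
    {f : MvPolynomial (Fin 12) k} (hf : f ∈ I w) : evF (-w) (F3L z) f = 0 := by
  have h := allN_spec chkF3_true z hz
  simp only [chkF3, Bool.and_eq_true] at h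
  exact kill hw (inc_okF (F3_inc hz)) (fun j hj => ⟨15, allN_spec h.2 j hj⟩) hf

lemma kill0 {w : k} (hw : w ^ 2 + w + 1 = 0)
    {f : MvPolynomial (Fin 12) k} (hf : f ∈ I w) : evF (-w) [([], 0)] f = 0 := by
  refine kill hw (by intro p hp; simp at hp; subst hp; intro a ha; simp at ha) ?_ hf
  intro j hj
  refine ⟨1, ?_⟩
  have : allN (fun j => chkZ 1 (contr [([], 0)] (genL j))) 33 = true := by decide +kernel
  exact allN_spec this j hj

lemma kill1 {w : k} (hw : w ^ 2 + w + 1 = 0) {a : ℕ} (ha : a < 12)
    {f : MvPolynomial (Fin 12) k} (hf : f ∈ I w) : evF (-w) [([a], 0)] f = 0 := by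
  refine kill hw (by intro p hp; simp at hp; subst hp; intro b hb; simp at hb; omega) ?_ hf
  intro j hj
  refine ⟨1, ?_⟩
  have : allN (fun a => allN (fun j => chkZ 1 (contr [([a], 0)] (genL j))) 33) 12 = true := by
    decide +kernel
  exact allN_spec (allN_spec this a ha) j hj

/-- all dual functionals vanish on the ideal -/
lemma kill_dual {w : k} (hw : w ^ 2 + w + 1 = 0) {F : List (List ℕ × ℕ)} (hF : F ∈ dualL)
    {f : MvPolynomial (Fin 12) k} (hf : f ∈ I w) : evF (-w) F f = 0 := by
  unfold dualL at hF
  simp only [List.cons_append, List.mem_cons, List.mem_append, List.mem_map, List.mem_range] at hF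
  rcases hF with rfl | (⟨i, hi, rfl⟩ | ⟨y, hy, rfl⟩) | ⟨z, hz, rfl⟩
  · exact kill0 hw hf
  · exact kill1 hw hi hf
  · exact kill2 hw hy hf
  · exact kill3 hw hz hf

/-! ### injectivity of exponents -/

lemma expo_count {m : List ℕ} (hm : ok m) {a : ℕ} (ha : a < 12) :
    expo m (Fin.ofNat 12 a) = m.count a := by
  induction m with
  | nil => simp
  | cons b t ih =>
    rw [expo_cons, Finsupp.add_apply, ih (fun c hc => hm c (List.mem_cons_of_mem _ hc)),
      List.count_cons, Finsupp.single_apply]
    by_cases h : b = a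
    · subst h; simp [add_comm]
    · have : ¬ Fin.ofNat 12 b = Fin.ofNat 12 a := fun h1 => h (ofNat_inj (hm b List.mem_cons_self) ha h1)
      rw [if_neg this]
      simp [h]

lemma expo_inj {m m' : List ℕ} (hm : ok m) (hm' : ok m') (h1 : m.Pairwise (· < ·))
    (h2 : m'.Pairwise (· < ·)) (h : expo m = expo m') : m = m' := by
  have hp : m.Perm m' := by
    rw [List.perm_iff_count]
    intro a
    by_cases ha : a < 12
    · rw [← expo_count hm ha, ← expo_count hm' ha, h]
    · rw [List.count_eq_zero_of_not_mem (fun h => ha (hm a h)),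
        List.count_eq_zero_of_not_mem (fun h => ha (hm' a h))]
  exact hp.eq_of_pairwise (fun a b _ _ hab hba => absurd hab (not_lt.mpr hba.le)) h1 h2

lemma memL_iff {m : List ℕ} {L : List (List ℕ)} : memL m L = true ↔ m ∈ L := by
  induction L with
  | nil => simp [memL]
  | cons b t ih =>
    simp only [memL, Bool.or_eq_true, ih, List.mem_cons]
    constructor
    · rintro (h | h)
      · exact Or.inl (beqL_eq h)
      · exact Or.inr h
    · rintro (h | h)
      · left; rw [h]; exact beqL_refl _
      · exact Or.inr h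

lemma bas_spec {m : List ℕ} (h : m ∈ basL) :
    m.length ≤ 3 ∧ ok m ∧ m.Pairwise (· < ·) := by
  have := (List.all_eq_true.mp basL_inc) m h
  simp only [Bool.and_eq_true, Nat.ble_eq] at this
  exact ⟨this.1, (inc_spec this.2).2⟩

lemma basL_eq : basL = dualL.map fun F => (F.headD ([], 0)).1 := by
  unfold basL dualL
  simp [List.map_append, Function.comp_def]

/-- value of a functional on a monomial -/
lemma evF_mon_of_notMem (u : k) {F : List (List ℕ × ℕ)} {m : List ℕ}
    (hm : ok m ∧ m.Pairwise (· < ·)) (hF : ∀ q ∈ F, ok q.1 ∧ q.1.Pairwise (· < ·))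
    (h : ∀ q ∈ F, q.1 ≠ m) : evF u F (mon k m) = 0 := by
  induction F with
  | nil => exact evF_nil _ _
  | cons q t ih =>
    rw [evF_cons, ih (fun p hp => hF p (List.mem_cons_of_mem _ hp))
      (fun p hp => h p (List.mem_cons_of_mem _ hp)), mon, coeff_monomial, if_neg, mul_zero, add_zero]
    intro he
    have hq := hF q List.mem_cons_self
    exact h q List.mem_cons_self (expo_inj hm.1 hq.1 hm.2 hq.2 he).symm

lemma dual_inc {F : List (List ℕ × ℕ)} (hF : F ∈ dualL) :
    ∀ q ∈ F, ok q.1 ∧ q.1.Pairwise (· < ·) := by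
  unfold dualL at hF
  simp only [List.cons_append, List.mem_cons, List.mem_append, List.mem_map, List.mem_range] at hF
  rcases hF with rfl | (⟨i, hi, rfl⟩ | ⟨y, hy, rfl⟩) | ⟨z, hz, rfl⟩
  · intro q hq
    simp only [List.mem_singleton] at hq
    subst hq
    exact ⟨fun a ha => by simp at ha, List.Pairwise.nil⟩
  · intro q hq
    simp only [List.mem_singleton] at hq
    subst hq
    exact ⟨fun a ha => by simp at ha; omega, List.pairwise_singleton _ _⟩
  · exact fun q hq => (inc_spec (F2_inc hy q hq)).2
  · exact fun q hq => (inc_spec (F3_inc hz q hq)).2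

/-- duality -/
lemma dual_apply (u : k) {F : List (List ℕ × ℕ)} (hF : F ∈ dualL) {m : List ℕ} (hm : m ∈ basL) :
    evF u F (mon k m) = if m = (F.headD ([], 0)).1 then 1 else 0 := by
  have hD := (List.all_eq_true.mp chkD_true) F hF
  have hinc := dual_inc hF
  cases F with
  | nil => simp [chkD] at hD
  | cons q t =>
    simp only [chkD, Bool.and_eq_true, List.all_eq_true] at hD
    have hm' := bas_spec hm
    rw [evF_cons, evF_mon_of_notMem u hm'.2 (fun p hp => hinc p (List.mem_cons_of_mem _ hp)),
      add_zero, Nat.eq_of_beq_eq_true hD.1, pow_zero, one_mul, mon, coeff_monomial]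
    · have hq := hinc q List.mem_cons_self
      by_cases h : m = q.1
      · rw [if_pos (by rw [h]), if_pos (by simpa using h)]
      · rw [if_neg (fun he => h (expo_inj hm'.2.1 hq.1 hm'.2.2 hq.2 he)), if_neg (by simpa using h)]
    · intro p hp he
      have := hD.2 p hp
      rw [he] at this
      simp only [Bool.not_eq_true', ← Bool.not_eq_true, memL_iff] at this
      exact this hm

/-! ### spanning -/

/-- values of a functional on increasing monomials of degree `d` -/
noncomputable def vS (d : ℕ) (Λ : MvPolynomial (Fin 12) k →ₗ[k] k) (K : ℕ) : k :=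
  if inc d (dig d K []) = true then Λ (mon k (dig d K [])) else 0

lemma insO_some {a : ℕ} {m m' : List ℕ} (h : insO a m = some m') : m'.Perm (a :: m) := by
  induction m generalizing m' with
  | nil =>
    simp only [insO, Option.some.injEq] at h
    rw [← h]
  | cons b t ih =>
    simp only [insO] at h
    cases h1 : Nat.blt a b
    · rw [h1, cond_false] at h
      cases h2 : Nat.beq a b
      · rw [h2, cond_false] at h
        cases h3 : insO a t
        · rw [h3] at h; simp at h
        · rw [h3] at h
          simp only [Option.some.injEq] at h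
          rw [← h]
          exact ((ih h3).cons b).trans (List.Perm.swap a b t)
      · rw [h2] at h; simp at h
    · rw [h1, cond_true] at h
      simp only [Option.some.injEq] at h
      rw [← h]

lemma insO_sorted {a : ℕ} {m m' : List ℕ} (h : insO a m = some m') (hm : m.Pairwise (· ≤ ·)) :
    m'.Pairwise (· ≤ ·) := by
  induction m generalizing m' with
  | nil =>
    simp only [insO, Option.some.injEq] at h
    rw [← h]; exact List.pairwise_singleton _ _
  | cons b t ih =>
    simp only [insO] at h
    have hb := List.pairwise_cons.mp hm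
    cases h1 : Nat.blt a b
    · rw [h1, cond_false] at h
      have h1' : b ≤ a := by
        by_contra hc
        have : Nat.blt a b = true := Nat.blt_eq.mpr (by omega)
        rw [this] at h1; simp at h1
      cases h2 : Nat.beq a b
      · rw [h2, cond_false] at h
        cases h3 : insO a t
        · rw [h3] at h; simp at h
        · rw [h3] at h
          simp only [Option.some.injEq] at h
          rw [← h, List.pairwise_cons]
          refine ⟨?_, ih h3 hb.2⟩
          intro c hc
          rcases List.mem_cons.mp ((insO_some h3).mem_iff.mp hc) with h4 | h4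
          · omega
          · exact hb.1 c h4
      · rw [h2] at h; simp at h
    · rw [h1, cond_true] at h
      simp only [Option.some.injEq] at h
      have h1' : a < b := by simpa [Nat.blt_eq] using h1
      rw [← h, List.pairwise_cons]
      refine ⟨?_, hm⟩
      intro c hc
      rcases List.mem_cons.mp hc with h4 | h4
      · omega
      · have := hb.1 c h4; omega

lemma insO_none {a : ℕ} {m : List ℕ} (h : insO a m = none) : a ∈ m := by
  induction m with
  | nil => simp [insO] at h
  | cons b t ih =>
    simp only [insO] at h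
    cases h1 : Nat.blt a b
    · rw [h1, cond_false] at h
      cases h2 : Nat.beq a b
      · rw [h2, cond_false] at h
        cases h3 : insO a t
        · exact List.mem_cons_of_mem _ (ih h3)
        · rw [h3] at h; simp at h
      · rw [Nat.eq_of_beq_eq_true h2]; exact List.mem_cons_self
    · rw [h1] at h; simp at h

lemma insM_some {l m m' : List ℕ} (h : insM l m = some m') : m'.Perm (l ++ m) := by
  induction l generalizing m with
  | nil => simp only [insM, Option.some.injEq] at h; rw [← h]; exact List.Perm.refl _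
  | cons a l ih =>
    simp only [insM] at h
    cases h1 : insO a m
    · rw [h1] at h; simp at h
    · rename_i m1
      rw [h1] at h
      refine (ih h).trans ?_
      refine ((insO_some h1).append_left l).trans ?_
      exact List.perm_middle

lemma insM_sorted {l m m' : List ℕ} (h : insM l m = some m') (hm : m.Pairwise (· ≤ ·)) :
    m'.Pairwise (· ≤ ·) := by
  induction l generalizing m with
  | nil => simp only [insM, Option.some.injEq] at h; rw [← h]; exact hm
  | cons a l ih =>
    simp only [insM] at h
    cases h1 : insO a m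
    · rw [h1] at h; simp at h
    · rw [h1] at h
      exact ih h (insO_sorted h1 hm)

lemma insM_none {l m : List ℕ} (h : insM l m = none) : ¬ (l ++ m).Nodup := by
  induction l generalizing m with
  | nil => simp [insM] at h
  | cons a l ih =>
    simp only [insM] at h
    cases h1 : insO a m
    · intro hn
      rw [List.cons_append, List.nodup_cons] at hn
      exact hn.1 (List.mem_append_right _ (insO_none h1))
    · rename_i m1
      rw [h1] at h
      intro hn
      apply ih h
      have : (l ++ m1).Perm (a :: l ++ m) := by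
        refine ((insO_some h1).append_left l).trans ?_
        exact List.perm_middle
      exact this.nodup_iff.mpr hn

lemma mon_append (l m : List ℕ) : mon k (l ++ m) = mon k l * mon k m := by
  induction l with
  | nil => simp [mon_nil]
  | cons a l ih => rw [List.cons_append, mon_cons, mon_cons, ih, mul_assoc]

lemma lt_of_sorted_nodup {m : List ℕ} (h1 : m.Pairwise (· ≤ ·)) (h2 : m.Nodup) :
    m.Pairwise (· < ·) := by
  induction m with
  | nil => exact List.Pairwise.nil
  | cons a t ih =>
    rw [List.pairwise_cons] at h1 ⊢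
    rw [List.nodup_cons] at h2
    refine ⟨fun b hb => lt_of_le_of_ne (h1.1 b hb) ?_, ih h1.2 h2.2⟩
    rintro rfl
    exact h2.1 hb

lemma vS_key {w : k} {Λ : MvPolynomial (Fin 12) k →ₗ[k] k} (hΛ : ∀ f ∈ I w, Λ f = 0)
    {m : List ℕ} (hm : ok m) (hs : m.Pairwise (· ≤ ·)) :
    vS m.length Λ (key 0 m) = Λ (mon k m) := by
  have h3 : dig m.length (key 0 m) [] = m := by rw [dig_key 0 hm, List.append_nil]
  rw [vS, h3]
  by_cases hn : m.Nodup
  · rw [if_pos (inc_of rfl hm (lt_of_sorted_nodup hs hn))]
  · rw [if_neg, hΛ _ (mon_mem_of_dup w hm hn)]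
    intro h
    exact hn ((inc_spec h).2.2.imp (fun h => ne_of_lt h))

lemma rowEv_mulRow {w : k} {Λ : MvPolynomial (Fin 12) k →ₗ[k] k} (hΛ : ∀ f ∈ I w, Λ f = 0)
    {ls : List ℕ} (hls : ok ls) (p : List (List ℕ × ℕ))
    (hp : ∀ q ∈ p, ok q.1 ∧ q.1.Pairwise (· ≤ ·) ∧ q.1.length = 2) :
    rowEv (-w) (vS (ls.length + 2) Λ) (mulRow ls p) = Λ (mon k ls * poly (-w) p) := by
  induction p with
  | nil => simp [mulRow, rowEv, poly_nil]
  | cons q t ih =>
    have ih' := ih (fun p hp' => hp p (List.mem_cons_of_mem _ hp'))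
    have hq := hp q List.mem_cons_self
    have hok : ok (ls ++ q.1) := by
      intro a ha
      rcases List.mem_append.mp ha with h | h
      · exact hls a h
      · exact hq.1 a h
    have e1 : Λ (mon k ls * poly (-w) (q :: t)) =
        (-w) ^ q.2 * Λ (mon k (ls ++ q.1)) + Λ (mon k ls * poly (-w) t) := by
      rw [poly_cons, mul_add, map_add, mon_append, ← smul_eq_mul ((-w) ^ q.2), ← map_smul,
        smul_eq_C_mul]
      congr 2
      ring
    rw [e1, mulRow]
    cases h : insM ls q.1
    · simp only
      rw [ih', hΛ _ (mon_mem_of_dup w hok (insM_none h)), mul_zero, zero_add]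
    · rename_i m
      simp only
      have hperm := insM_some h
      have hlen : m.length = ls.length + 2 := by
        rw [hperm.length_eq, List.length_append, hq.2.2]
      rw [rowEv_cons, ih', ← hlen, vS_key hΛ (fun a ha => hok a (hperm.mem_iff.mp ha))
        (insM_sorted h hq.2.1), mon_perm hperm]

/-- the monomials of the generators are sorted -/
def chkGen2 (j : ℕ) : Bool :=
  (genL j).all fun q => okB q.1 && match q.1 with
    | [a, b] => Nat.ble a b
    | _ => false

theorem chkGen2_true : allN chkGen2 33 = true := by decide +kernel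

lemma genL_sorted (j : ℕ) : ∀ q ∈ genL j, ok q.1 ∧ q.1.Pairwise (· ≤ ·) ∧ q.1.length = 2 := by
  rcases Nat.lt_or_ge j 33 with hj | hj
  · have := allN_spec chkGen2_true j hj
    simp only [chkGen2, List.all_eq_true, Bool.and_eq_true] at this
    intro q hq
    have h := this q hq
    refine ⟨okB_ok h.1, ?_⟩
    have h2 := h.2
    split at h2
    · rename_i a b hab
      rw [hab]
      refine ⟨?_, rfl⟩
      simp only [List.pairwise_cons, List.mem_singleton, forall_eq]
      refine ⟨Nat.ble_eq.mp h2, ?_, List.Pairwise.nil⟩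
      intro a ha; simp at ha
    · simp at h2
  · have : genL j = [] := by
      have h1 : genT.getD j 0 = 0 := by
        apply List.getD_eq_default
        have : genT.length = 33 := by decide +kernel
        omega
      rw [genL, h1]; rfl
    rw [this]; intro q hq; simp at hq

theorem hcS4_p0 : allN (fun K => !(tb zS4 K) || !(inc 4 (dig 4 K []))) 3456 = true := by decide +kernel

theorem hcS4_p1 : allN (fun i => !(tb zS4 (3456 + i)) || !(inc 4 (dig 4 (3456 + i) []))) 3456 = true := by decide +kernel

theorem hcS4_p2 : allN (fun i => !(tb zS4 (6912 + i)) || !(inc 4 (dig 4 (6912 + i) []))) 3456 = true := by decide +kernel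

theorem hcS4_p3 : allN (fun i => !(tb zS4 (10368 + i)) || !(inc 4 (dig 4 (10368 + i) []))) 3456 = true := by decide +kernel

theorem hcS4_p4 : allN (fun i => !(tb zS4 (13824 + i)) || !(inc 4 (dig 4 (13824 + i) []))) 3456 = true := by decide +kernel

theorem hcS4_p5 : allN (fun i => !(tb zS4 (17280 + i)) || !(inc 4 (dig 4 (17280 + i) []))) 3456 = true := by decide +kernel

theorem hcS4 : allN (fun K => !(tb zS4 K) || !(inc 4 (dig 4 K []))) 20736 = true := by
  have h1 : allN (fun K => !(tb zS4 K) || !(inc 4 (dig 4 K []))) 6912 = true := allN_add hcS4_p0 hcS4_p1 rfl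
  have h2 : allN (fun K => !(tb zS4 K) || !(inc 4 (dig 4 K []))) 10368 = true := allN_add h1 hcS4_p2 rfl
  have h3 : allN (fun K => !(tb zS4 K) || !(inc 4 (dig 4 K []))) 13824 = true := allN_add h2 hcS4_p3 rfl
  have h4 : allN (fun K => !(tb zS4 K) || !(inc 4 (dig 4 K []))) 17280 = true := allN_add h3 hcS4_p4 rfl
  have h5 : allN (fun K => !(tb zS4 K) || !(inc 4 (dig 4 K []))) 20736 = true := allN_add h4 hcS4_p5 rfl
  exact h5

section systems

variable {w : k} {Λ : MvPolynomial (Fin 12) k →ₗ[k] k}

lemma zero2 [CharZero k] (hw : w ^ 2 + w + 1 = 0) (hΛ : ∀ f ∈ I w, Λ f = 0)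
    (hb : ∀ m ∈ basL, m.length = 2 → Λ (mon k m) = 0) {m : List ℕ} (hm : inc 2 m = true) :
    Λ (mon k m) = 0 := by
  obtain ⟨h1, h2, h3⟩ := inc_spec hm
  have key1 := zero_of_chk' (root hw) (fun i hi => chkFrom_chk chkS2 i (Nat.zero_le _) (by omega))
    finS2 (vS 2 Λ) ?_ ?_ (key 0 m) ?_
  · rw [← vS_key hΛ h2 (h3.imp (fun h => le_of_lt h)), h1]; exact key1
  · intro i _
    have := rowEv_mulRow hΛ (ls := []) (by intro a ha; simp at ha) (genL (tS2.get (i + 1)).1)
      (genL_sorted _)
    rw [origS2]
    refine this.trans (hΛ _ (Ideal.mul_mem_left _ _ (genL_mem hw _)))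
  · have hc : allN (fun K => !(tb zS2 K) || (!(inc 2 (dig 2 K [])) || memL (dig 2 K []) basL))
        144 = true := by decide +kernel
    intro i hi hz
    have h := allN_spec hc i hi
    simp only [hz, Bool.not_true, Bool.false_or, Bool.or_eq_true, Bool.not_eq_true'] at h
    rw [vS]
    rcases h with h | h
    · rw [if_neg (by rw [h]; simp)]
    · split_ifs with h5
      · exact hb _ (memL_iff.mp h) (inc_spec h5).1
      · rfl
  · have := key_lt h2 (j := 0) (c := 1) (by norm_num)
    rw [h1] at this; simpa using this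

lemma zero3 [CharZero k] (hw : w ^ 2 + w + 1 = 0) (hΛ : ∀ f ∈ I w, Λ f = 0)
    (hb : ∀ m ∈ basL, Λ (mon k m) = 0) {m : List ℕ} (hm : inc 3 m = true) :
    Λ (mon k m) = 0 := by
  obtain ⟨h1, h2, h3⟩ := inc_spec hm
  have key1 := zero_of_chk' (root hw) (fun i hi => chkFrom_chk chkS3 i (Nat.zero_le _) (by omega))
    finS3 (vS 3 Λ) ?_ ?_ (key 0 m) ?_
  · rw [← vS_key hΛ h2 (h3.imp (fun h => le_of_lt h)), h1]; exact key1
  · have hc : allN (fun i => Nat.blt ((tS3.get (i + 1)).1 / 64) 12) 171 = true := by decide +kernel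
    intro i hi
    have hi' := allN_spec hc i hi
    rw [Nat.blt_eq] at hi'
    have := rowEv_mulRow hΛ (ls := [(tS3.get (i + 1)).1 / 64])
      (by intro a ha; simp only [List.mem_singleton] at ha; omega) (genL ((tS3.get (i + 1)).1 % 64))
      (genL_sorted _)
    rw [origS3]
    refine this.trans (hΛ _ (Ideal.mul_mem_left _ _ (genL_mem hw _)))
  · have hc : allN (fun K => !(tb zS3 K) || (!(inc 3 (dig 3 K [])) || memL (dig 3 K []) basL))
        1728 = true := by decide +kernel
    intro i hi hz
    have h := allN_spec hc i hi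
    simp only [hz, Bool.not_true, Bool.false_or, Bool.or_eq_true, Bool.not_eq_true'] at h
    rw [vS]
    rcases h with h | h
    · rw [if_neg (by rw [h]; simp)]
    · split_ifs
      · exact hb _ (memL_iff.mp h)
      · rfl
  · have := key_lt h2 (j := 0) (c := 1) (by norm_num)
    rw [h1] at this; simpa using this

lemma zero4 [CharZero k] (hw : w ^ 2 + w + 1 = 0) (hΛ : ∀ f ∈ I w, Λ f = 0)
    {m : List ℕ} (hm : inc 4 m = true) : Λ (mon k m) = 0 := by
  obtain ⟨h1, h2, h3⟩ := inc_spec hm
  have key1 := zero_of_chk' (root hw) (fun i hi => chkFrom_chk chkS4 i (Nat.zero_le _) (by omega))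
    finS4 (vS 4 Λ) ?_ ?_ (key 0 m) ?_
  · rw [← vS_key hΛ h2 (h3.imp (fun h => le_of_lt h)), h1]; exact key1
  · have hc : allN (fun i => Nat.blt ((tS4.get (i + 1)).1 / 64 / 12) 12) 495 = true := by
      decide +kernel
    intro i hi
    have hi' := allN_spec hc i hi
    rw [Nat.blt_eq] at hi'
    have := rowEv_mulRow hΛ (ls := [(tS4.get (i + 1)).1 / 64 / 12, (tS4.get (i + 1)).1 / 64 % 12])
      (by
        intro a ha
        simp only [List.mem_cons, List.not_mem_nil, or_false] at ha
        rcases ha with ha | ha <;> omega) (genL ((tS4.get (i + 1)).1 % 64)) (genL_sorted _)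
    rw [origS4]
    refine this.trans (hΛ _ (Ideal.mul_mem_left _ _ (genL_mem hw _)))
  · have hc : allN (fun K => !(tb zS4 K) || !(inc 4 (dig 4 K []))) 20736 = true := hcS4
    intro i hi hz
    have h := allN_spec hc i hi
    simp only [hz, Bool.not_true, Bool.false_or, Bool.not_eq_true'] at h
    rw [vS, if_neg (by rw [h]; simp)]
  · have := key_lt h2 (j := 0) (c := 1) (by norm_num)
    rw [h1] at this; simpa using this

end systems

end Pool.Agent.H68.Gal
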