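import Pool.Agent.H68.Gal.Data

/-!
# Lists for monomials, functionals and syzygies
-/

namespace Pool.Agent.H68.Gal

/-- Remove one occurrence of `a`. -/
def er (a : ℕ) : List ℕ → Option (List ℕ)
  | [] => none
  | b :: t => bif Nat.beq a b then some t else
      match er a t with
      | none => none
      | some s => some (b :: s)

/-- the `d` digits of a number in base `12` -/
def dig : ℕ → ℕ → List ℕ → List ℕ
  | 0, _, acc => acc
  | d + 1, x, acc => dig d (x / 12) (x % 12 :: acc)

/-- decode a functional (or polynomial) of degree `d`: entries `8 * code + e + 1` -/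
def decF (d n : ℕ) : List (List ℕ × ℕ) :=
  (dec 200 n).map fun x => (dig d ((x - 1) / 8) [], (x - 1) % 8)

/-- decode a syzygy: entries `(l, j, e)` -/
def decS (n : ℕ) : List (ℕ × ℕ × ℕ) :=
  (dec 200 n).map fun x => ((x - 1) / 8 / 33, (x - 1) / 8 % 33, (x - 1) % 8)

/-- key of an unknown -/
def key (j : ℕ) (m : List ℕ) : ℕ := m.foldl (fun acc a => acc * 12 + a) j

/-- part of a row -/
def rowPart (l j e : ℕ) : List (List ℕ × ℕ) → List (ℕ × ℕ)
  | [] => []
  | p :: t => match er l p.1 with
    | none => rowPart l j e t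
    | some m => (key j m, e + p.2) :: rowPart l j e t

/-- the row of a syzygy and a functional -/
def mkRow (F : List (List ℕ × ℕ)) : List (ℕ × ℕ × ℕ) → List (ℕ × ℕ)
  | [] => []
  | s :: t => rowPart s.1 s.2.1 s.2.2 F ++ mkRow F t

/-- the rows in degree `0` -/
def orig2 (a : ℕ) : List (ℕ × ℕ) :=
  mkRow (decF 3 (f3T.getD (a % 64) 0)) (decS (syzT.getD (a / 64) 0))

end Pool.Agent.H68.Gal
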