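import Mathlib

/-!
# Linear systems with trivial kernel: transfer from `ZMod 7` to characteristic zero

Rows of a linear system are lists of pairs `(key, e)`, standing for the linear form
`∑ u ^ e * v key`, where `u` is a root of `u ^ 2 - u + 1` (that is, minus a primitive cube root of
unity).  If the system with `u = 3` over `ZMod 7` has a trivial kernel then so has the system over
any field of characteristic zero.
-/

namespace Pool.Agent.H68.Gal

open Polynomial Matrix

/-- The value `∑ u ^ e * v key` of a row. -/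
def rowEv {K : Type*} [CommRing K] (u : K) (v : ℕ → K) (r : List (ℕ × ℕ)) : K :=
  (r.map fun p => u ^ p.2 * v p.1).sum

/-- The system `rows`, together with `v i = 0` for `Z i`, has only the zero solution
on `{i | i < N}`. -/
def TK (K : Type*) [CommRing K] (u : K) (rows : List (List (ℕ × ℕ))) (Z : ℕ → Prop) (N : ℕ) :
    Prop :=
  ∀ v : ℕ → K, (∀ r ∈ rows, rowEv u v r = 0) → (∀ i, Z i → v i = 0) → ∀ i < N, v i = 0

section Transfer

variable {k : Type*} [Field k] [CharZero k]

lemma nonvanish {u : k} (hu : u ^ 2 - u + 1 = 0) (δ : ℤ[X])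
    (h7 : eval₂ (Int.castRingHom (ZMod 7)) 3 δ ≠ 0) :
    eval₂ (Int.castRingHom k) u δ ≠ 0 := by
  intro h0
  set q : ℤ[X] := X ^ 2 - X + 1 with hq
  have hqm : q.Monic := by
    rw [hq]; monicity!
  have hqd : q.natDegree = 2 := by
    rw [hq]; compute_degree!
  set r := δ %ₘ q with hr
  have hrdeg : r.natDegree < 2 := by
    rw [← hqd]
    exact natDegree_modByMonic_lt δ hqm (by intro h; rw [h] at hqd; simp at hqd)
  have hrform : r = C (r.coeff 1) * X + C (r.coeff 0) := by
    exact eq_X_add_C_of_natDegree_le_one (by omega)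
  have hdiv : δ = r + q * (δ /ₘ q) := (modByMonic_add_div δ q).symm
  have hqu : eval₂ (Int.castRingHom k) u q = 0 := by
    rw [hq]; simp [eval₂_add, eval₂_sub, eval₂_pow]; exact hu
  have hru : eval₂ (Int.castRingHom k) u r = 0 := by
    rw [hdiv, eval₂_add, eval₂_mul, hqu, zero_mul, add_zero] at h0
    exact h0
  have hab : (r.coeff 1 : k) * u + (r.coeff 0 : k) = 0 := by
    have h := congrArg (eval₂ (Int.castRingHom k) u) hrform
    rw [hru, eval₂_add, eval₂_mul, eval₂_C, eval₂_C, eval₂_X] at h
    simpa using h.symm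
  have hz : r.coeff 1 = 0 ∧ r.coeff 0 = 0 := by
    set a := r.coeff 0
    set b := r.coeff 1
    have e1 : ((a * a + a * b + b * b : ℤ) : k) = 0 := by
      push_cast
      have hb : (b : k) * u = -a := by linear_combination hab
      have : (b : k) ^ 2 * (u ^ 2 - u + 1) = 0 := by rw [hu, mul_zero]
      linear_combination this - ((b : k) * u - a - b) * hab
    have e2 : a * a + a * b + b * b = 0 := by exact_mod_cast e1
    constructor
    · nlinarith [sq_nonneg (a + b), sq_nonneg a, sq_nonneg b, sq_nonneg (2 * a + b)]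
    · nlinarith [sq_nonneg (a + b), sq_nonneg a, sq_nonneg b, sq_nonneg (2 * b + a)]
  have hr0 : r = 0 := by rw [hrform, hz.1, hz.2]; simp
  apply h7
  rw [hdiv, hr0, zero_add, eval₂_mul]
  have : eval₂ (Int.castRingHom (ZMod 7)) 3 q = 0 := by
    rw [hq]; simp; decide
  rw [this, zero_mul]

open Classical in
/-- The matrix over `ℤ[X]` of a system. -/
noncomputable def sysMat (rows : List (List (ℕ × ℕ))) (Z : ℕ → Prop) (N : ℕ) :
    Matrix (Fin rows.length ⊕ Fin N) (Fin N) ℤ[X] :=
  Matrix.of fun i j => Sum.elim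
    (fun r => ((rows.get r).map fun p => if p.1 = (j : ℕ) then (X : ℤ[X]) ^ p.2 else 0).sum)
    (fun i' => if i' = j ∧ Z i' then 1 else 0) i

/-- extension by zero -/
def extZ {K : Type*} [Zero K] {N : ℕ} (v : Fin N → K) (i : ℕ) : K :=
  if h : i < N then v ⟨i, h⟩ else 0

lemma sysMat_inl {K : Type*} [Field K] (φ : ℤ[X] →+* K) (rows : List (List (ℕ × ℕ)))
    (Z : ℕ → Prop) (N : ℕ) (hb : ∀ r ∈ rows, ∀ p ∈ r, p.1 < N) (v : Fin N → K)
    (r : Fin rows.length) :
    ((sysMat rows Z N).map φ).mulVec v (Sum.inl r) = rowEv (φ X) (extZ v) (rows.get r) := by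
  have hbr : ∀ p ∈ rows.get r, p.1 < N := hb _ (List.get_mem _ _)
  unfold rowEv
  simp only [Matrix.mulVec, dotProduct, Matrix.map_apply, sysMat, Matrix.of_apply, Sum.elim_inl]
  generalize rows.get r = l at hbr
  induction l with
  | nil => simp
  | cons p t ih =>
    have ih' := ih (fun q hq => hbr q (List.mem_cons_of_mem _ hq))
    have hp : p.1 < N := hbr p List.mem_cons_self
    simp only [List.map_cons, List.sum_cons, map_add, add_mul, Finset.sum_add_distrib]
    rw [ih']
    congr 1
    have : ∀ j : Fin N, φ (if p.1 = (j : ℕ) then (X : ℤ[X]) ^ p.2 else 0) * v j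
        = if j = ⟨p.1, hp⟩ then φ X ^ p.2 * v ⟨p.1, hp⟩ else 0 := by
      intro j
      by_cases hj : j = ⟨p.1, hp⟩
      · subst hj; simp
      · have : p.1 ≠ (j : ℕ) := fun h => hj (Fin.ext h.symm)
        simp [hj, this]
    simp only [this, Finset.sum_ite_eq', Finset.mem_univ, if_true]
    simp [extZ, hp]

lemma sysMat_inr {K : Type*} [Field K] (φ : ℤ[X] →+* K) (rows : List (List (ℕ × ℕ)))
    (Z : ℕ → Prop) (N : ℕ) (v : Fin N → K) (i : Fin N) :
    ((sysMat rows Z N).map φ).mulVec v (Sum.inr i) = by
      classical exact if Z i then v i else 0 := by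
  classical
  simp only [Matrix.mulVec, dotProduct, Matrix.map_apply, sysMat, Matrix.of_apply, Sum.elim_inr]
  by_cases hz : Z i
  · have : ∀ j : Fin N, φ (if i = j ∧ Z (i : ℕ) then (1 : ℤ[X]) else 0) * v j
        = if i = j then v j else 0 := by
      intro j; by_cases h : i = j <;> simp [h, hz]
      subst h; simp [hz]
    simp [this, hz]
  · simp [hz]

/-- Transfer of a trivial kernel from `ZMod 7` (with `u = 3`) to a field of characteristic zero. -/
theorem TK.transfer {u : k} (hu : u ^ 2 - u + 1 = 0) {rows : List (List (ℕ × ℕ))}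
    {Z : ℕ → Prop} {N : ℕ} (hb : ∀ r ∈ rows, ∀ p ∈ r, p.1 < N)
    (h : TK (ZMod 7) 3 rows Z N) : TK k u rows Z N := by
  classical
  have : Fact (Nat.Prime 7) := ⟨by norm_num⟩
  set A := sysMat rows Z N with hA
  set φ7 : ℤ[X] →+* ZMod 7 := eval₂RingHom (Int.castRingHom (ZMod 7)) 3 with hφ7
  set φk : ℤ[X] →+* k := eval₂RingHom (Int.castRingHom k) u with hφk
  have h7X : φ7 X = 3 := by simp [hφ7]
  have hkX : φk X = u := by simp [hφk]
  have hinj : LinearMap.ker (Matrix.toLin' (A.map φ7)) = ⊥ := by
    rw [LinearMap.ker_eq_bot']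
    intro v hv
    have hv' : ∀ i, (A.map φ7).mulVec v i = 0 := fun i => by
      rw [Matrix.toLin'_apply] at hv
      exact congrFun hv i
    have h1 := h (extZ v) (by
      intro r hr
      obtain ⟨n, hn⟩ := List.get_of_mem hr
      have := hv' (Sum.inl n)
      rw [hA, sysMat_inl φ7 rows Z N hb v n, h7X, hn] at this
      exact this) (by
      intro i hi
      by_cases hiN : i < N
      · have := hv' (Sum.inr ⟨i, hiN⟩)
        rw [hA, sysMat_inr] at this
        simp only [hi, if_true] at this
        simpa [extZ, hiN] using this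
      · simp [extZ, hiN])
    funext i
    have := h1 i i.2
    simpa [extZ] using this
  obtain ⟨g, hg⟩ := LinearMap.exists_leftInverse_of_injective _ hinj
  set L := LinearMap.toMatrix' g with hL
  have hLA : L * (A.map φ7) = 1 := by
    have := congrArg LinearMap.toMatrix' hg
    rw [LinearMap.toMatrix'_comp, LinearMap.toMatrix'_id, LinearMap.toMatrix'_toLin'] at this
    rw [hL]
    exact this
  set L' : Matrix (Fin N) (Fin rows.length ⊕ Fin N) ℤ[X] :=
    L.map (fun x => C ((x.val : ℕ) : ℤ)) with hL'
  have hL'7 : L'.map φ7 = L := by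
    ext i j
    rw [hL', hφ7, Matrix.map_apply, Matrix.map_apply, coe_eval₂RingHom, eval₂_C]
    simp
  have hdet7 : φ7 (L' * A).det = 1 := by
    rw [RingHom.map_det, RingHom.mapMatrix_apply, Matrix.map_mul, hL'7, hLA, Matrix.det_one]
  have hdetk : φk (L' * A).det ≠ 0 := by
    have := nonvanish hu (L' * A).det (by
      have h1 : φ7 (L' * A).det ≠ 0 := by rw [hdet7]; exact one_ne_zero
      simpa [hφ7] using h1)
    simpa [hφk] using this
  intro v hv hz
  set v' : Fin N → k := fun i => v i with hv'
  have hAv : (A.map φk).mulVec v' = 0 := by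
    funext i
    rcases i with r | i
    · rw [hA, sysMat_inl φk rows Z N hb v' r, hkX]
      have h1 := hv _ (List.get_mem rows r)
      rw [Pi.zero_apply, ← h1]
      unfold rowEv
      congr 1
      apply List.map_congr_left
      intro p hp
      have := hb _ (List.get_mem rows r) p hp
      simp [extZ, this, hv']
    · rw [hA, sysMat_inr]
      by_cases hzi : Z i
      · simp [hzi, hv', hz _ hzi]
      · simp [hzi]
  have hv0 : v' = 0 := by
    apply Matrix.eq_zero_of_mulVec_eq_zero (M := (L' * A).map φk)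
    · rw [← RingHom.mapMatrix_apply, ← RingHom.map_det]; exact hdetk
    · rw [Matrix.map_mul, ← Matrix.mulVec_mulVec, hAv, Matrix.mulVec_zero]
  intro i hi
  exact congrFun hv0 ⟨i, hi⟩

end Transfer

end Pool.Agent.H68.Gal
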