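import Pool.Agent.H68.Gal.Zero

/-!
# Linear vector fields reach all normalised coordinates
-/

namespace Pool.Agent.H68.Gal

open MvPolynomial

variable {k : Type*} [Field k]

lemma pderiv_mon {i : ℕ} (hi : i < 12) {m : List ℕ} (hm : ok m) :
    pderiv (Fin.ofNat 12 i) (mon k m) = ((occ i m).map (mon k)).sum := by
  induction m with
  | nil => simp [mon_nil, occ]
  | cons b t ih =>
    have ih' := ih (fun c hc => hm c (List.mem_cons_of_mem _ hc))
    have hb : b < 12 := hm b List.mem_cons_self
    have hx : pderiv (Fin.ofNat 12 i) (xv k b) = if Nat.beq i b then 1 else 0 := by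
      rw [xv, pderiv_X, Pi.single_apply]
      by_cases h : i = b
      · subst h; simp [Nat.beq_refl]
      · rw [if_neg, if_neg]
        · intro h1; exact h (Nat.eq_of_beq_eq_true h1)
        · intro h1
          exact h (ofNat_inj hi hb h1.symm)
    have hmap : ∀ L : List (List ℕ), ((L.map fun s => b :: s).map (mon k)).sum =
        xv k b * (L.map (mon k)).sum := by
      intro L
      induction L with
      | nil => simp
      | cons s L ihL =>
        rw [List.map_cons, List.map_cons, List.sum_cons, ihL, mon_cons, List.map_cons,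
          List.sum_cons, mul_add]
    rw [mon_cons, Derivation.leibniz, ih', hx, occ, smul_eq_mul, smul_eq_mul]
    cases h : Nat.beq i b
    · rw [cond_false, hmap]; simp
    · rw [cond_true, List.map_cons, List.sum_cons, hmap]; simp [add_comm]

lemma occ_spec {i : ℕ} {m m' : List ℕ} (h : m' ∈ occ i m) :
    m'.length + 1 = m.length ∧ m'.Sublist m := by
  induction m generalizing m' with
  | nil => simp [occ] at h
  | cons b t ih =>
    have h2 : m' ∈ (occ i t).map (fun s => b :: s) → m'.length + 1 = (b :: t).length ∧
        m'.Sublist (b :: t) := by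
      intro h1
      obtain ⟨s, hs, rfl⟩ := List.mem_map.mp h1
      have := ih hs
      exact ⟨by simp [this.1], this.2.cons_cons b⟩
    rw [occ] at h
    cases hb : Nat.beq i b
    · rw [hb, cond_false] at h; exact h2 h
    · rw [hb, cond_true] at h
      rcases List.mem_cons.mp h with rfl | h
      · exact ⟨rfl, List.sublist_cons_self _ _⟩
      · exact h2 h

lemma insO_strict {a : ℕ} {m m' : List ℕ} (h : insO a m = some m') (hm : m.Pairwise (· < ·)) :
    m'.Pairwise (· < ·) := by
  induction m generalizing m' with
  | nil =>
    simp only [insO, Option.some.injEq] at h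
    rw [← h]; exact List.pairwise_singleton _ _
  | cons b t ih =>
    simp only [insO] at h
    have hb := List.pairwise_cons.mp hm
    cases h1 : Nat.blt a b
    · rw [h1, cond_false] at h
      have h1' : b ≤ a := by
        by_contra hc
        have : Nat.blt a b = true := Nat.blt_eq.mpr (by omega)
        rw [this] at h1; simp at h1
      cases h2 : Nat.beq a b
      · rw [h2, cond_false] at h
        have h2' := Nat.ne_of_beq_eq_false h2
        cases h3 : insO a t
        · rw [h3] at h; simp at h
        · rw [h3] at h
          simp only [Option.some.injEq] at h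
          rw [← h, List.pairwise_cons]
          refine ⟨?_, ih h3 hb.2⟩
          intro c hc
          rcases List.mem_cons.mp ((insO_some h3).mem_iff.mp hc) with h4 | h4
          · omega
          · exact hb.1 c h4
      · rw [h2] at h; simp at h
    · rw [h1, cond_true] at h
      simp only [Option.some.injEq] at h
      have h1' : a < b := by simpa [Nat.blt_eq] using h1
      rw [← h, List.pairwise_cons]
      refine ⟨?_, hm⟩
      intro c hc
      rcases List.mem_cons.mp hc with h4 | h4
      · omega
      · have := hb.1 c h4; omega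

lemma coeff_poly_filter (u : k) {m : List ℕ} (hm : ok m ∧ m.Pairwise (· < ·)) (a : ℕ)
    {p : List (List ℕ × ℕ)} (hp : ∀ q ∈ p, ok q.1 ∧ q.1.Pairwise (· < ·)) :
    ((((p.filter (fun r => beqL m r.1)).map fun r => a + r.2)).map fun e => u ^ e).sum =
      u ^ a * coeff (expo m) (poly u p) := by
  induction p with
  | nil => simp [poly_nil]
  | cons r t ih =>
    have ih' := ih (fun q hq => hp q (List.mem_cons_of_mem _ hq))
    have hr := hp r List.mem_cons_self
    rw [poly_cons, coeff_add, coeff_C_mul, mon, coeff_monomial, mul_add, ← ih', List.filter_cons]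
    cases h : beqL m r.1
    · simp only [Bool.false_eq_true, if_false]
      rw [if_neg, mul_zero, mul_zero, zero_add]
      intro he
      have := expo_inj hr.1 hm.1 hr.2 hm.2 he
      rw [this, beqL_refl] at h
      simp at h
    · simp only [if_true]
      rw [List.map_cons, List.map_cons, List.sum_cons, beqL_eq h, if_pos rfl, mul_one, pow_add]

lemma evF_pairing (u : k) {F p : List (List ℕ × ℕ)}
    (hF : ∀ q ∈ F, ok q.1 ∧ q.1.Pairwise (· < ·)) (hp : ∀ q ∈ p, ok q.1 ∧ q.1.Pairwise (· < ·)) :
    ((pairing F p).map fun e => u ^ e).sum = evF u F (poly u p) := by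
  induction F with
  | nil => simp [pairing, evF_nil]
  | cons q t ih =>
    have ih' := ih (fun p hp' => hF p (List.mem_cons_of_mem _ hp'))
    have hq := hF q List.mem_cons_self
    have e1 : pairing (q :: t) p = ((p.filter (fun r => beqL q.1 r.1)).map fun r => q.2 + r.2) ++
      pairing t p := by simp [pairing]
    rw [e1, List.map_append, List.sum_append, ih', coeff_poly_filter u hq q.2 hp, evF_cons]

section

variable {w : k} (hw : w ^ 2 + w + 1 = 0)

include hw in
lemma evF_dpolyT {j : ℕ} (hj : j < 12) (e : ℕ) {L : List (List ℕ)} (hL : ∀ m ∈ L, ok m) {y : ℕ}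
    (hy : y < 45) : evF (-w) (F2L y) (poly (-w) (dpolyT j e L)) =
      (-w) ^ e * evF (-w) (F2L y) (xv k j * (L.map (mon k)).sum) := by
  induction L with
  | nil => simp [dpolyT, poly_nil]
  | cons m t ih =>
    have ih' := ih (fun c hc => hL c (List.mem_cons_of_mem _ hc))
    have hm := hL m List.mem_cons_self
    rw [dpolyT, List.map_cons, List.sum_cons, mul_add, map_add, mul_add, ← mon_cons]
    cases h : insO j m
    · simp only
      have hdup : mon k (j :: m) ∈ I w := by
        apply mon_mem_of_dup w
        · intro c hc
          rcases List.mem_cons.mp hc with h1 | h1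
          · rw [h1]; exact hj
          · exact hm c h1
        · intro hn
          exact (List.nodup_cons.mp hn).1 (insO_none h)
      rw [ih', kill2 hw hy hdup, mul_zero, zero_add]
    · simp only
      rw [poly_cons, map_add, ih', ← mon_perm (insO_some h), ← smul_eq_C_mul, map_smul,
        smul_eq_mul]

include hw in
lemma evF_dpoly {i j : ℕ} (hi : i < 12) (hj : j < 12) {p : List (List ℕ × ℕ)}
    (hp : ∀ q ∈ p, ok q.1) {y : ℕ} (hy : y < 45) :
    evF (-w) (F2L y) (poly (-w) (dpoly i j p)) =
      evF (-w) (F2L y) (xv k j * pderiv (Fin.ofNat 12 i) (poly (-w) p)) := by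
  induction p with
  | nil => simp [dpoly, poly_nil]
  | cons q t ih =>
    have ih' := ih (fun c hc => hp c (List.mem_cons_of_mem _ hc))
    have hq := hp q List.mem_cons_self
    rw [dpoly, poly_append, map_add, ih', evF_dpolyT hw hj q.2 (fun m hm a ha =>
      hq a ((occ_spec hm).2.subset ha)) hy, ← pderiv_mon hi hq, poly_cons, map_add, mul_add,
      map_add]
    congr 1
    rw [← smul_eq_mul ((-w) ^ q.2), ← map_smul, smul_eq_C_mul]
    congr 1
    rw [pderiv_C_mul]
    ring

lemma dpolyT_inc {j : ℕ} (hj : j < 12) (e : ℕ) {L : List (List ℕ)}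
    (hL : ∀ m ∈ L, ok m ∧ m.Pairwise (· < ·)) :
    ∀ q ∈ dpolyT j e L, ok q.1 ∧ q.1.Pairwise (· < ·) := by
  induction L with
  | nil => intro q hq; simp [dpolyT] at hq
  | cons m t ih =>
    have ih' := ih (fun c hc => hL c (List.mem_cons_of_mem _ hc))
    have hm := hL m List.mem_cons_self
    intro q hq
    rw [dpolyT] at hq
    cases h : insO j m
    · rw [h] at hq; exact ih' q hq
    · rw [h] at hq
      rcases List.mem_cons.mp hq with rfl | h1
      · refine ⟨?_, insO_strict h hm.2⟩
        intro c hc
        rcases List.mem_cons.mp ((insO_some h).mem_iff.mp hc) with h2 | h2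
        · rw [h2]; exact hj
        · exact hm.1 c h2
      · exact ih' q h1

lemma dpoly_inc {i j : ℕ} (hj : j < 12) {p : List (List ℕ × ℕ)}
    (hp : ∀ q ∈ p, ok q.1 ∧ q.1.length = 2) :
    ∀ q ∈ dpoly i j p, ok q.1 ∧ q.1.Pairwise (· < ·) := by
  induction p with
  | nil => intro q hq; simp [dpoly] at hq
  | cons r t ih =>
    have ih' := ih (fun c hc => hp c (List.mem_cons_of_mem _ hc))
    have hr := hp r List.mem_cons_self
    intro q hq
    rw [dpoly] at hq
    rcases List.mem_append.mp hq with h | h
    · refine dpolyT_inc hj r.2 ?_ q h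
      intro m hm
      have h1 := occ_spec hm
      refine ⟨fun a ha => hr.1 a (h1.2.subset ha), ?_⟩
      have hl : m.length = 1 := by omega
      obtain ⟨a, rfl⟩ := List.length_eq_one_iff.mp hl
      exact List.pairwise_singleton _ _
    · exact ih' q h

/-- normalised key -/
def keyN (a : ℕ) : ℕ := key (a / 45) (b2 (a % 45))

/-- the value of the vector field `x_j ∂_i` at the normalised coordinate `a` -/
noncomputable def btv (w : k) (i j : Fin 12) (a : ℕ) : k :=
  evF (-w) (F2L (a % 45)) (X j * pderiv i (poly (-w) (genL (a / 45))))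

include hw in
lemma rowEv_btRow (v : ℕ → k) (i j : Fin 12) (L : List ℕ) :
    rowEv (-w) v (btRow i j L) = (L.map fun a => btv w i j a * v (keyN a)).sum := by
  induction L with
  | nil => simp [btRow, rowEv]
  | cons a t ih =>
    have hrow : ∀ (K : ℕ) (es : List ℕ), rowEv (-w) v (es.map fun e => (K, e)) =
        (es.map fun e => (-w) ^ e).sum * v K := by
      intro K es
      induction es with
      | nil => simp [rowEv]
      | cons e es ihe => rw [List.map_cons, rowEv_cons, ihe, List.map_cons, List.sum_cons, add_mul]
    have hy : a % 45 < 45 := Nat.mod_lt _ (by norm_num)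
    have hs := genL_sorted (a / 45)
    rw [btRow, rowEv_append, ih, hrow, evF_pairing (-w) (dual_inc (F2_mem hy))
      (dpoly_inc j.2 (fun q hq => ⟨(hs q hq).1, (hs q hq).2.2⟩)),
      evF_dpoly hw i.2 j.2 (fun q hq => (hs q hq).1) hy, List.map_cons, List.sum_cons]
    have hi' : Fin.ofNat 12 (i : ℕ) = i := by simp
    have hj' : xv k (j : ℕ) = X j := by rw [xv]; simp
    rw [hi', hj']
    rfl

lemma sum_list {n : ℕ} {L : List ℕ} (hL : L.length = n) (f : ℕ → k) :
    (L.map f).sum = ∑ i : Fin n, f (L.getD i 0) := by
  subst hL
  induction L with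
  | nil => simp
  | cons a t ih =>
    rw [List.map_cons, List.sum_cons, ih, List.length_cons, Fin.sum_univ_succ]
    rfl

theorem normL_length : normL.length = 143 := by decide +kernel

/-- no repetition -/
def nodupN : List ℕ → Bool
  | [] => true
  | b :: t => !(memN b t) && nodupN t

theorem keys_nodup : nodupN (normL.map keyN) = true := by decide +kernel

lemma nodupN_spec {L : List ℕ} (h : nodupN L = true) : L.Nodup := by
  induction L with
  | nil => exact List.nodup_nil
  | cons b t ih =>
    simp only [nodupN, Bool.and_eq_true, Bool.not_eq_true', ← Bool.not_eq_true, memN_iff] at h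
    exact List.nodup_cons.mpr ⟨h.1, ih h.2⟩

lemma keyN_inj (m n : Fin 143) (h : keyN (normL.getD m 0) = keyN (normL.getD n 0)) : m = n := by
  have hnd := nodupN_spec keys_nodup
  have hm : (m : ℕ) < normL.length := by rw [normL_length]; exact m.2
  have hn : (n : ℕ) < normL.length := by rw [normL_length]; exact n.2
  rw [List.getD_eq_getElem _ _ hm, List.getD_eq_getElem _ _ hn] at h
  have hm' : (m : ℕ) < (normL.map keyN).length := by rw [List.length_map]; exact hm
  have hn' : (n : ℕ) < (normL.map keyN).length := by rw [List.length_map]; exact hn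
  have h2 : (normL.map keyN)[(m : ℕ)] = (normL.map keyN)[(n : ℕ)] := by
    rw [List.getElem_map, List.getElem_map]; exact h
  exact Fin.ext ((hnd.getElem_inj_iff).mp h2)

theorem chkBTz : normL.all (fun a => !(tb zBT (keyN a)) && Nat.blt (keyN a) 4752) = true := by
  decide +kernel

theorem chkBTid : allN (fun i => Nat.blt ((tBT.get (i + 1)).1 / 12) 12) 143 = true := by
  decide +kernel

include hw in
theorem bt_surj [CharZero k] (t : Fin 143 → k) : ∃ γ : Fin 12 → Fin 12 → k, ∀ n : Fin 143,
    ∑ i, ∑ j, γ i j * btv w i j (normL.getD n 0) = t n := by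
  classical
  have hmem : t ∈ Submodule.span k (Set.range fun p : Fin 12 × Fin 12 =>
      fun n : Fin 143 => btv w p.1 p.2 (normL.getD n 0)) := by
    apply mem_of_dual
    intro φ hφ
    set c : Fin 143 → k := fun n => φ (Pi.single n 1) with hc
    have hφx : ∀ x : Fin 143 → k, φ x = ∑ n, x n * c n := by
      intro x
      have := LinearMap.pi_apply_eq_sum_univ φ x
      rw [this]
      apply Finset.sum_congr rfl
      intro n _
      rw [smul_eq_mul, hc]
      congr 2
      funext m
      rw [Pi.single_apply]
      by_cases h : m = n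
      · rw [if_pos h, if_pos h.symm]
      · rw [if_neg h, if_neg (fun h' => h h'.symm)]
    set v : ℕ → k := fun K => ∑ n : Fin 143, if keyN (normL.getD n 0) = K then c n else 0 with hv
    have hvc : ∀ n : Fin 143, v (keyN (normL.getD n 0)) = c n := by
      intro n
      rw [hv]
      simp only
      rw [Finset.sum_eq_single n]
      · rw [if_pos rfl]
      · intro m _ hmn
        rw [if_neg]
        intro h; exact hmn (keyN_inj m n h)
      · intro h; exact absurd (Finset.mem_univ _) h
    have key1 := zero_of_chk' (root hw)
      (fun i hi => chkFrom_chk chkBT i (Nat.zero_le _) (by omega)) finBT v ?_ ?_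
    · have hc0 : ∀ n, c n = 0 := by
        intro n
        rw [← hvc]
        apply key1
        have hn : (n : ℕ) < normL.length := by rw [normL_length]; exact n.2
        rw [List.getD_eq_getElem _ _ hn]
        have := (List.all_eq_true.mp chkBTz) _ (List.getElem_mem hn)
        simp only [Bool.and_eq_true, Nat.blt_eq] at this
        exact this.2
      rw [hφx]
      exact Finset.sum_eq_zero (fun n _ => by rw [hc0, mul_zero])
    · intro i hi
      have h1 := allN_spec chkBTid i hi
      rw [Nat.blt_eq] at h1
      set a := (tBT.get (i + 1)).1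
      have h2 : a % 12 < 12 := Nat.mod_lt _ (by norm_num)
      have h3 := rowEv_btRow hw v ⟨a / 12, h1⟩ ⟨a % 12, h2⟩ normL
      rw [origBT]
      refine h3.trans ?_
      rw [sum_list normL_length]
      have h4 := hφ (fun n : Fin 143 => btv w ⟨a / 12, h1⟩ ⟨a % 12, h2⟩ (normL.getD n 0))
        (Submodule.subset_span ⟨(⟨a / 12, h1⟩, ⟨a % 12, h2⟩), rfl⟩)
      rw [hφx] at h4
      rw [← h4]
      apply Finset.sum_congr rfl
      intro n _
      rw [hvc]
    · intro K _ hz
      rw [hv]
      simp only
      apply Finset.sum_eq_zero
      intro n _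
      rw [if_neg]
      rintro rfl
      have hn : (n : ℕ) < normL.length := by rw [normL_length]; exact n.2
      rw [List.getD_eq_getElem _ _ hn] at hz
      have := (List.all_eq_true.mp chkBTz) _ (List.getElem_mem hn)
      rw [hz] at this
      simp at this
  rw [Submodule.mem_span_range_iff_exists_fun] at hmem
  obtain ⟨c, hc⟩ := hmem
  refine ⟨fun i j => c (i, j), fun n => ?_⟩
  rw [← hc, Finset.sum_apply, Fintype.sum_prod_type]
  rfl

end

end Pool.Agent.H68.Gal
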