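import Pool.Agent.H68.Gal.Reps
import Pool.Agent.H68.Gal.CertD0
import Pool.Agent.H68.Gal.CertD1
import Pool.Agent.H68.Gal.CertD2_0
import Pool.Agent.H68.Gal.CertD2_1
import Pool.Agent.H68.Gal.CertD2_2
import Pool.Agent.H68.Gal.CertD2_3
import Pool.Agent.H68.Gal.CertD2_4
import Pool.Agent.H68.Gal.CertD2_5
import Pool.Agent.H68.Gal.CertD2_6
import Pool.Agent.H68.Gal.CertD2_7
import Pool.Agent.H68.Gal.CertBT

/-!
# Normalised homomorphisms vanish
-/

namespace Pool.Agent.H68.Gal

open MvPolynomial

variable {k : Type*} [Field k]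

/-- membership of a natural number in a list -/
def memN (a : ℕ) : List ℕ → Bool
  | [] => false
  | b :: t => Nat.beq a b || memN a t

lemma memN_iff {a : ℕ} {L : List ℕ} : memN a L = true ↔ a ∈ L := by
  induction L with
  | nil => simp [memN]
  | cons b t ih =>
    simp only [memN, Bool.or_eq_true, ih, List.mem_cons]
    constructor
    · rintro (h | h)
      · exact Or.inl (Nat.eq_of_beq_eq_true h)
      · exact Or.inr h
    · rintro (h | h)
      · left; rw [h]; exact Nat.beq_refl _
      · exact Or.inr h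

lemma bas_two {m : List ℕ} (hm : m ∈ basL) (hl : m.length = 2) : ∃ y < 45, m = b2 y := by
  unfold basL at hm
  simp only [List.cons_append, List.mem_cons, List.mem_append, List.mem_map, List.mem_range] at hm
  rcases hm with rfl | (⟨i, hi, rfl⟩ | ⟨y, hy, rfl⟩) | ⟨z, hz, rfl⟩
  · simp at hl
  · simp at hl
  · exact ⟨y, hy, rfl⟩
  · exfalso
    have h := F3_inc hz
    cases hF : F3L z with
    | nil => rw [hF] at hl; simp at hl
    | cons q t =>
      rw [hF] at hl h
      have := (inc_spec (h q List.mem_cons_self)).1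
      simp only [List.headD_cons] at hl
      omega

lemma b2_inc {y : ℕ} (hy : y < 45) : inc 2 (b2 y) = true := by
  have : allN (fun y => inc 2 (b2 y)) 45 = true := by decide +kernel
  exact allN_spec this y hy

lemma F2_mem {y : ℕ} (hy : y < 45) : F2L y ∈ dualL := by
  unfold dualL
  simp only [List.cons_append, List.mem_cons, List.mem_append, List.mem_map, List.mem_range]
  exact Or.inr (Or.inl (Or.inr ⟨y, hy, rfl⟩))

lemma single_mem {i : ℕ} (hi : i < 12) : [([i], 0)] ∈ dualL := by
  unfold dualL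
  simp only [List.cons_append, List.mem_cons, List.mem_append, List.mem_map, List.mem_range]
  exact Or.inr (Or.inl (Or.inl ⟨i, hi, rfl⟩))

section

variable [CharZero k] {w : k} (hw : w ^ 2 + w + 1 = 0) {G : ℕ → MvPolynomial (Fin 12) k}
  (hS : ∀ s < 81, synEv (-w) G (synL s) ∈ I w)

include hw hS in
lemma zeroD0 {j : ℕ} (hj : j < 33) : coeff 0 (G j) = 0 := by
  have key1 := zero_of_chk' (root hw) (fun i hi => chkFrom_chk chkD0 i (Nat.zero_le _) (by omega))
    finD0 (vD 0 G) ?_ ?_ j hj
  · simpa [vD, dig, inc] using key1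
  · have hc : allN (fun i => Nat.blt ((tD0.get (i + 1)).1 % 64) 12 &&
      Nat.blt ((tD0.get (i + 1)).1 / 64) 81) 33 = true := by decide +kernel
    intro i hi
    have hi' := allN_spec hc i hi
    simp only [Bool.and_eq_true, Nat.blt_eq] at hi'
    rw [origD0, rowEv_mkRow (-w) 0 G (by
      intro q hq
      simp only [List.mem_singleton] at hq
      subst hq
      exact inc_of rfl (fun a ha => by simp at ha; omega) (List.pairwise_singleton _ _))
      (fun t ht => (synL_lt hi'.2 t ht).1)]
    exact kill1 hw hi'.1 (hS _ hi'.2)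
  · intro i _ hz
    simp [zD0, tb] at hz

include hw hS in
lemma zeroD1 (hN : ∀ i < 12, coeff (expo [i]) (G i) = 0) {j i : ℕ} (hj : j < 33) (hi : i < 12) :
    coeff (expo [i]) (G j) = 0 := by
  have hinc : ∀ a < 12, inc 1 [a] = true := fun a ha => by simpa [inc, Nat.blt_eq] using ha
  have key1 := zero_of_chk' (root hw) (fun i hi => chkFrom_chk chkD1 i (Nat.zero_le _) (by omega))
    finD1 (vD 1 G) ?_ ?_ (key j [i]) ?_
  · rw [vD_key 1 G j (hinc i hi)] at key1
    exact key1
  · have hc : allN (fun i => Nat.blt ((tD1.get (i + 1)).1 % 64) 45 &&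
      Nat.blt ((tD1.get (i + 1)).1 / 64) 81) 384 = true := by decide +kernel
    intro i hi
    have hi' := allN_spec hc i hi
    simp only [Bool.and_eq_true, Nat.blt_eq] at hi'
    rw [origD1, rowEv_mkRow (-w) 1 G (F2_inc hi'.1) (fun t ht => (synL_lt hi'.2 t ht).1)]
    exact kill2 hw hi'.1 (hS _ hi'.2)
  · have hc : allN (fun K => !(tb zD1 K) || Nat.beq (K / 12) (K % 12)) 396 = true := by
      decide +kernel
    intro K hK hz
    have h := allN_spec hc K hK
    simp only [hz, Bool.not_true, Bool.false_or] at h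
    have h1 := Nat.eq_of_beq_eq_true h
    have h2 : K % 12 < 12 := Nat.mod_lt _ (by norm_num)
    have h3 := hN (K % 12) h2
    simp only [vD, dig, pow_one, h1, h3, ite_self]
  · have := key_lt (m := [i]) (fun a ha => by simp at ha; omega) hj
    simpa using this

lemma key_dig2 (K : ℕ) : key (K / 12 ^ 2) (dig 2 K []) = K := by
  simp only [dig, key, List.foldl_cons, List.foldl_nil]
  omega

theorem chkZ2 : allN (fun l => allN (fun y => !(tb zD2 (key l (b2 y))) ||
    memN (l * 45 + y) normL) 45) 33 = true := by decide +kernel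

theorem chkId2 : allN (fun i => Nat.blt ((tD2.get (i + 1)).1 % 64) 49 &&
      Nat.blt ((tD2.get (i + 1)).1 / 64) 81) 1342 = true := by decide +kernel

lemma chkD2_all (i : ℕ) (hi : i < 1342) : chk origD2 zD2 4752 tD2 i = true := by
  rcases Nat.lt_or_ge i 450 with h | h
  · exact chkFrom_chk chkD2_0 i (by omega) (by omega)
  rcases Nat.lt_or_ge i 700 with h | h
  · exact chkFrom_chk chkD2_1 i (by omega) (by omega)
  rcases Nat.lt_or_ge i 850 with h | h
  · exact chkFrom_chk chkD2_2 i (by omega) (by omega)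
  rcases Nat.lt_or_ge i 980 with h | h
  · exact chkFrom_chk chkD2_3 i (by omega) (by omega)
  rcases Nat.lt_or_ge i 1080 with h | h
  · exact chkFrom_chk chkD2_4 i (by omega) (by omega)
  rcases Nat.lt_or_ge i 1170 with h | h
  · exact chkFrom_chk chkD2_5 i (by omega) (by omega)
  rcases Nat.lt_or_ge i 1260 with h | h
  · exact chkFrom_chk chkD2_6 i (by omega) (by omega)
  · exact chkFrom_chk chkD2_7 i (by omega) (by omega)

include hw hS in
lemma zeroD2 (hW : ∀ j, G j ∈ W2 k)
    (hN : ∀ a ∈ normL, coeff (expo (b2 (a % 45))) (G (a / 45)) = 0) {j : ℕ} {m : List ℕ}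
    (hj : j < 33) (hm : inc 2 m = true) : coeff (expo m) (G j) = 0 := by
  have key1 := zero_of_chk' (root hw) chkD2_all finD2 (vD 2 G) ?_ ?_ (key j m) ?_
  · rw [vD_key 2 G j hm] at key1
    exact key1
  · intro i hi
    have hi' := allN_spec chkId2 i hi
    simp only [Bool.and_eq_true, Nat.blt_eq] at hi'
    rw [origD2, rowEv_mkRow (-w) 2 G (F3_inc hi'.1) (fun t ht => (synL_lt hi'.2 t ht).1)]
    exact kill3 hw hi'.1 (hS _ hi'.2)
  · intro K hK hz
    by_contra hne
    rw [vD] at hne
    split_ifs at hne with h1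
    · obtain ⟨m', hm', hl', he⟩ := W2_coeff (hW _) hne
      have i1 := inc_spec h1
      have i2 := bas_spec hm'
      have hmm : m' = dig 2 K [] := expo_inj i2.2.1 i1.2.1 i2.2.2 i1.2.2 he
      subst hmm
      obtain ⟨y, hy, hb⟩ := bas_two hm' i1.1
      have hl : K / 12 ^ 2 < 33 := by
        rw [Nat.div_lt_iff_lt_mul (by norm_num)]; norm_num; exact hK
      have h := allN_spec (allN_spec chkZ2 _ hl) y hy
      rw [← hb, key_dig2, hz, Bool.not_true, Bool.false_or, memN_iff] at h
      have h2 := hN _ h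
      have e1 : (K / 12 ^ 2 * 45 + y) % 45 = y := by omega
      have e2 : (K / 12 ^ 2 * 45 + y) / 45 = K / 12 ^ 2 := by omega
      rw [e1, e2, ← hb] at h2
      exact hne h2
    · exact hne rfl
  · have i1 := inc_spec hm
    have := key_lt i1.2.1 hj
    rw [i1.1] at this
    exact this

include hw hS in
theorem all_zero (hW : ∀ j, G j ∈ W2 k) (hN1 : ∀ i < 12, coeff (expo [i]) (G i) = 0)
    (hN : ∀ a ∈ normL, coeff (expo (b2 (a % 45))) (G (a / 45)) = 0) {j : ℕ} (hj : j < 33) :
    G j = 0 := by
  ext e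
  rw [coeff_zero]
  by_contra hne
  obtain ⟨m, hm, hl, he⟩ := W2_coeff (hW j) hne
  have hb := bas_spec hm
  rw [← he] at hne
  match m, hb, hl, hne with
  | [], _, _, hne => exact hne (zeroD0 hw hS hj)
  | [a], hb, _, hne => exact hne (zeroD1 hw hS hN1 hj (hb.2.1 a (by simp)))
  | [a, b], hb, _, hne => exact hne (zeroD2 hw hS hW hN hj (inc_of rfl hb.2.1 hb.2.2))
  | _ :: _ :: _ :: _, _, hl, _ => simp at hl

end

end Pool.Agent.H68.Gal
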